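import Pool.Agent.Helper34.FB.Goals

set_option autoImplicit false

namespace Pool.Agent.Helper34.FB

open IsLocalRing Pool.Agent.Helper26.DA

universe u v w

section
variable {A : Type u} {B : Type v} [CommRing A] [CommRing B] [Algebra A B] {p : ℕ} {H : HA.{u, v, w} A B p}

theorem nullH_zero : NullH H 0 := ⟨0, fun i z => by simp, fun z => by simp⟩

theorem NullH.add {f g : H.M →ₗ[A] H.M} (hf : NullH H f) (hg : NullH H g) : NullH H (f + g) := by
  obtain ⟨η, h1, h2⟩ := hf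
  obtain ⟨η', h1', h2'⟩ := hg
  refine ⟨η + η', fun i z => ?_, fun z => ?_⟩
  · rw [LinearMap.add_apply, LinearMap.add_apply, map_add, h1, h1']
  · rw [LinearMap.add_apply, LinearMap.add_apply, LinearMap.add_apply, map_add, h2, h2']
    abel

theorem NullH.smul {f : H.M →ₗ[A] H.M} (a : A) (hf : NullH H f) : NullH H (a • f) := by
  obtain ⟨η, h1, h2⟩ := hf
  refine ⟨a • η, fun i z => ?_, fun z => ?_⟩
  · rw [LinearMap.smul_apply, LinearMap.smul_apply, map_smul, h1]
  · rw [LinearMap.smul_apply, LinearMap.smul_apply, LinearMap.smul_apply, map_smul, h2, smul_add]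

theorem NullH.neg {f : H.M →ₗ[A] H.M} (hf : NullH H f) : NullH H (-f) := by
  have := hf.smul (-1)
  rwa [neg_smul, one_smul] at this

theorem NullH.comp_rho {f : H.M →ₗ[A] H.M} (hf : NullH H f) (b : B) : NullH H (f ∘ₗ H.ρ b) := by
  obtain ⟨η, h1, h2⟩ := hf
  refine ⟨η ∘ₗ H.ρ b, fun i z => ?_, fun z => ?_⟩
  · rw [LinearMap.comp_apply, LinearMap.comp_apply, H.ρ_pr, h1]
  · rw [LinearMap.comp_apply, LinearMap.comp_apply, LinearMap.comp_apply, h2, H.ρ_d]

/-- `f` represents `x` -/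
def Rp (H : HA.{u, v, w} A B p) (x : B) (f : H.M →ₗ[A] H.M) : Prop := NullH H (H.ρ x - f)

theorem rp_rho (x : B) : Rp H x (H.ρ x) := by
  rw [Rp, sub_self]
  exact nullH_zero

theorem Rp.add {x y : B} {f g : H.M →ₗ[A] H.M} (hf : Rp H x f) (hg : Rp H y g) : Rp H (x + y) (f + g) := by
  have h1 : NullH H (H.ρ (x + y) - (H.ρ x + H.ρ y)) := by
    obtain ⟨η, h1, h2⟩ := H.add x y
    exact ⟨η, h1, fun z => by rw [← h2]; rfl⟩
  have h2 := (h1.add hf).add hg
  rw [Rp]
  convert h2 using 1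
  abel

theorem Rp.zero_null : NullH H (H.ρ 0) := by
  obtain ⟨η, h1, h2⟩ := H.add 0 0
  have h3 : NullH H (-(H.ρ 0)) := ⟨η, h1, fun z => by
    rw [← h2, add_zero, LinearMap.neg_apply]; abel⟩
  have := h3.neg
  rwa [neg_neg] at this

theorem Rp.alg_mul {x : B} {f : H.M →ₗ[A] H.M} (a : A) (hf : Rp H x f) : Rp H (algebraMap A B a * x) (a • f) := by
  have h1 : NullH H (H.ρ (algebraMap A B a * x) - H.ρ (algebraMap A B a) ∘ₗ H.ρ x) := by
    obtain ⟨η, h1, h2⟩ := H.mul (algebraMap A B a) x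
    exact ⟨η, h1, fun z => by rw [← h2]; rfl⟩
  have h2 : NullH H (H.ρ (algebraMap A B a) - a • LinearMap.id) := by
    obtain ⟨η, h1, h2⟩ := H.alg a
    exact ⟨η, h1, fun z => by rw [← h2]; rfl⟩
  have h3 := (h1.add (h2.comp_rho x)).add (hf.smul a)
  rw [Rp]
  convert h3 using 1
  ext z
  simp only [LinearMap.sub_apply, LinearMap.add_apply, LinearMap.comp_apply, LinearMap.smul_apply,
    LinearMap.id_apply, smul_sub]
  abel

theorem rp_mul (x y : B) : Rp H (x * y) (H.ρ x ∘ₗ H.ρ y) := by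
  obtain ⟨η, h1, h2⟩ := H.mul x y
  exact ⟨η, h1, fun z => by rw [← h2]; rfl⟩

theorem rp_alg (a : A) : Rp H (algebraMap A B a) (a • LinearMap.id) := by
  obtain ⟨η, h1, h2⟩ := H.alg a
  exact ⟨η, h1, fun z => by rw [← h2]; rfl⟩

theorem rp_sum {ι : Type} (s : Finset ι) (x : ι → B) (f : ι → (H.M →ₗ[A] H.M)) (h : ∀ i, Rp H (x i) (f i)) :
    Rp H (∑ i ∈ s, x i) (∑ i ∈ s, f i) := by
  classical
  induction s using Finset.induction_on with
  | empty =>
    rw [Finset.sum_empty, Finset.sum_empty, Rp, sub_zero]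
    exact Rp.zero_null
  | insert i s hi ih =>
    rw [Finset.sum_insert hi, Finset.sum_insert hi]
    exact (h i).add ih

end

theorem gHTP : G_HTP.{u, v, w} := by
  intro A B _ _ _ p H κ lam _ _ a c1 c2 b c a0 h
  have h1 : Rp H _ _ := ((rp_sum (H := H) Finset.univ (fun k : κ => algebraMap A B (a k) * (c1 k * c2 k))
    (fun k => a k • (H.ρ (c1 k) ∘ₗ H.ρ (c2 k))) (fun k => (rp_mul _ _).alg_mul _)).add
    (rp_sum (H := H) Finset.univ (fun l : lam => algebraMap A B (b l) * c l)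
      (fun l => b l • H.ρ (c l)) (fun l => (rp_rho _).alg_mul _))).add (rp_alg a0)
  rw [h, Rp] at h1
  have h2 := (Rp.zero_null (H := H)).add h1.neg
  convert h2 using 1
  abel

end Pool.Agent.Helper34.FB
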