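import Pool.Agent.Helper34.FB.Goals

set_option autoImplicit false

namespace Pool.Agent.Helper34.FB

open IsLocalRing Pool.Agent.Helper26.DA

universe u v

theorem gTRIV : G_TRIV.{u, v} := by
  intro R _ t1 t2 e s p f1 f2 S g hs hg x hx
  classical
  have hK : ∀ a : Fin s, ∃ K : S.W →+ S.W, (∀ i, ∀ w ∈ S.gr i, K w ∈ S.gr (i + 1)) ∧
      ∀ b w, S.D (Sum.inr b) (K w) + K (S.D (Sum.inr b) w) = (if b = a then (1 : R) else 0) • w := by
    intro a
    obtain ⟨K, h1, -, h2⟩ := S.kop (Sum.elim (fun j => - g a j) fun b => if b = a then (1 : R) else 0) (by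
      rw [Fintype.sum_sum_type]
      simp only [Sum.elim_inl, Sum.elim_inr]
      have h3 : ∑ b : Fin s, (if b = a then (1 : R) else 0) * (t1 * f1 (Sum.inr b) + t2 * f2 (Sum.inr b)) =
          t1 * f1 (Sum.inr a) + t2 * f2 (Sum.inr a) := by
        rw [Finset.sum_eq_single a]
        · simp
        · intro b _ hb; simp [hb]
        · intro h; exact absurd (Finset.mem_univ _) h
      rw [h3, hg a, ← Finset.sum_add_distrib]
      exact Finset.sum_eq_zero fun j _ => by ring)
    exact ⟨K, h1, fun b w => h2 _ _⟩
  choose K hK1 hK2 using hK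
  let y : ℕ → S.W := fun k => Nat.rec x (fun k yk => if h : k < s then K ⟨k, h⟩ yk else 0) k
  have hy0 : y 0 = x := rfl
  have hys : ∀ k (h : k < s), y (k + 1) = K ⟨k, h⟩ (y k) := fun k h => by
    show (if h : k < s then K ⟨k, h⟩ (y k) else 0) = _
    rw [dif_pos h]
  have hgr : ∀ k, k ≤ s → y k ∈ S.gr k := by
    intro k
    induction k with
    | zero => exact fun _ => hx
    | succ k ih =>
      intro h
      rw [hys k (by omega)]
      exact hK1 _ _ _ (ih (by omega))
  have hE : ∀ k, k ≤ s → ∀ b : Fin s, k ≤ b → S.D (Sum.inr b) (y k) = 0 := by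
    intro k
    induction k with
    | zero => exact fun _ b _ => S.D_zero _ _ hx
    | succ k ih =>
      intro h b hb
      have h1 := hK2 ⟨k, by omega⟩ b (y k)
      rw [ih (by omega) b (by omega), map_zero, add_zero, if_neg, zero_smul] at h1
      · rw [hys k (by omega), h1]
      · intro h2
        rw [h2] at hb
        simp at hb
  have hz : ∀ j, j ≤ s → y (s - j) = 0 := by
    intro j
    induction j with
    | zero => exact fun _ => S.gr_top s (by omega) _ (hgr s le_rfl)
    | succ j ih =>
      intro h
      have h1 : s - j = s - (j + 1) + 1 := by omega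
      have h2 := ih (by omega)
      rw [h1, hys _ (by omega)] at h2
      have h3 := hK2 ⟨s - (j + 1), by omega⟩ ⟨s - (j + 1), by omega⟩ (y (s - (j + 1)))
      rw [h2, map_zero, zero_add, hE _ (by omega) _ (le_refl _), map_zero, if_pos rfl, one_smul] at h3
      exact h3.symm
  have := hz s le_rfl
  rwa [Nat.sub_self] at this

end Pool.Agent.Helper34.FB
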