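import Pool.Agent.Helper34.FB.Final
import Pool.Agent.Helper34.FB.TRIV
import Pool.Agent.Helper34.FB.HTP

/-!
# Project FB: everything
-/

set_option autoImplicit false

namespace Pool.Agent.Helper34.FB

open IsLocalRing Pool.Agent.Helper26.DA

universe u v w x y

theorem gMAIN : G_MAIN.{u, v, w} := main_all gTRIV gHTP

theorem gFREE : G_FREE.{u, v, w, x, y} := free_all gTRIV gHTP

end Pool.Agent.Helper34.FB
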