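import Pool.Agent.Helper34.FB.Asm4
import Pool.Agent.Helper54.FB.CLIMB
import Pool.Agent.Helper16.FB.DET
import Pool.Agent.Helper61.FB.ROW
import Pool.Agent.Helper19.FB.U
import Pool.Agent.Helper61.FB.CLAIM
import Pool.Agent.Helper9.FB.CLOSE
import Pool.Agent.Helper26.FB.REG
import Pool.Agent.Helper15.FB.SEL
import Pool.Agent.Helper3.FB.HB2
import Pool.Agent.Helper83.FB.SOC
import Pool.Agent.Helper28.FB.GV
import Pool.Agent.Helper33.FB.BUILD1
import Pool.Agent.Helper98.FB.BUILD2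
import Pool.Agent.Helper59.FB.MINRED
import Pool.Agent.Helper5.FB.GEN
import Pool.Agent.Helper32.FB.ADJ
import Pool.Agent.Helper2.FB.FINB
import Pool.Agent.Helper4.FB.TOHA

/-!
# Project FB: all packets together, up to TRIV and HTP
-/

set_option autoImplicit false

namespace Pool.Agent.Helper34.FB

open IsLocalRing Pool.Agent.Helper26.DA

universe u v w x y

theorem cf_all (hTR : G_TRIV.{u, v}) : G_CF.{u, v} :=
  cf Helper54.FB.gCLIMB hTR Helper16.FB.gDET Helper19.FB.gU Helper61.FB.gCLAIM Helper61.FB.gROW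
    Helper9.FB.gCLOSE Helper26.FB.gREG Helper3.FB.gHB2 Helper83.FB.gSOC

theorem freefin_all (hTR : G_TRIV.{y, w}) (hHT : G_HTP.{u, v, w}) : G_FREEFIN.{u, v, w, x, y} :=
  freefin hHT Helper28.FB.gGV Helper33.FB.gBUILD1 Helper98.FB.gBUILD2 (cf_all hTR)
    Helper54.FB.gCLIMB Helper16.FB.gDET Helper19.FB.gU Helper61.FB.gCLAIM Helper26.FB.gREG Helper3.FB.gHB2
    Helper5.FB.gGEN Helper15.FB.gSEL Helper32.FB.gADJ Helper59.FB.gMINRED

theorem free_all (hTR : G_TRIV.{y, w}) (hHT : G_HTP.{u, v, w}) : G_FREE.{u, v, w, x, y} :=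
  Helper2.FB.gFINB (freefin_all hTR hHT)

theorem main_all (hTR : G_TRIV.{w, u}) (hHT : G_HTP.{u, v, u}) : G_MAIN.{u, v, w} :=
  Helper4.FB.gTOHA (free_all hTR hHT)

end Pool.Agent.Helper34.FB
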