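import Pool.Agent.Helper34.FB.Goals

/-!
# Project FB: assembly, part 1 (the closed fibre)
-/

set_option autoImplicit false

namespace Pool.Agent.Helper34.FB

open IsLocalRing Pool.Agent.Helper26.DA

universe u v w x y

section AH
variable {R : Type u} {W : Type v} [CommRing R] [AddCommGroup W] [Module R W] {t1 t2 : R}
  {U : Submodule R W} {y : W}

theorem AH.add {g g' : R} (h : AH t1 t2 U y g) (h' : AH t1 t2 U y g') : AH t1 t2 U y (g + g') := by
  obtain ⟨a, b, v, hv, h1, h2, h3⟩ := h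
  obtain ⟨a', b', v', hv', h1', h2', h3'⟩ := h'
  refine ⟨a + a', b + b', v + v', U.add_mem hv hv', ?_, ?_, ?_⟩
  · rw [h1, h1']; ring
  · rw [add_smul, h2, h2', smul_add, neg_add]
  · rw [add_smul, h3, h3', smul_add]

theorem AH.zero : AH t1 t2 U y (0 : R) :=
  ⟨0, 0, 0, U.zero_mem, by simp, by simp, by simp⟩

theorem AH.smul {g : R} (c : R) (h : AH t1 t2 U y g) : AH t1 t2 U y (c * g) := by
  obtain ⟨a, b, v, hv, h1, h2, h3⟩ := h
  refine ⟨c * a, c * b, c • v, U.smul_mem _ hv, ?_, ?_, ?_⟩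
  · rw [h1]; ring
  · rw [mul_smul, h2, smul_neg, smul_comm]
  · rw [mul_smul, h3, smul_comm]

theorem AH.span {X : Set R} (h : ∀ g ∈ X, AH t1 t2 U y g) {g : R} (hg : g ∈ Ideal.span X) :
    AH t1 t2 U y g := by
  induction hg using Submodule.span_induction with
  | mem x hx => exact h x hx
  | zero => exact AH.zero
  | add a b _ _ ha hb => exact ha.add hb
  | smul c a _ ha => exact ha.smul c

theorem AH.fix (hR : REG t1 t2) {a b : R} (hy : y ∈ U) (h : AH t1 t2 U y (t1 * a + t2 * b)) :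
    ∃ v ∈ U, a • y = -(t2 • v) ∧ b • y = t1 • v := by
  obtain ⟨a', b', v, hv, h1, h2, h3⟩ := h
  obtain ⟨c, hc1, hc2⟩ := hR (a - a') (b - b') (by linear_combination h1)
  refine ⟨v + c • y, U.add_mem hv (U.smul_mem _ hy), ?_, ?_⟩
  · have : a = a' + -(t2 * c) := by linear_combination hc1
    rw [this, add_smul, h2, neg_smul, mul_smul, smul_add, neg_add]
  · have : b = b' + t1 * c := by linear_combination hc2
    rw [this, add_smul, h3, mul_smul, smul_add]

end AH

theorem mem_mtop {R : Type u} {W : Type v} [CommRing R] [IsLocalRing R] [AddCommGroup W] [Module R W]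
    {t1 t2 : R} (hm : maximalIdeal R = Ideal.span {t1, t2}) (y : W) :
    y ∈ maximalIdeal R • (⊤ : Submodule R W) ↔ ∃ a b : W, y = t1 • a + t2 • b := by
  constructor
  · intro h
    induction h using Submodule.smul_induction_on' with
    | smul r hr n _ =>
      rw [hm, Ideal.mem_span_pair] at hr
      obtain ⟨a, b, rfl⟩ := hr
      exact ⟨a • n, b • n, by rw [add_smul, mul_comm a, mul_comm b, mul_smul, mul_smul]⟩
    | add x _ y _ hx hy =>
      obtain ⟨a, b, rfl⟩ := hx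
      obtain ⟨a', b', rfl⟩ := hy
      exact ⟨a + a', b + b', by rw [smul_add, smul_add]; abel⟩
  · rintro ⟨a, b, rfl⟩
    refine Submodule.add_mem _ ?_ ?_
    · exact Submodule.smul_mem_smul (hm ▸ Ideal.subset_span (by simp)) trivial
    · exact Submodule.smul_mem_smul (hm ▸ Ideal.subset_span (by simp)) trivial

theorem Dw_gr {R : Type u} [CommRing R] {t1 t2 : R} {J : Type} [Fintype J] {f1 f2 : J → R} {p : ℕ}
    (S : Sys1.{u, v} R t1 t2 J f1 f2 p) (L : List J) (i : ℕ) (y : S.W) (hy : y ∈ S.gr i) :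
    (L.length ≤ i → Dw S L y ∈ S.gr (i - L.length)) ∧ (i < L.length → Dw S L y = 0) := by
  induction L with
  | nil => exact ⟨fun _ => by simpa [Dw] using hy, fun h => by simp at h⟩
  | cons j L ih =>
    constructor
    · intro h
      simp only [List.length_cons] at h
      have h1 := ih.1 (by omega)
      have h2 : i - L.length = i - (L.length + 1) + 1 := by omega
      rw [h2] at h1
      exact S.D_gr j _ _ h1
    · intro h
      simp only [List.length_cons] at h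
      show S.D j (Dw S L y) = 0
      by_cases hl : i < L.length
      · rw [ih.2 hl, map_zero]
      · have h1 := ih.1 (by omega)
        have h2 : i - L.length = 0 := by omega
        rw [h2] at h1
        exact S.D_zero j _ h1

/-- HYP from the minors -/
theorem hyp_of {R : Type u} [CommRing R] {t1 t2 : R} {n s p : ℕ}
    {f1 f2 : Fin (n + 1) ⊕ Fin s → R} (S : Sys.{u, v} R t1 t2 (Fin (n + 1) ⊕ Fin s) f1 f2 p)
    (hR : REG t1 t2) (g0 : R) (f0 : Fin (n + 1) → R)
    (hf : ∀ j, t1 * f1 (Sum.inl j) + t2 * f2 (Sum.inl j) = g0 * f0 j) (X : Set R)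
    (hX : ∀ j, f0 j ∈ Ideal.span X)
    (h : ∀ g ∈ X, ∀ i, s + 1 ≤ i → ∀ z ∈ S.gr i, AH t1 t2 (S.gr i) z g) : HYP S.toSys1 := by
  intro m i hi y hy
  apply AH.fix hR hy
  rw [hf m]
  exact (AH.span (fun g hg => h g hg i hi y hy) (hX m)).smul g0

/-- consequence of CLIMB in degree zero -/
theorem deg0 (hCL : G_CLIMB.{u, v, v}) {R : Type u} [CommRing R] [IsLocalRing R] {t1 t2 : R}
    (hm : maximalIdeal R = Ideal.span {t1, t2}) {e s p : ℕ}
    {f1 f2 : Fin e ⊕ Fin s → R} (S : Sys1.{u, v} R t1 t2 (Fin e ⊕ Fin s) f1 f2 p)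
    (g : Fin s → Fin e → R) (hes : e + s = p + 2)
    (hg : ∀ a, t1 * f1 (Sum.inr a) + t2 * f2 (Sum.inr a) =
      ∑ j, g a j * (t1 * f1 (Sum.inl j) + t2 * f2 (Sum.inl j)))
    (hH : HYP S) (m : Fin e) (x v : S.W) (hx : x ∈ S.gr 0) (hv : v ∈ S.gr 0)
    (h1 : f1 (Sum.inl m) • x = -(t2 • v)) (h2 : f2 (Sum.inl m) • x = t1 • v) :
    ∃ a ∈ S.gr 0, ∃ b ∈ S.gr 0, x = t1 • a + t2 • b := by
  classical
  set τ : S.W →ₗ[R] (S.W ⧸ (maximalIdeal R • (⊤ : Submodule R S.W))) :=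
    (Submodule.mkQ _) ∘ₗ S.pr with hτ
  have hτ0 : ∀ y, τ y = 0 ↔ ∃ a b : S.W, S.pr y = t1 • a + t2 • b := by
    intro y
    rw [hτ, LinearMap.comp_apply, Submodule.mkQ_apply, Submodule.Quotient.mk_eq_zero, mem_mtop hm]
  have ht1 : ∀ y, τ (t1 • y) = 0 := fun y => (hτ0 _).2 ⟨S.pr y, 0, by simp⟩
  have ht2 : ∀ y, τ (t2 • y) = 0 := fun y => (hτ0 _).2 ⟨0, S.pr y, by simp⟩
  have hT : ∀ y ∈ S.T, τ y = 0 := fun y hy => (hτ0 _).2 ⟨0, 0, by simp [S.pr_T y hy]⟩
  set y : Fin e ⊕ Fin s → S.W := fun l => if l = Sum.inl m then x else 0 with hy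
  have hy0 : ∀ l, y l ∈ S.gr 0 := by
    intro l
    simp only [hy]
    split_ifs
    · exact hx
    · exact Submodule.zero_mem _
  have hsum : ∀ f : Fin e ⊕ Fin s → R, ∑ l, f l • y l = f (Sum.inl m) • x := by
    intro f
    rw [Finset.sum_eq_single (Sum.inl m)]
    · simp [hy]
    · intro b _ hb; simp [hy, hb]
    · intro h; exact absurd (Finset.mem_univ _) h
  have hk := S.kap 0 y v hy0 hv (by rw [hsum, h1]) (by rw [hsum, h2])
  set ww := ∑ l, S.h l (y l) - S.s v with hww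
  have hD : ∀ j, ∃ a b : S.W, S.D j ww = y j + (t1 • a + t2 • b) := by
    intro j
    obtain ⟨a, b, hab⟩ := hk j
    refine ⟨a, b, ?_⟩
    rw [hab]
    have h3 : ∀ l, S.D j (y l) = 0 := fun l => S.D_zero j _ (hy0 l)
    simp only [h3, map_zero, Finset.sum_const_zero, S.D_zero j _ hv, sub_zero]
  have hw1 : ww ∈ S.gr 1 :=
    Submodule.sub_mem _ (Submodule.sum_mem _ fun l _ => S.h_gr l 0 _ (hy0 l)) (S.s_gr 0 _ hv)
  have hc := hCL R t1 t2 e s p f1 f2 S _ τ g hes hg hH ht1 ht2 hT 1 le_rfl ww hw1 (by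
    intro L a ha
    match L, ha with
    | [b], hb =>
      rw [List.mem_singleton] at hb
      subst hb
      show τ (S.D (Sum.inr a) ww) = 0
      obtain ⟨a', b', hab⟩ := hD (Sum.inr a)
      rw [hab]
      have : y (Sum.inr a) = 0 := by simp [hy]
      rw [this, zero_add, map_add, ht1, ht2, add_zero]
    | (b :: b' :: L'), _ =>
      rw [(Dw_gr S (b :: b' :: L') 1 ww hw1).2 (by simp), map_zero]) [Sum.inl m]
  have hc' : τ (S.D (Sum.inl m) ww) = 0 := hc
  obtain ⟨a, b, hab⟩ := hD (Sum.inl m)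
  have hym : y (Sum.inl m) = x := by simp [hy]
  rw [hab, hym, map_add, map_add, ht1, ht2, add_zero, add_zero] at hc'
  obtain ⟨a', b', h3⟩ := (hτ0 _).1 hc'
  rw [S.pr_id x hx] at h3
  refine ⟨S.pr a', S.pr_mem _, S.pr b', S.pr_mem _, ?_⟩
  have := congrArg S.pr h3
  rw [S.pr_id x hx, map_add, map_smul, map_smul] at this
  exact this

/-- CF -/
theorem cf (hCL : G_CLIMB.{u, v, v}) (hTR : G_TRIV.{u, v}) (hDE : G_DET.{u, v}) (hU : G_U.{u, v})
    (hCM : G_CLAIM.{u, v}) (hRO : G_ROW.{u, v}) (hCO : G_CLOSE.{u, v}) (hRE : G_REG.{u}) (hHB : G_HB2.{u})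
    (hSO : G_SOC.{u}) : G_CF.{u, v} := by
  intro R _ _ _ _ _ t1 t2 hm hnp e s p f1 f2 S g hes hg hsyz r z hz hgen hmin c hc i
  classical
  have hone : ∀ i : Fin r, (∃ a ∈ S.gr 0, ∃ b ∈ S.gr 0, z i = t1 • a + t2 • b) → False := by
    intro i hi
    have h1 := hmin (Pi.single i 1) (by
      obtain ⟨a, ha, b, hb, hab⟩ := hi
      refine ⟨a, ha, b, hb, ?_⟩
      rw [← hab, Finset.sum_eq_single i]
      · simp
      · intro b _ hb'; simp [hb']
      · intro h; exact absurd (Finset.mem_univ _) h) i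
    rw [Pi.single_eq_same] at h1
    exact (Ideal.ne_top_iff_one _).1 (maximalIdeal.isMaximal R).ne_top h1
  rcases Nat.lt_or_ge e 2 with he | he
  · exfalso
    have hp1 : p + 1 ≤ s := by omega
    have h0 := hTR R t1 t2 e s p f1 f2 S.toSys1 g hp1 hg (z i) (hz i)
    exact hone i ⟨0, Submodule.zero_mem _, 0, Submodule.zero_mem _, by simp [h0]⟩
  obtain ⟨n, rfl⟩ : ∃ n, e = n + 1 := ⟨e - 1, by omega⟩
  have hn : 1 ≤ n := by omega
  have hR : REG t1 t2 := hRE R t1 t2 hm hnp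
  have ht10 : t1 ≠ 0 := by
    rintro rfl
    apply hnp
    refine ⟨t2, ?_⟩
    rw [hm]
    show Ideal.span {0, t2} = Ideal.span {t2}
    exact Ideal.span_insert_zero
  set F : Fin (n + 1) → R := fun j => t1 * f1 (Sum.inl j) + t2 * f2 (Sum.inl j) with hF
  obtain ⟨g0, f0, cc, hf, hcc, hspan, hdet, hcase⟩ := hHB R t1 t2 hm n F hn hsyz
  have hccm : ∀ k j, ∃ a b : R, cc k j = t1 * a + t2 * b := by
    intro k j
    have h1 := hsyz (cc k) (hcc k) j
    rw [hm, Ideal.mem_span_pair] at h1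
    obtain ⟨a, b, hab⟩ := h1
    exact ⟨a, b, by rw [← hab]; ring⟩
  choose c1 c2 hc12 using hccm
  have hψ : ∀ k, ∃ ψ : R, ∑ j, c1 k j * F j = -(t2 * ψ) ∧ ∑ j, c2 k j * F j = t1 * ψ := by
    intro k
    apply hR
    rw [Finset.mul_sum, Finset.mul_sum, ← Finset.sum_add_distrib, ← hcc k]
    refine Finset.sum_congr rfl fun j _ => ?_
    rw [hc12 k j]
    ring
  choose ψ hψ1 hψ2 using hψ
  have hdd : ∀ l : Fin n → Fin (n + 1), (Matrix.of fun k b => t1 * c1 k (l b) + t2 * c2 k (l b)).det =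
      (Matrix.of fun k b => cc k (l b)).det := by
    intro l
    congr 1
    ext k b
    simp only [Matrix.of_apply, hc12]
  have hcl := fun l => hCM hDE hU R t1 t2 n s p f1 f2 S g hR hn hes hg c1 c2 (fun k => by
    rw [← hcc k]
    refine Finset.sum_congr rfl fun j _ => ?_
    rw [hc12 k j]) l
  have hHY : HYP S.toSys1 := by
    refine hyp_of S hR g0 f0 hf _ hdet ?_
    rintro _ ⟨l, rfl⟩ i hi z hz
    have h1 := (hcl l).1 i hi z hz
    rw [hdd l] at h1
    exact h1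
  have hkill : ∀ m, ∀ x ∈ S.gr 0, f0 m • x = 0 := by
    intro m x hx
    have h1 := hdet m
    generalize f0 m = d at h1
    induction h1 using Submodule.span_induction with
    | mem y hy =>
      obtain ⟨l, rfl⟩ := hy
      have h2 := (hcl l).2 x hx
      rw [hdd l] at h2
      exact h2
    | zero => rw [zero_smul]
    | add a b _ _ ha hb => rw [add_smul, ha, hb, add_zero]
    | smul c a _ ha => rw [smul_eq_mul, mul_smul, ha, smul_zero]
  have hAHF : ∀ (m : Fin (n + 1)) (x : S.W), x ∈ S.gr 0 → AH t1 t2 (S.gr 0) x (F m) →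
      ∃ a ∈ S.gr 0, ∃ b ∈ S.gr 0, x = t1 • a + t2 • b := by
    intro m x hx h
    obtain ⟨v, hv, h1, h2⟩ := AH.fix hR hx h
    exact deg0 hCL hm S.toSys1 g hes hg hHY m x v hx hv h1 h2
  rcases hcase with hg0 | ⟨N, hN⟩
  · exfalso
    rw [hm, Ideal.mem_span_pair] at hg0
    obtain ⟨a, b, hab⟩ := hg0
    refine hone i (hAHF 0 (z i) (hz i) ⟨a * f0 0, b * f0 0, 0, Submodule.zero_mem _, ?_, ?_, ?_⟩)
    · rw [hf 0, ← hab]; ring
    · rw [mul_smul, hkill 0 _ (hz i)]; simp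
    · rw [mul_smul, hkill 0 _ (hz i)]; simp
  -- the main case
  set I : Ideal R := Ideal.span (Set.range F) with hI
  have hIle : I ≤ Ideal.span (Set.range fun j => t1 * f1 j + t2 * f2 j) := by
    rw [hI, Ideal.span_le]
    rintro _ ⟨j, rfl⟩
    exact Ideal.subset_span ⟨Sum.inl j, rfl⟩
  apply hIle
  by_contra hci
  -- find b
  have hex : ∃ k, ∀ a ∈ maximalIdeal R ^ k, ∀ i, a * c i ∈ I := by
    refine ⟨N, fun a ha i => Ideal.mul_mem_right _ _ (hN ha)⟩
  obtain ⟨k, hk, hkmin⟩ : ∃ k, (∀ a ∈ maximalIdeal R ^ k, ∀ i, a * c i ∈ I) ∧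
      ∀ k' < k, ¬ ∀ a ∈ maximalIdeal R ^ k', ∀ i, a * c i ∈ I :=
    ⟨Nat.find hex, Nat.find_spec hex, fun k' hk' => Nat.find_min hex hk'⟩
  have hk0 : k ≠ 0 := by
    rintro rfl
    exact hci (by simpa using hk 1 (by simp) i)
  obtain ⟨k', rfl⟩ : ∃ k', k = k' + 1 := ⟨k - 1, by omega⟩
  have h4 := hkmin k' (Nat.lt_succ_self _)
  push Not at h4
  obtain ⟨a, ha, i0, hi0⟩ := h4
  have ht : ∀ t ∈ maximalIdeal R, ∀ i, t * (a * c i) ∈ I := by
    intro t ht i
    rw [← mul_assoc]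
    refine hk (t * a) ?_ i
    rw [pow_succ, mul_comm t a]
    exact Ideal.mul_mem_mul ha ht
  have ht1 : t1 ∈ maximalIdeal R := hm ▸ Ideal.subset_span (by simp)
  have ht2 : t2 ∈ maximalIdeal R := hm ▸ Ideal.subset_span (by simp)
  have hsoc := fun i => hSO R t1 t2 hR ht10 (n + 1) n F c1 c2 ψ hψ1 hψ2 (fun z hz => by
    obtain ⟨α, hα⟩ := hspan z hz
    refine ⟨α, fun j => ?_⟩
    rw [hα j]
    exact Finset.sum_congr rfl fun k _ => by rw [hc12 k j]) (a * c i) (ht t1 ht1 i) (ht t2 ht2 i)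
  choose α hα using hsoc
  have hIk : ∀ g ∈ I, ∀ x ∈ S.gr 0, g • x = 0 := by
    intro g hg x hx
    induction hg using Submodule.span_induction with
    | mem y hy =>
      obtain ⟨m, rfl⟩ := hy
      rw [hf m, mul_smul, hkill m x hx, smul_zero]
    | zero => rw [zero_smul]
    | add a b _ _ ha hb => rw [add_smul, ha, hb, add_zero]
    | smul c a _ ha => rw [smul_eq_mul, mul_smul, ha, smul_zero]
  set β : Fin n → S.W := fun k => ∑ i, α i k • z i with hβ
  have hβ0 : ∀ k, β k ∈ S.gr 0 := fun k =>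
    Submodule.sum_mem _ fun i _ => Submodule.smul_mem _ _ (hz i)
  have hβs : ∑ k, ψ k • β k = 0 := by
    have h5 : ∀ i, (a * c i - ∑ k, α i k * ψ k) • z i = 0 := fun i => hIk _ (hα i) _ (hz i)
    have h6 : ∑ i, (a * c i) • z i = 0 := by
      have : ∑ i, (a * c i) • z i = a • ∑ i, c i • z i := by
        rw [Finset.smul_sum]
        exact Finset.sum_congr rfl fun i _ => by rw [mul_smul]
      rw [this, hc, smul_zero]
    have h7 : ∑ k, ψ k • β k = ∑ i, (∑ k, α i k * ψ k) • z i := by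
      simp only [hβ, Finset.smul_sum, Finset.sum_smul]
      rw [Finset.sum_comm]
      refine Finset.sum_congr rfl fun i _ => Finset.sum_congr rfl fun k _ => ?_
      rw [← mul_smul, mul_comm]
    rw [h7]
    have h8 : ∑ i, (∑ k, α i k * ψ k) • z i = ∑ i, (a * c i) • z i := by
      refine Finset.sum_congr rfl fun i _ => ?_
      have := h5 i
      rw [sub_smul, sub_eq_zero] at this
      exact this.symm
    rw [h8, h6]
  have hcl2 := hCO hRO R t1 t2 n s p f1 f2 S g hR hn hes hg c1 c2 ψ hψ1 hψ2 β hβ0 hβs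
  have hαm : ∀ k0 i, α i k0 ∈ maximalIdeal R := by
    intro k0
    have h9 : AH t1 t2 (S.gr 0) (β k0) (F 0) := by
      rw [hf 0]
      refine AH.smul g0 (AH.span ?_ (hdet 0))
      rintro _ ⟨l, rfl⟩
      have h10 := hcl2 k0 l
      rw [hdd l] at h10
      exact h10
    exact hmin (fun i => α i k0) (hAHF 0 (β k0) (hβ0 k0) h9)
  apply hi0
  have hψI : ∀ k, ∀ t ∈ maximalIdeal R, t * ψ k ∈ I := by
    intro k t ht
    rw [hm, Ideal.mem_span_pair] at ht
    obtain ⟨a', b', rfl⟩ := ht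
    have h11 : t1 * ψ k ∈ I := by
      rw [← hψ2 k]
      exact Ideal.sum_mem _ fun j _ => Ideal.mul_mem_left _ _ (Ideal.subset_span ⟨j, rfl⟩)
    have h12 : t2 * ψ k ∈ I := by
      rw [← neg_neg (t2 * ψ k), ← hψ1 k]
      exact neg_mem (Ideal.sum_mem _ fun j _ => Ideal.mul_mem_left _ _ (Ideal.subset_span ⟨j, rfl⟩))
    have : (a' * t1 + b' * t2) * ψ k = a' * (t1 * ψ k) + b' * (t2 * ψ k) := by ring
    rw [this]
    exact Ideal.add_mem _ (Ideal.mul_mem_left _ _ h11) (Ideal.mul_mem_left _ _ h12)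
  have h13 : ∑ k, α i0 k * ψ k ∈ I := Ideal.sum_mem _ fun k _ => hψI k _ (hαm k i0)
  have h14 := Ideal.add_mem _ (hα i0) h13
  rw [sub_add_cancel] at h14
  exact h14

end Pool.Agent.Helper34.FB
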