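import Pool.Agent.Helper34.FB.Asm1

/-!
# Project FB: assembly, part 2 (small generalities)
-/

set_option autoImplicit false

namespace Pool.Agent.Helper34.FB

open IsLocalRing Pool.Agent.Helper26.DA

universe u v w x y

/-- minimal generators of a finite module over a local ring -/
theorem mingens {B : Type u} [CommRing B] [IsLocalRing B] (N : Type v) [AddCommGroup N] [Module B N]
    [Module.Finite B N] : ∃ (r : ℕ) (h : Fin r → N), Submodule.span B (Set.range h) = ⊤ ∧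
    ∀ c : Fin r → B, ∑ i, c i • h i ∈ maximalIdeal B • (⊤ : Submodule B N) →
      ∀ i, c i ∈ maximalIdeal B := by
  classical
  have hex : ∃ r : ℕ, ∃ h : Fin r → N, Submodule.span B (Set.range h) = ⊤ := by
    obtain ⟨n, s, hs⟩ := Module.Finite.exists_fin (R := B) (M := N)
    exact ⟨n, s, hs⟩
  obtain ⟨h, hh⟩ := Nat.find_spec hex
  refine ⟨Nat.find hex, h, hh, fun c hc i0 => ?_⟩
  by_contra hci
  have hpos : Nat.find hex ≠ 0 := fun h0 => by
    have := i0.2
    omega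
  obtain ⟨k, hk⟩ : ∃ k, Nat.find hex = k + 1 := ⟨Nat.find hex - 1, by omega⟩
  revert h c i0
  rw [hk]
  intro h hh c hc i0 hci
  have hu : IsUnit (c i0) := by
    by_contra hnu
    exact hci ((mem_maximalIdeal _).2 hnu)
  obtain ⟨u, hu⟩ := hu
  set P : Submodule B N := Submodule.span B (Set.range fun i => h (i0.succAbove i)) with hP
  have h1 : h i0 ∈ P ⊔ maximalIdeal B • (⊤ : Submodule B N) := by
    have h2 : (u : B) • h i0 = ∑ i, c i • h i - ∑ i, c (i0.succAbove i) • h (i0.succAbove i) := by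
      rw [Fin.sum_univ_succAbove _ i0, hu]; abel
    have h3 : (u : B) • h i0 ∈ P ⊔ maximalIdeal B • (⊤ : Submodule B N) := by
      rw [h2]
      refine Submodule.sub_mem _ (Submodule.mem_sup_right hc) (Submodule.mem_sup_left ?_)
      exact Submodule.sum_mem _ fun i _ => Submodule.smul_mem _ _ (Submodule.subset_span ⟨i, rfl⟩)
    have h4 := Submodule.smul_mem _ ((u⁻¹ : Bˣ) : B) h3
    rwa [← mul_smul, Units.inv_mul, one_smul] at h4
  have h5 : (⊤ : Submodule B N) ≤ P ⊔ maximalIdeal B • (⊤ : Submodule B N) := by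
    rw [← hh, Submodule.span_le]
    rintro _ ⟨i, rfl⟩
    by_cases hi : i = i0
    · rw [hi]; rw [hh]; exact h1
    · obtain ⟨j, rfl⟩ := Fin.exists_succAbove_eq hi
      exact Submodule.mem_sup_left (Submodule.subset_span ⟨j, rfl⟩)
  have h6 : (⊤ : Submodule B N) ≤ P := by
    refine Submodule.le_of_le_smul_of_le_jacobson_bot (Module.Finite.fg_top) ?_ h5
    rw [IsLocalRing.jacobson_eq_maximalIdeal _ bot_ne_top]
  have h7 := Nat.find_min hex (m := k) (by omega)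
  exact h7 ⟨fun i => h (i0.succAbove i), eq_top_iff.2 h6⟩

section HA
variable {A : Type u} {B : Type v} [CommRing A] [CommRing B] [Algebra A B] {p : ℕ}

theorem d_pr1 (H : HA.{u, v, w} A B p) {N : Type x} [AddCommGroup N] [Module A N] [Module B N]
    {π : H.M →ₗ[A] N} (h : IsH0 H π) (y : H.M) : π (H.d (H.pr 1 y)) = 0 := by
  have h1 : H.d (H.pr 1 y) = H.pr 0 (H.d y) := H.d_pr 0 y
  rw [h1, h.2.2.1]
  exact ⟨y, by rw [← h1]⟩

/-- transfer of `IsH0` along a homotopy equivalence -/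
theorem isH0_red (H H' : HA.{u, v, w} A B p) (ι : H'.M →ₗ[A] H.M) (ε : H.M →ₗ[A] H'.M)
    (h1 : ∀ z, ε (ι z) = z) (h2 : ∀ z, ι (H'.d z) = H.d (ι z)) (h3 : ∀ z, ε (H.d z) = H'.d (ε z))
    (h4 : ∀ i z, ι (H'.pr i z) = H.pr i (ι z)) (h5 : ∀ i z, ε (H.pr i z) = H'.pr i (ε z))
    (h6 : ∀ b z, H'.ρ b z = ε (H.ρ b (ι z))) (h7 : NullH H (LinearMap.id - ι ∘ₗ ε))
    {N : Type x} [AddCommGroup N] [Module A N] [Module B N] {π : H.M →ₗ[A] N} (h : IsH0 H π) :
    IsH0 H' (π ∘ₗ ι) := by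
  obtain ⟨η, hη, hη'⟩ := h7
  have key : ∀ u, π (ι (ε (H.pr 0 u))) = π (H.pr 0 u) := by
    intro u
    have h8 := hη' (H.pr 0 u)
    rw [H.d_zero, map_zero, add_zero, hη 0 u] at h8
    have h9 := congrArg π h8
    rw [d_pr1 H h, LinearMap.sub_apply, LinearMap.id_apply, map_sub, sub_eq_zero] at h9
    exact h9.symm
  refine ⟨?_, ?_, ?_, ?_⟩
  · intro b z
    show π (ι (H'.ρ b (H'.pr 0 z))) = b • π (ι (H'.pr 0 z))
    rw [h6, h4, H.ρ_pr, key, ← H.ρ_pr, h.1]
  · intro n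
    obtain ⟨z, hz⟩ := h.2.1 n
    refine ⟨ε z, ?_⟩
    show π (ι (H'.pr 0 (ε z))) = n
    rw [← h5, key, hz]
  · intro z
    show π (ι (H'.pr 0 z)) = 0 ↔ _
    rw [h4, h.2.2.1]
    constructor
    · rintro ⟨y, hy⟩
      refine ⟨ε y, ?_⟩
      have h8 := congrArg ε hy
      rw [h5, h1, h3, h5] at h8
      exact h8
    · rintro ⟨y, hy⟩
      refine ⟨ι y, ?_⟩
      rw [← h4, hy, h2, h4]
  · intro i z
    show π (ι (H'.pr (i + 1) z)) = 0
    rw [h4, h.2.2.2]

/-- transfer of `IsH0` along an isomorphism that does not respect `ρ`: only the complex part -/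
theorem h0_iso (H H' : HA.{u, v, w} A B p) (ι : H'.M ≃ₗ[A] H.M)
    (h2 : ∀ z, ι (H'.d z) = H.d (ι z)) (h4 : ∀ i z, ι (H'.pr i z) = H.pr i (ι z))
    {N : Type x} [AddCommGroup N] [Module A N] [Module B N] {π : H.M →ₗ[A] N} (h : IsH0 H π) (z : H'.M) :
    π (ι (H'.pr 0 z)) = 0 ↔ ∃ y, H'.pr 0 z = H'.d (H'.pr 1 y) := by
  rw [h4, h.2.2.1]
  constructor
  · rintro ⟨y, hy⟩
    refine ⟨ι.symm y, ι.injective ?_⟩
    rw [h4, hy, h2, h4, LinearEquiv.apply_symm_apply]
  · rintro ⟨y, hy⟩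
    exact ⟨ι y, by rw [← h4, hy, h2, h4]⟩

theorem min_iso [IsLocalRing A] (H H' : HA.{u, v, w} A B p) (ι : H'.M ≃ₗ[A] H.M)
    (h2 : ∀ z, ι (H'.d z) = H.d (ι z)) (hm : H.Min) : H'.Min := by
  intro z
  have h1 := hm (ι z)
  rw [← h2] at h1
  have h3 := Submodule.mem_map_of_mem (f := (ι.symm : H.M →ₗ[A] H'.M)) h1
  rw [Submodule.map_smul'', Submodule.map_top, LinearEquiv.range] at h3
  simpa using h3

/-- `N` is finite over `A` -/
theorem finN (H : HA.{u, v, w} A B p) {N : Type x} [AddCommGroup N] [Module A N] [Module B N]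
    {π : H.M →ₗ[A] N} (h : IsH0 H π) : Module.Finite A N :=
  Module.Finite.of_surjective (π ∘ₗ H.pr 0) fun n => h.2.1 n

end HA

/-- `m_A` maps into `m_B` -/
theorem loc_of {A : Type u} {B : Type v} [CommRing A] [IsLocalRing A] [CommRing B] [IsLocalRing B]
    [Algebra A B] (N : Type x) [AddCommGroup N] [Module A N] [Module B N] [IsScalarTower A B N]
    [Module.Finite A N] [Nontrivial N] (c : A) (hc : c ∈ maximalIdeal A) :
    algebraMap A B c ∈ maximalIdeal B := by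
  rw [mem_maximalIdeal, mem_nonunits_iff]
  intro hu
  obtain ⟨u, hu⟩ := hu
  have h1 : (⊤ : Submodule A N) ≤ maximalIdeal A • (⊤ : Submodule A N) := by
    intro n _
    have h2 : n = c • (((u⁻¹ : Bˣ) : B) • n) := by
      rw [← algebraMap_smul B c, ← hu, ← mul_smul, Units.mul_inv, one_smul]
    rw [h2]
    exact Submodule.smul_mem_smul hc trivial
  have h3 : (⊤ : Submodule A N) = ⊥ := by
    refine Submodule.eq_bot_of_le_smul_of_le_jacobson_bot (maximalIdeal A) _ Module.Finite.fg_top h1 ?_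
    rw [IsLocalRing.jacobson_eq_maximalIdeal _ bot_ne_top]
  obtain ⟨n, hn⟩ := exists_ne (0 : N)
  exact hn (by
    have : n ∈ (⊤ : Submodule A N) := trivial
    rw [h3] at this
    exact (Submodule.mem_bot A).1 this)

/-- HYP for every `Sys` -/
theorem hyp_all (hDE : G_DET.{u, v}) (hU : G_U.{u, v}) (hCM : G_CLAIM.{u, v}) (hRE : G_REG.{u})
    (hHB : G_HB2.{u}) {R : Type u} [CommRing R] [IsDomain R] [UniqueFactorizationMonoid R]
    [IsNoetherianRing R] [IsLocalRing R] {t1 t2 : R} (hm : maximalIdeal R = Ideal.span {t1, t2})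
    (hnp : ¬ (maximalIdeal R).IsPrincipal) {e s p : ℕ} {f1 f2 : Fin e ⊕ Fin s → R}
    (S : Sys.{u, v} R t1 t2 (Fin e ⊕ Fin s) f1 f2 p) (g : Fin s → Fin e → R) (hes : e + s = p + 2)
    (hg : ∀ a, t1 * f1 (Sum.inr a) + t2 * f2 (Sum.inr a) =
      ∑ j, g a j * (t1 * f1 (Sum.inl j) + t2 * f2 (Sum.inl j)))
    (hsyz : ∀ c : Fin e → R, ∑ j, c j * (t1 * f1 (Sum.inl j) + t2 * f2 (Sum.inl j)) = 0 →
      ∀ j, c j ∈ maximalIdeal R) : HYP S.toSys1 := by
  rcases Nat.lt_or_ge e 2 with he | he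
  · intro m i hi y hy
    have h1 := S.gr_top i (by omega) y hy
    subst h1
    exact ⟨0, Submodule.zero_mem _, by simp, by simp⟩
  obtain ⟨n, rfl⟩ : ∃ n, e = n + 1 := ⟨e - 1, by omega⟩
  have hn : 1 ≤ n := by omega
  have hR : REG t1 t2 := hRE R t1 t2 hm hnp
  obtain ⟨g0, f0, cc, hf, hcc, -, hdet, -⟩ := hHB R t1 t2 hm n
    (fun j => t1 * f1 (Sum.inl j) + t2 * f2 (Sum.inl j)) hn hsyz
  have hccm : ∀ k j, ∃ a b : R, cc k j = t1 * a + t2 * b := by
    intro k j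
    have h1 := hsyz (cc k) (hcc k) j
    rw [hm, Ideal.mem_span_pair] at h1
    obtain ⟨a, b, hab⟩ := h1
    exact ⟨a, b, by rw [← hab]; ring⟩
  choose c1 c2 hc12 using hccm
  refine hyp_of S hR g0 f0 hf _ hdet ?_
  rintro _ ⟨l, rfl⟩ i hi z hz
  have h1 := (hCM hDE hU R t1 t2 n s p f1 f2 S g hR hn hes hg c1 c2 (fun k => by
    rw [← hcc k]
    refine Finset.sum_congr rfl fun j _ => ?_
    rw [hc12 k j]) l).1 i hi z hz
  have hdd : (Matrix.of fun k b => t1 * c1 k (l b) + t2 * c2 k (l b)).det =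
      (Matrix.of fun k b => cc k (l b)).det := by
    congr 1
    ext k b
    simp only [Matrix.of_apply, hc12]
  rw [hdd] at h1
  exact h1

end Pool.Agent.Helper34.FB
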