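import Pool.Agent.Helper34.FB.Asm2

/-!
# Project FB: assembly, part 3 (from the closed fibre to `B`)
-/

set_option autoImplicit false

namespace Pool.Agent.Helper34.FB

open IsLocalRing Pool.Agent.Helper26.DA

universe u v w x y

theorem q_loc {R : Type u} {B : Type v} [CommRing R] [IsLocalRing R] [CommRing B] [IsLocalRing B]
    {I : Ideal B} (hI : I ≤ maximalIdeal B) (q : R →+* B ⧸ I) (hq : Function.Surjective q) {c : R} {x : B}
    (hcx : q c = Ideal.Quotient.mk I x) : c ∈ maximalIdeal R ↔ x ∈ maximalIdeal B := by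
  have h1B : (1 : B) ∉ maximalIdeal B := (Ideal.ne_top_iff_one _).1 (maximalIdeal.isMaximal B).ne_top
  have h1R : (1 : R) ∉ maximalIdeal R := (Ideal.ne_top_iff_one _).1 (maximalIdeal.isMaximal R).ne_top
  have hker : RingHom.ker q ≤ maximalIdeal R := by
    apply le_maximalIdeal
    intro h
    have h2 : (1 : R) ∈ RingHom.ker q := h ▸ trivial
    rw [RingHom.mem_ker, map_one] at h2
    have h3 : Ideal.Quotient.mk I (1 : B) = 0 := by rw [map_one, h2]
    exact h1B (hI (Ideal.Quotient.eq_zero_iff_mem.1 h3))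
  constructor
  · intro hc
    by_contra hx
    have hu : IsUnit x := by
      by_contra hnu
      exact hx ((mem_maximalIdeal _).2 hnu)
    obtain ⟨u, rfl⟩ := hu
    obtain ⟨d, hd⟩ := hq (Ideal.Quotient.mk I ((u⁻¹ : Bˣ) : B))
    have h2 : c * d - 1 ∈ RingHom.ker q := by
      rw [RingHom.mem_ker, map_sub, map_mul, hcx, hd, ← map_mul, Units.mul_inv, map_one, map_one, sub_self]
    have h3 := Ideal.sub_mem _ (Ideal.mul_mem_right d _ hc) (hker h2)
    rw [sub_sub_cancel] at h3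
    exact h1R h3
  · intro hx
    by_contra hc
    have hu : IsUnit c := by
      by_contra hnu
      exact hc ((mem_maximalIdeal _).2 hnu)
    obtain ⟨u, rfl⟩ := hu
    obtain ⟨y, hy⟩ := Ideal.Quotient.mk_surjective (q ((u⁻¹ : Rˣ) : R))
    have h2 : x * y - 1 ∈ I := by
      rw [← Ideal.Quotient.eq_zero_iff_mem, map_sub, map_mul, ← hcx, hy, ← map_mul, Units.mul_inv, map_one,
        map_one, sub_self]
    have h3 := Ideal.sub_mem _ (Ideal.mul_mem_right y _ hx) (hI h2)
    rw [sub_sub_cancel] at h3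
    exact h1B h3

theorem blk_le {A : Type u} {B : Type v} [CommRing A] [IsLocalRing A] [CommRing B]
    [Algebra A B] {s0 : ℕ} {b : Fin s0 → A} (hb : ∀ i, b i ∈ maximalIdeal A) :
    blk B b ≤ Ideal.map (algebraMap A B) (maximalIdeal A) := by
  rw [blk, Ideal.span_le]
  rintro _ ⟨i, rfl⟩
  exact Ideal.mem_map_of_mem _ (hb i)

/-- `m_A N` is the image of `m_A M` -/
theorem map_mtop {A : Type u} [CommRing A] {M : Type v} {N : Type w} [AddCommGroup M] [AddCommGroup N]
    [Module A M] [Module A N] (I : Ideal A) (f : M →ₗ[A] N) (hf : Function.Surjective f) (n : N)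
    (hn : n ∈ I • (⊤ : Submodule A N)) : ∃ m ∈ I • (⊤ : Submodule A M), f m = n := by
  have h1 : Submodule.map f (I • (⊤ : Submodule A M)) = I • (⊤ : Submodule A N) := by
    rw [Submodule.map_smul'', Submodule.map_top, LinearMap.range_eq_top.2 hf]
  rw [← h1] at hn
  exact hn

section
variable {A : Type u} {B : Type v} [CommRing A] [CommRing B] [Algebra A B] {p : ℕ}

theorem map_mtop' (I : Ideal A) {M : Type w} {N : Type x} [AddCommGroup M] [AddCommGroup N]
    [Module A M] [Module A N] (f : M →ₗ[A] N) {m : M} (hm : m ∈ I • (⊤ : Submodule A M)) :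
    f m ∈ I • (⊤ : Submodule A N) := by
  have h1 : Submodule.map f (I • (⊤ : Submodule A M)) ≤ I • (⊤ : Submodule A N) := by
    rw [Submodule.map_smul'']
    exact Submodule.smul_mono le_rfl le_top
  exact h1 ⟨m, hm, rfl⟩

/-- `m_A N ≤ m_B N` -/
theorem mA_le_mB [IsLocalRing A] [IsLocalRing B] (hloc : ∀ c ∈ maximalIdeal A, algebraMap A B c ∈ maximalIdeal B)
    {N : Type x} [AddCommGroup N] [Module A N] [Module B N] [IsScalarTower A B N] {n : N}
    (hn : n ∈ maximalIdeal A • (⊤ : Submodule A N)) : n ∈ maximalIdeal B • (⊤ : Submodule B N) := by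
  induction hn using Submodule.smul_induction_on' with
  | smul r hr n _ =>
    rw [← algebraMap_smul B r n]
    exact Submodule.smul_mem_smul (hloc r hr) trivial
  | add x _ y _ hx hy => exact Submodule.add_mem _ hx hy

/-- values of `π` determine classes in degree zero -/
theorem cls_pi [IsLocalRing A] (H : HA.{u, v, w} A B p) (hmin : H.Min) {N : Type x} [AddCommGroup N] [Module A N]
    [Module B N] (πN : H.M →ₗ[A] N) (hN : IsH0 H πN) (z : H.M)
    (hz : πN (H.pr 0 z) ∈ maximalIdeal A • (⊤ : Submodule A N)) :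
    H.pr 0 z ∈ maximalIdeal A • (⊤ : Submodule A H.M) := by
  obtain ⟨v, hv, hv'⟩ := map_mtop (maximalIdeal A) (πN ∘ₗ H.pr 0) (fun n => hN.2.1 n) _ hz
  have h1 : πN (H.pr 0 (z - v)) = 0 := by
    rw [map_sub, map_sub, sub_eq_zero]
    exact hv'.symm
  obtain ⟨y, hy⟩ := (hN.2.2.1 _).1 h1
  have h2 : H.pr 0 z = H.d (H.pr 1 y) + H.pr 0 v := by
    rw [← hy, map_sub, sub_add_cancel]
  rw [h2]
  exact Submodule.add_mem _ (hmin _) (map_mtop' _ _ hv)

end

/-- the closed fibre -/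
theorem closed (hHT : G_HTP.{u, v, w}) (hGV : G_GV.{u, w}) (hB1 : G_BUILD1.{u, v, w, y, v})
    (hB2 : G_BUILD2.{u, v, w, y}) (hCF : G_CF.{y, w})
    {A : Type u} [CommRing A] [IsLocalRing A] {B : Type v} [CommRing B] [IsLocalRing B] [Algebra A B]
    (hloc : ∀ c ∈ maximalIdeal A, algebraMap A B c ∈ maximalIdeal B)
    {p : ℕ} (H : HA.{u, v, w} A B p) (hmin : H.Min) {N : Type x} [AddCommGroup N] [Module A N] [Module B N]
    [IsScalarTower A B N] (πN : H.M →ₗ[A] N) (hN : IsH0 H πN)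
    {e0 : ℕ} {a : Fin e0 → A} (ha : MinGen a) {s0 : ℕ} {b : Fin s0 → A} (hb : ∀ i, b i ∈ maximalIdeal A)
    {e s : ℕ} (hes : e + s = p + 2) (emb : Fin e ⊕ Fin s → Fin e0) (hinj : Function.Injective emb)
    (hbc : ∀ i, ∃ c : Fin e0 → A, b i = ∑ l, c l * a l ∧ ∀ j, c (emb j) ∈ maximalIdeal A)
    {R : Type y} [CommRing R] [IsDomain R] [UniqueFactorizationMonoid R] [IsNoetherianRing R] [IsLocalRing R]
    {t1 t2 : R} (hm : maximalIdeal R = Ideal.span {t1, t2}) (hnp : ¬ (maximalIdeal R).IsPrincipal)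
    (q : R →+* B ⧸ blk B b) (hq : Function.Surjective q) (f1 f2 : Fin e ⊕ Fin s → R)
    (hf : ∀ j, q (t1 * f1 j + t2 * f2 j) = Ideal.Quotient.mk _ (algebraMap A B (a (emb j))))
    (g : Fin s → Fin e → R)
    (hg : ∀ a, t1 * f1 (Sum.inr a) + t2 * f2 (Sum.inr a) =
      ∑ j, g a j * (t1 * f1 (Sum.inl j) + t2 * f2 (Sum.inl j)))
    (hsyz : ∀ c : Fin e → R, ∑ j, c j * (t1 * f1 (Sum.inl j) + t2 * f2 (Sum.inl j)) = 0 →
      ∀ j, c j ∈ maximalIdeal R)
    {r : ℕ} (h : Fin r → N) (hspan : Submodule.span B (Set.range h) = ⊤)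
    (hind : ∀ c : Fin r → B, ∑ i, c i • h i ∈ maximalIdeal B • (⊤ : Submodule B N) →
      ∀ i, c i ∈ maximalIdeal B)
    (x : Fin r → B) (hx : ∑ i, x i • h i ∈ maximalIdeal A • (⊤ : Submodule A N)) :
    ∀ i, x i ∈ Ideal.map (algebraMap A B) (maximalIdeal A) := by
  classical
  have hIm : Ideal.map (algebraMap A B) (maximalIdeal A) ≤ maximalIdeal B :=
    Ideal.map_le_iff_le_comap.2 fun c hc => hloc c hc
  have hbm : blk B b ≤ maximalIdeal B := (blk_le hb).trans hIm
  have hql := fun {c : R} {x : B} (h : q c = Ideal.Quotient.mk (blk B b) x) => q_loc hbm q hq h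
  obtain ⟨S1, cls, hcls, -, -⟩ := hB1 hHT A B p H hmin e0 a ha s0 b hb (Fin e ⊕ Fin s) emb hinj hbc R q
    t1 t2 f1 f2 hf PUnit.{v + 1} 0 (fun _ _ => Subsingleton.elim _ _)
  obtain ⟨S, hS⟩ := hB2 hHT hGV A B p H hmin e0 a ha s0 b hb (Fin e ⊕ Fin s) emb hinj hbc R q
    t1 t2 f1 f2 hf S1 cls hcls
  subst hS
  choose z hz using fun i => hN.2.1 (h i)
  choose lif hlif using hq
  -- the class of a combination
  have hcomb : ∀ (c : Fin r → R) (x : Fin r → B), (∀ i, q (c i) = Ideal.Quotient.mk _ (x i)) →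
      ∑ i, c i • cls (H.pr 0 (z i)) = cls (H.pr 0 (∑ i, H.ρ (x i) (z i))) := by
    intro c x hcx
    rw [map_sum, map_sum]
    refine Finset.sum_congr rfl fun i _ => ?_
    rw [hcls.smul (c i) (x i) _ (hcx i), H.ρ_pr]
  have hpi : ∀ x : Fin r → B, πN (H.pr 0 (∑ i, H.ρ (x i) (z i))) = ∑ i, x i • h i := by
    intro x
    rw [map_sum, map_sum]
    refine Finset.sum_congr rfl fun i _ => ?_
    rw [← H.ρ_pr, hN.1, hz]
  have hzero : ∀ u : H.M, πN (H.pr 0 u) ∈ maximalIdeal A • (⊤ : Submodule A N) → cls (H.pr 0 u) = 0 :=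
    fun u hu => (hcls.ker _).2 (cls_pi H hmin πN hN u hu)
  have hlB : ∀ b' : B, ∃ c : R, q c = Ideal.Quotient.mk _ b' := fun b' => ⟨_, hlif _⟩
  choose up hup using hlB
  have key := hCF R t1 t2 hm hnp e s p f1 f2 S g hes hg hsyz r (fun i => cls (H.pr 0 (z i)))
    (fun i => (hcls.gr 0 _).2 ⟨_, rfl⟩) (by
      intro y hy
      obtain ⟨u, rfl⟩ := (hcls.gr 0 y).1 hy
      have h1 : πN (H.pr 0 u) ∈ Submodule.span B (Set.range h) := hspan ▸ trivial
      obtain ⟨x', hx'⟩ := (Submodule.mem_span_range_iff_exists_fun B).1 h1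
      refine ⟨fun i => up (x' i), ?_⟩
      rw [hcomb _ x' (fun i => hup _)]
      have h2 := hzero (u - ∑ i, H.ρ (x' i) (z i)) (by
        rw [map_sub, map_sub, hpi, ← hx', sub_self]
        exact Submodule.zero_mem _)
      rw [map_sub, map_sub, sub_eq_zero] at h2
      exact h2) (by
      rintro c ⟨a', ha', b', hb', hab⟩ i
      obtain ⟨u1, rfl⟩ := (hcls.gr 0 a').1 ha'
      obtain ⟨u2, rfl⟩ := (hcls.gr 0 b').1 hb'
      choose xx hxx using fun i => Ideal.Quotient.mk_surjective (q (c i))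
      obtain ⟨T1, hT1⟩ := Ideal.Quotient.mk_surjective (q t1)
      obtain ⟨T2, hT2⟩ := Ideal.Quotient.mk_surjective (q t2)
      have ht1 : t1 ∈ maximalIdeal R := hm ▸ Ideal.subset_span (by simp)
      have ht2 : t2 ∈ maximalIdeal R := hm ▸ Ideal.subset_span (by simp)
      rw [hcomb c xx (fun i => (hxx i).symm), hcls.smul t1 T1 _ hT1.symm, hcls.smul t2 T2 _ hT2.symm,
        ← sub_eq_zero, ← map_add, ← map_sub, hcls.ker] at hab
      have h2 := map_mtop' (maximalIdeal A) πN hab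
      rw [map_sub, map_add, hpi, hN.1, hN.1] at h2
      have h3 := mA_le_mB hloc h2
      have h4 : ∑ i, xx i • h i ∈ maximalIdeal B • (⊤ : Submodule B N) := by
        have h5 : ∑ i, xx i • h i = (∑ i, xx i • h i - (T1 • πN (H.pr 0 u1) + T2 • πN (H.pr 0 u2))) +
          (T1 • πN (H.pr 0 u1) + T2 • πN (H.pr 0 u2)) := by abel
        rw [h5]
        refine Submodule.add_mem _ h3 (Submodule.add_mem _ ?_ ?_)
        · exact Submodule.smul_mem_smul ((hql hT1.symm).1 ht1) trivial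
        · exact Submodule.smul_mem_smul ((hql hT2.symm).1 ht2) trivial
      exact (hql (hxx i).symm).2 (hind xx h4 i))
    (fun i => up (x i)) (by
      rw [hcomb _ x (fun i => hup _)]
      apply hzero
      rw [hpi]
      exact hx)
  intro i
  have h1 := key i
  have h2 : Ideal.span (Set.range fun j => t1 * f1 j + t2 * f2 j) ≤
      Ideal.comap q (Ideal.map (Ideal.Quotient.mk (blk B b)) (Ideal.map (algebraMap A B) (maximalIdeal A))) := by
    rw [Ideal.span_le]
    rintro _ ⟨j, rfl⟩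
    show q _ ∈ Ideal.map (Ideal.Quotient.mk (blk B b)) (Ideal.map (algebraMap A B) (maximalIdeal A))
    rw [hf]
    refine Ideal.mem_map_of_mem _ (Ideal.mem_map_of_mem _ ?_)
    rw [← ha.1]
    exact Ideal.subset_span ⟨_, rfl⟩
  have h3 := h2 h1
  rw [Ideal.mem_comap, hup] at h3
  rw [Ideal.mem_map_iff_of_surjective _ Ideal.Quotient.mk_surjective] at h3
  obtain ⟨x', hx', hxx'⟩ := h3
  have h4 : x i - x' ∈ blk B b := by
    rw [← Ideal.Quotient.eq_zero_iff_mem, map_sub, hxx', sub_self]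
  have h5 := Ideal.add_mem _ (blk_le hb h4) hx'
  rwa [sub_add_cancel] at h5

end Pool.Agent.Helper34.FB
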