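import Pool.Agent.Helper34.FB.Asm3

/-!
# Project FB: assembly, part 4 (`G_FREEFIN`)
-/

set_option autoImplicit false

namespace Pool.Agent.Helper34.FB

open IsLocalRing Pool.Agent.Helper26.DA

universe u v w x y

/-- the last step, after `ADJ` -/
theorem last (hHT : G_HTP.{u, v, w}) (hGV : G_GV.{u, w}) (hB1 : G_BUILD1.{u, v, w, y, v})
    (hB2 : G_BUILD2.{u, v, w, y}) (hCL : G_CLIMB.{y, w, v}) (hDE : G_DET.{y, w}) (hU : G_U.{y, w})
    (hCM : G_CLAIM.{y, w}) (hRE : G_REG.{y}) (hHB : G_HB2.{y})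
    {A : Type u} [CommRing A] [IsLocalRing A] {B : Type v} [CommRing B] [IsLocalRing B] [IsNoetherianRing B]
    [Algebra A B]
    (hloc : ∀ c ∈ maximalIdeal A, algebraMap A B c ∈ maximalIdeal B)
    {p : ℕ} (H : HA.{u, v, w} A B p) (hmin : H.Min)
    {e0 : ℕ} {a : Fin e0 → A} (ha : MinGen a) {s0 : ℕ} {b : Fin s0 → A} (hb : ∀ i, b i ∈ maximalIdeal A)
    {e s : ℕ} (hes : e + s = p + 2) (emb : Fin e ⊕ Fin s → Fin e0) (hinj : Function.Injective emb)
    (hbc : ∀ i, ∃ c : Fin e0 → A, b i = ∑ l, c l * a l ∧ ∀ j, c (emb j) ∈ maximalIdeal A)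
    {R : Type y} [CommRing R] [IsDomain R] [UniqueFactorizationMonoid R] [IsNoetherianRing R] [IsLocalRing R]
    {t1 t2 : R} (hm : maximalIdeal R = Ideal.span {t1, t2}) (hnp : ¬ (maximalIdeal R).IsPrincipal)
    (q : R →+* B ⧸ blk B b) (hq : Function.Surjective q) (f1 f2 : Fin e ⊕ Fin s → R)
    (hf : ∀ j, q (t1 * f1 j + t2 * f2 j) = Ideal.Quotient.mk _ (algebraMap A B (a (emb j))))
    (g : Fin s → Fin e → R)
    (hg : ∀ a, t1 * f1 (Sum.inr a) + t2 * f2 (Sum.inr a) =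
      ∑ j, g a j * (t1 * f1 (Sum.inl j) + t2 * f2 (Sum.inl j)))
    (hsyz : ∀ c : Fin e → R, ∑ j, c j * (t1 * f1 (Sum.inl j) + t2 * f2 (Sum.inl j)) = 0 →
      ∀ j, c j ∈ maximalIdeal R)
    {r : ℕ} (K : Submodule B (Fin r → B)) (π : H.M →ₗ[A] (Fin r → B))
    (hπ : ∀ b z, π (H.ρ b (H.pr 0 z)) = b • π (H.pr 0 z))
    (hK1 : ∀ z, π (H.d (H.pr 1 z)) ∈ K) (hK2 : ∀ x ∈ K, ∃ z, x = π (H.d (H.pr 1 z))) : K = ⊥ := by
  classical
  have hIm : Ideal.map (algebraMap A B) (maximalIdeal A) ≤ maximalIdeal B :=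
    Ideal.map_le_iff_le_comap.2 fun c hc => hloc c hc
  have hbm : blk B b ≤ maximalIdeal B := (blk_le hb).trans hIm
  have hql := fun {c : R} {x : B} (h : q c = Ideal.Quotient.mk (blk B b) x) => q_loc hbm q hq h
  obtain ⟨S1, cls, hcls, -, hT⟩ := hB1 hHT A B p H hmin e0 a ha s0 b hb (Fin e ⊕ Fin s) emb hinj hbc R q
    t1 t2 f1 f2 hf (Fin r → B) π hπ
  obtain ⟨S, hS⟩ := hB2 hHT hGV A B p H hmin e0 a ha s0 b hb (Fin e ⊕ Fin s) emb hinj hbc R q
    t1 t2 f1 f2 hf S1 cls hcls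
  subst hS
  have hH : HYP S.toSys1 := hyp_all hDE hU hCM hRE hHB hm hnp S g hes hg hsyz
  -- the target
  let X : Type v := K ⧸ (maximalIdeal B • (⊤ : Submodule B K))
  let φ : R →+* B ⧸ maximalIdeal B := (Ideal.Quotient.factor hbm).comp q
  letI : Module R X := Module.compHom X φ
  have hφ : ∀ (c : R) (b' : B) (k : K), q c = Ideal.Quotient.mk _ b' →
      (c • (Submodule.Quotient.mk k : X) : X) = Submodule.Quotient.mk (b' • k) := by
    intro c b' k hc
    show φ c • (Submodule.Quotient.mk k : X) = _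
    have h1 : φ c = Ideal.Quotient.mk (maximalIdeal B) b' := by
      show Ideal.Quotient.factor hbm (q c) = _
      rw [hc, Ideal.Quotient.factor_mk]
    rw [h1]
    rfl
  -- lambda
  let lam : H.M →ₗ[A] K :=
    { toFun := fun z => ⟨π (H.d (H.pr 1 z)), hK1 z⟩
      map_add' := fun z z' => by ext1; simp
      map_smul' := fun c z => by ext1; simp }
  have hlam : ∀ z, ((lam z : K) : Fin r → B) = π (H.d (H.pr 1 z)) := fun z => rfl
  have hlam0 : ∀ z, cls z = 0 → (Submodule.Quotient.mk (lam z) : X) = 0 := by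
    intro z hz
    rw [hcls.ker] at hz
    rw [Submodule.Quotient.mk_eq_zero]
    exact mA_le_mB hloc (map_mtop' _ lam hz)
  have hlamρ : ∀ b' z, lam (H.ρ b' z) = b' • lam z := by
    intro b' z
    ext1
    rw [hlam, Submodule.coe_smul, hlam]
    have h1 : ∀ z, H.d (H.pr 1 z) = H.pr 0 (H.d z) := fun z => H.d_pr 0 z
    rw [h1, H.ρ_d, ← H.ρ_pr, hπ, ← h1]
  choose sec hsec using hcls.surj
  have hwd : ∀ z z', cls z = cls z' → (Submodule.Quotient.mk (lam z) : X) = Submodule.Quotient.mk (lam z') := by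
    intro z z' h
    rw [← sub_eq_zero, ← Submodule.Quotient.mk_sub, ← map_sub]
    exact hlam0 _ (by rw [map_sub, h, sub_self])
  let τ : S.W →ₗ[R] X :=
    { toFun := fun y => Submodule.Quotient.mk (lam (sec y))
      map_add' := fun y y' => by
        rw [← Submodule.Quotient.mk_add, ← map_add]
        exact hwd _ _ (by rw [map_add, hsec, hsec, hsec])
      map_smul' := fun c y => by
        obtain ⟨b', hb'⟩ := Ideal.Quotient.mk_surjective (q c)
        rw [RingHom.id_apply, hφ c b' _ hb'.symm, ← hlamρ]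
        refine hwd _ _ ?_
        rw [hsec, ← hcls.smul c b' _ hb'.symm, hsec] }
  have hτ : ∀ z, τ (cls z) = Submodule.Quotient.mk (lam z) := fun z => hwd _ _ (hsec _)
  have hmt : ∀ c ∈ maximalIdeal R, ∀ y, τ (c • y) = 0 := by
    intro c hc y
    rw [map_smul]
    obtain ⟨b', hb'⟩ := Ideal.Quotient.mk_surjective (q c)
    obtain ⟨k, hk⟩ := Submodule.Quotient.mk_surjective _ (τ y)
    rw [← hk, hφ c b' _ hb'.symm, Submodule.Quotient.mk_eq_zero]
    exact Submodule.smul_mem_smul ((hql hb'.symm).1 hc) trivial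
  have hgr0 : ∀ y ∈ S.gr 0, τ y = 0 := by
    intro y hy
    obtain ⟨z, rfl⟩ := (hcls.gr 0 y).1 hy
    rw [hτ]
    have : lam (H.pr 0 z) = 0 := by
      ext1
      rw [hlam, H.pr_ne 1 0 one_ne_zero, map_zero, map_zero]
      rfl
    rw [this]
    rfl
  have hτT : ∀ y ∈ S.T, τ y = 0 := by
    intro y hy
    obtain ⟨z, rfl, -, hz⟩ := hT y hy
    rw [hτ]
    have : lam z = 0 := by
      ext1
      rw [hlam, hz]
      rfl
    rw [this]
    rfl
  have hgr1 : ∀ y ∈ S.gr 1, τ y = 0 := by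
    intro y hy
    refine hCL R t1 t2 e s p f1 f2 S.toSys1 X τ g hes hg hH
      (hmt t1 (hm ▸ Ideal.subset_span (by simp))) (hmt t2 (hm ▸ Ideal.subset_span (by simp))) hτT 1 le_rfl y hy
      ?_ []
    intro L a' ha'
    match L, ha' with
    | [c], _ =>
      show τ (S.D c y) = 0
      exact hgr0 _ (S.D_gr c 0 y hy)
    | (c :: c' :: L'), _ =>
      rw [(Dw_gr S.toSys1 (c :: c' :: L') 1 y hy).2 (by simp), map_zero]
  have htop : (⊤ : Submodule B K) ≤ maximalIdeal B • (⊤ : Submodule B K) := by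
    intro k _
    obtain ⟨z, hz⟩ := hK2 k k.2
    have h1 : k = lam (H.pr 1 z) := by
      ext1
      rw [hlam, H.pr_pr, hz]
    have h2 := hgr1 (cls (H.pr 1 z)) ((hcls.gr 1 _).2 ⟨z, rfl⟩)
    rw [hτ, ← h1, Submodule.Quotient.mk_eq_zero] at h2
    exact h2
  have hbot : (⊤ : Submodule B K) = ⊥ := by
    refine Submodule.eq_bot_of_le_smul_of_le_jacobson_bot (maximalIdeal B) _ Module.Finite.fg_top htop ?_
    rw [IsLocalRing.jacobson_eq_maximalIdeal _ bot_ne_top]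
  rw [eq_bot_iff]
  intro k hk
  have h1 : (⟨k, hk⟩ : K) ∈ (⊤ : Submodule B K) := trivial
  rw [hbot, Submodule.mem_bot] at h1
  exact congrArg Subtype.val h1

/-- `G_FREEFIN` for minimal `H` -/
theorem freefin_min (hHT : G_HTP.{u, v, w}) (hGV : G_GV.{u, w}) (hB1 : G_BUILD1.{u, v, w, y, v})
    (hB2 : G_BUILD2.{u, v, w, y}) (hCF : G_CF.{y, w}) (hCL : G_CLIMB.{y, w, v}) (hDE : G_DET.{y, w})
    (hU : G_U.{y, w}) (hCM : G_CLAIM.{y, w}) (hRE : G_REG.{y}) (hHB : G_HB2.{y}) (hGE : G_GEN.{u})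
    (hSE : G_SEL.{y}) (hAD : G_ADJ.{u, v, w, x})
    (A : Type u) [CommRing A] [IsLocalRing A] [IsNoetherianRing A] (B : Type v) [CommRing B]
    [IsLocalRing B] [Algebra A B] [Module.Finite A B] (p : ℕ) (H : HA.{u, v, w} A B p) (hmin : H.Min)
    (N : Type x) [AddCommGroup N]
    [Module A N] [Module B N] [IsScalarTower A B N] [Nontrivial N] (πN : H.M →ₗ[A] N) (hN : IsH0 H πN)
    (s0 : ℕ) (b : Fin s0 → A) (hb : ∀ i, b i ∈ maximalIdeal A)
    (hdim : p + 2 + s0 ≤ Module.finrank (ResidueField A) (CotangentSpace A))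
    (R : Type y) [CommRing R] [IsDomain R] [UniqueFactorizationMonoid R] [IsNoetherianRing R] [IsLocalRing R]
    (t1 t2 : R) (hm : maximalIdeal R = Ideal.span {t1, t2}) (hnp : ¬ (maximalIdeal R).IsPrincipal)
    (q : R →+* B ⧸ blk B b) (hq : Function.Surjective q) : Module.Free B N := by
  classical
  haveI hfN : Module.Finite A N := finN H hN
  haveI : Module.Finite B N := Module.Finite.of_restrictScalars_finite A B N
  haveI : IsNoetherianRing B := IsNoetherianRing.of_finite A B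
  have hloc : ∀ c ∈ maximalIdeal A, algebraMap A B c ∈ maximalIdeal B := fun c hc => loc_of N c hc
  have hIm : Ideal.map (algebraMap A B) (maximalIdeal A) ≤ maximalIdeal B :=
    Ideal.map_le_iff_le_comap.2 fun c hc => hloc c hc
  have hbm : blk B b ≤ maximalIdeal B := (blk_le hb).trans hIm
  obtain ⟨e0, a, emb0, ha, hinj0, hbc0⟩ := hGE A s0 (p + 2) b hb hdim
  have hfex : ∀ j : Fin (p + 2), ∃ f : R, q f = Ideal.Quotient.mk _ (algebraMap A B (a (emb0 j))) :=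
    fun j => hq _
  choose f hf using hfex
  obtain ⟨e, s, σ, g, hsyz, hg⟩ := hSE R (p + 2) f
  have hes : e + s = p + 2 := by
    have h1 := Fintype.card_congr σ
    simpa using h1.symm
  have hfm : ∀ j, f j ∈ maximalIdeal R := fun j => (q_loc hbm q hq (hf j)).2 (hloc _ (by
    rw [← ha.1]; exact Ideal.subset_span ⟨_, rfl⟩))
  have hdec : ∀ j : Fin e ⊕ Fin s, ∃ f1 f2 : R, f (σ.symm j) = t1 * f1 + t2 * f2 := by
    intro j
    have h1 := hfm (σ.symm j)
    rw [hm, Ideal.mem_span_pair] at h1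
    obtain ⟨c, d, hcd⟩ := h1
    exact ⟨c, d, by rw [← hcd]; ring⟩
  choose f1 f2 hf12 using hdec
  have hf' : ∀ j, q (t1 * f1 j + t2 * f2 j) =
      Ideal.Quotient.mk _ (algebraMap A B (a ((emb0 ∘ σ.symm) j))) := fun j => by
    rw [← hf12, hf]; rfl
  have hg' : ∀ a, t1 * f1 (Sum.inr a) + t2 * f2 (Sum.inr a) =
      ∑ j, g a j * (t1 * f1 (Sum.inl j) + t2 * f2 (Sum.inl j)) := by
    intro a
    rw [← hf12, hg]
    exact Finset.sum_congr rfl fun j _ => by rw [← hf12]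
  have hsyz' : ∀ c : Fin e → R, ∑ j, c j * (t1 * f1 (Sum.inl j) + t2 * f2 (Sum.inl j)) = 0 →
      ∀ j, c j ∈ maximalIdeal R := by
    intro c hc
    refine hsyz c ?_
    rw [← hc]
    exact Finset.sum_congr rfl fun j _ => by rw [← hf12]
  have hinj : Function.Injective (emb0 ∘ σ.symm) := hinj0.comp σ.symm.injective
  have hbc : ∀ i, ∃ c : Fin e0 → A, b i = ∑ l, c l * a l ∧ ∀ j, c ((emb0 ∘ σ.symm) j) ∈ maximalIdeal A := by
    intro i
    obtain ⟨c, h1, h2⟩ := hbc0 i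
    exact ⟨c, h1, fun j => h2 _⟩
  obtain ⟨r, h, hspan, hind⟩ := mingens (B := B) N
  let β : (Fin r → B) →ₗ[B] N := Fintype.linearCombination B h
  have hβ : ∀ x, β x = ∑ i, x i • h i := fun x => rfl
  have hβs : Function.Surjective β := by
    intro n
    have h1 : n ∈ Submodule.span B (Set.range h) := hspan ▸ trivial
    obtain ⟨x', hx'⟩ := (Submodule.mem_span_range_iff_exists_fun B).1 h1
    exact ⟨x', hx'⟩
  obtain ⟨H', ι, π, h1, h2, h3, h4, h5⟩ := hAD A B p H N πN hN r β hβs (fun x hx => by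
    rw [hβ] at hx
    exact closed hHT hGV hB1 hB2 hCF hloc H hmin πN hN ha hb hes (emb0 ∘ σ.symm) hinj hbc hm hnp q hq f1 f2 hf' g
      hg' hsyz' h hspan hind x hx)
  have hmin' : H'.Min := min_iso H H' ι h1 hmin
  have hd1 : ∀ z, H'.d (H'.pr 1 z) = H'.pr 0 (H'.d z) := fun z => H'.d_pr 0 z
  have hKer : LinearMap.ker β = ⊥ := by
    refine last hHT hGV hB1 hB2 hCL hDE hU hCM hRE hHB hloc H' hmin' ha hb hes (emb0 ∘ σ.symm) hinj hbc hm hnp q
      hq f1 f2 hf' g hg' hsyz' (LinearMap.ker β) π h3 ?_ ?_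
    · intro z
      rw [LinearMap.mem_ker, hd1, h5, h2, h1]
      have h6 : H.pr 0 (H.d (ι z)) = H.d (H.pr 1 (ι z)) := (H.d_pr 0 _).symm
      rw [h6]
      exact d_pr1 H hN _
    · intro x hx
      obtain ⟨z, hz⟩ := h4 x
      rw [LinearMap.mem_ker, ← hz, h5] at hx
      obtain ⟨y, hy⟩ := (h0_iso H H' ι h1 h2 hN z).1 hx
      exact ⟨y, by rw [← hz, hy]⟩
  exact Module.Free.of_equiv (LinearEquiv.ofBijective β ⟨LinearMap.ker_eq_bot.1 hKer, hβs⟩)

/-- `G_FREEFIN` -/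
theorem freefin (hHT : G_HTP.{u, v, w}) (hGV : G_GV.{u, w}) (hB1 : G_BUILD1.{u, v, w, y, v})
    (hB2 : G_BUILD2.{u, v, w, y}) (hCF : G_CF.{y, w}) (hCL : G_CLIMB.{y, w, v}) (hDE : G_DET.{y, w})
    (hU : G_U.{y, w}) (hCM : G_CLAIM.{y, w}) (hRE : G_REG.{y}) (hHB : G_HB2.{y}) (hGE : G_GEN.{u})
    (hSE : G_SEL.{y}) (hAD : G_ADJ.{u, v, w, x}) (hMR : G_MINRED.{u, v, w}) : G_FREEFIN.{u, v, w, x, y} := by
  intro A _ _ _ B _ _ _ _ p H N _ _ _ _ _ πN hN s0 b hb hdim R _ _ _ _ _ t1 t2 hm hnp q hq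
  obtain ⟨H', ι, ε, h1, h2, h3, h4, h5, h6, h7, h8⟩ := hMR A B p H
  exact freefin_min hHT hGV hB1 hB2 hCF hCL hDE hU hCM hRE hHB hGE hSE hAD A B p H' h1 N (πN ∘ₗ ι)
    (isH0_red H H' ι ε h2 h3 h4 h5 h6 h7 h8 hN) s0 b hb hdim R t1 t2 hm hnp q hq

end Pool.Agent.Helper34.FB
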