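import Pool.Agent.Helper34.FB.All

/-!
# Project FB, addition: `edim A = p + 2 + s0` (no strict inequality)
-/

set_option autoImplicit false

namespace Pool.Agent.Helper34.FB

open IsLocalRing Pool.Agent.Helper26.DA

universe u v w x y

/-- minors of syzygies kill everything -/
theorem minors {R : Type u} [CommRing R] {t1 t2 : R} {e s p : ℕ} {f1 f2 : Fin e ⊕ Fin s → R}
    (S : Sys1.{u, v} R t1 t2 (Fin e ⊕ Fin s) f1 f2 p) (g : Fin s → Fin e → R)
    (hg : ∀ a, t1 * f1 (Sum.inr a) + t2 * f2 (Sum.inr a) =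
      ∑ j, g a j * (t1 * f1 (Sum.inl j) + t2 * f2 (Sum.inl j)))
    (k m : ℕ) (hk : k + s = m + 1) (hgr : ∀ i, m + 1 ≤ i → ∀ w ∈ S.gr i, w = 0)
    (c : Fin k → Fin e → R)
    (hc : ∀ i, ∑ j, c i j * (t1 * f1 (Sum.inl j) + t2 * f2 (Sum.inl j)) = 0) (l : Fin k → Fin e)
    (i : ℕ) (z : S.W) (hz : z ∈ S.gr i) :
    (Matrix.of fun a b => c a (l b)).det • z = 0 := by
  classical
  set E : Fin k ⊕ Fin s ≃ Fin (m + 1) := finSumFinEquiv.trans (finCongr hk) with hE
  set rows : Fin (m + 1) → Fin e ⊕ Fin s → R := fun j =>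
    Sum.elim (fun (i : Fin k) => (Sum.elim (c i) (fun _ => 0) : Fin e ⊕ Fin s → R))
      (fun a => Sum.elim (fun j => -g a j) (fun b => if a = b then 1 else 0)) (E.symm j) with hrows
  have hsyz : ∀ j, ∑ l, rows j l * (t1 * f1 l + t2 * f2 l) = 0 := by
    intro j
    obtain ⟨x, rfl⟩ := E.surjective j
    simp only [hrows, Equiv.symm_apply_apply]
    rcases x with i | a
    · rw [Fintype.sum_sum_type]
      simp only [Sum.elim_inl, Sum.elim_inr, zero_mul, Finset.sum_const_zero, add_zero]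
      exact hc i
    · rw [Fintype.sum_sum_type]
      simp only [Sum.elim_inl, Sum.elim_inr, ite_mul, one_mul, zero_mul, neg_mul,
        Finset.sum_neg_distrib, Finset.sum_ite_eq, Finset.mem_univ, if_true]
      rw [hg a]
      abel
  choose LL hLgr _ hLD using fun j => S.kop (rows j) (hsyz j)
  set l' : Fin (m + 1) → Fin e ⊕ Fin s := fun b =>
    Sum.elim (fun b => Sum.inl (l b)) (fun a => Sum.inr a) (E.symm b) with hl'
  have hword : ∀ L : List (Fin e ⊕ Fin s), LL 0 (hp m (fun i => LL i.succ)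
      (L.foldr (fun j y => S.D j y) z)) = 0 := by
    intro L
    have h1 : ∀ L : List (Fin e ⊕ Fin s), ∃ i', L.foldr (fun j y => S.D j y) z ∈ S.gr i' := by
      intro L
      induction L with
      | nil => exact ⟨i, hz⟩
      | cons j L ih =>
        obtain ⟨i', hi'⟩ := ih
        rw [List.foldr_cons]
        match i', hi' with
        | 0, hi' => exact ⟨0, by rw [S.D_zero j _ hi']; exact Submodule.zero_mem _⟩
        | (i' + 1), hi' => exact ⟨i', S.D_gr j i' _ hi'⟩
    obtain ⟨i', hi'⟩ := h1 L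
    have h2 := Helper61.FB.hp_deg S.gr m (fun i => LL i.succ) (fun k => hLgr k.succ) i' _ hi'
    exact hgr _ (by omega) _ (hLgr 0 _ _ h2)
  have h2 := Helper16.FB.gDET R S.W S.W (Fin e ⊕ Fin s) S.D (fun j => (S.D j).toAddMonoidHom)
    (AddMonoidHom.fst S.W S.W) (LL 0) (rows 0) (rows 0) m (fun i => LL i.succ) (fun i => rows i.succ)
    (fun j u v => rfl) (fun j y => hLD 0 j y) (fun i j y => hLD i.succ j y) z hword l'
  have h3 : (Fin.cons (rows 0) (fun i => rows i.succ) : Fin (m + 1) → Fin e ⊕ Fin s → R) = rows :=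
    Fin.cons_self_tail rows
  rw [h3] at h2
  have h4 : (Matrix.of fun k b => rows k (l' b)).det • z = 0 := h2
  rw [Helper61.FB.det_blk E rows l' l] at h4
  · have h5 : (Matrix.of fun k b => rows (E (Sum.inl k)) (Sum.inl (l b))) = Matrix.of fun a b => c a (l b) := by
      ext k b
      simp [hrows]
    rw [h5] at h4
    exact h4
  · intro b; simp [hl']
  · intro a; simp [hl']
  · intro k a; simp [hrows]
  · intro a b; simp [hrows]

/-- `AH` for minors of one size more -/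
theorem ah_minors {R : Type u} [CommRing R] {t1 t2 : R} {W : Type v} [AddCommGroup W] [Module R W]
    (U : Submodule R W) (z : W) (n e : ℕ) (c1 c2 : Fin (n + 1) → Fin e → R)
    (h : ∀ l : Fin n → Fin e, (Matrix.of fun a b => t1 * c1 (Fin.succ a) (l b) +
      t2 * c2 (Fin.succ a) (l b)).det • z = 0) (l : Fin (n + 1) → Fin e) :
    AH t1 t2 U z (Matrix.of fun a b => t1 * c1 a (l b) + t2 * c2 a (l b)).det := by
  set M : Fin (n + 1) → R := fun b => (-1) ^ (b : ℕ) * (Matrix.of fun a b' => t1 * c1 (Fin.succ a) (l (b.succAbove b')) +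
      t2 * c2 (Fin.succ a) (l (b.succAbove b'))).det with hM
  have hMz : ∀ b, M b • z = 0 := fun b => by rw [hM, mul_smul, h, smul_zero]
  refine ⟨∑ b, c1 0 (l b) * M b, ∑ b, c2 0 (l b) * M b, 0, Submodule.zero_mem _, ?_, ?_, ?_⟩
  · rw [Matrix.det_succ_row_zero, Finset.mul_sum, Finset.mul_sum, ← Finset.sum_add_distrib]
    refine Finset.sum_congr rfl fun b _ => ?_
    have h1 : (Matrix.submatrix (Matrix.of fun a b => t1 * c1 a (l b) + t2 * c2 a (l b)) Fin.succ b.succAbove) =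
      Matrix.of fun a b' => t1 * c1 (Fin.succ a) (l (b.succAbove b')) +
      t2 * c2 (Fin.succ a) (l (b.succAbove b')) := rfl
    rw [h1, hM, Matrix.of_apply]
    ring
  · rw [Finset.sum_smul, smul_zero, neg_zero]
    exact Finset.sum_eq_zero fun b _ => by rw [mul_smul, hMz, smul_zero]
  · rw [Finset.sum_smul, smul_zero]
    exact Finset.sum_eq_zero fun b _ => by rw [mul_smul, hMz, smul_zero]

/-- if the length is smaller than allowed then `W_0 = m W_0` -/
theorem strict0 {R : Type u} [CommRing R] [IsDomain R] [UniqueFactorizationMonoid R] [IsNoetherianRing R]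
    [IsLocalRing R] {t1 t2 : R} (hm : maximalIdeal R = Ideal.span {t1, t2})
    (hnp : ¬ (maximalIdeal R).IsPrincipal) {e s p : ℕ} {f1 f2 : Fin e ⊕ Fin s → R}
    (S : Sys1.{u, v} R t1 t2 (Fin e ⊕ Fin s) f1 f2 (p + 1)) (g : Fin s → Fin e → R) (hes : e + s = p + 1 + 2)
    (hg : ∀ a, t1 * f1 (Sum.inr a) + t2 * f2 (Sum.inr a) =
      ∑ j, g a j * (t1 * f1 (Sum.inl j) + t2 * f2 (Sum.inl j)))
    (hsyz : ∀ c : Fin e → R, ∑ j, c j * (t1 * f1 (Sum.inl j) + t2 * f2 (Sum.inl j)) = 0 →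
      ∀ j, c j ∈ maximalIdeal R) (htop : ∀ w ∈ S.gr (p + 1), w = 0) (x : S.W) (hx : x ∈ S.gr 0) :
    ∃ a ∈ S.gr 0, ∃ b ∈ S.gr 0, x = t1 • a + t2 • b := by
  rcases Nat.lt_or_ge e 2 with he | he
  · have h0 := gTRIV R t1 t2 e s (p + 1) f1 f2 S g (by omega) hg x hx
    exact ⟨0, Submodule.zero_mem _, 0, Submodule.zero_mem _, by simp [h0]⟩
  obtain ⟨n, rfl⟩ : ∃ n, e = n + 1 + 1 := ⟨e - 2, by omega⟩
  have hR : REG t1 t2 := Helper26.FB.gREG R t1 t2 hm hnp
  obtain ⟨g0, f0, cc, hf, hcc, -, hdet, -⟩ := Helper3.FB.gHB2 R t1 t2 hm (n + 1)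
    (fun j => t1 * f1 (Sum.inl j) + t2 * f2 (Sum.inl j)) (by omega) hsyz
  have hccm : ∀ k j, ∃ a b : R, cc k j = t1 * a + t2 * b := by
    intro k j
    have h1 := hsyz (cc k) (hcc k) j
    rw [hm, Ideal.mem_span_pair] at h1
    obtain ⟨a, b, hab⟩ := h1
    exact ⟨a, b, by rw [← hab]; ring⟩
  choose c1 c2 hc12 using hccm
  have hgr : ∀ i, p + 1 ≤ i → ∀ w ∈ S.gr i, w = 0 := by
    intro i hi w hw
    rcases Nat.lt_or_ge (p + 1) i with h | h
    · exact S.gr_top i h w hw
    · obtain rfl : i = p + 1 := by omega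
      exact htop w hw
  have key : ∀ (m : Fin (n + 1 + 1)) (i : ℕ) (z : S.W), z ∈ S.gr i →
      AH t1 t2 (S.gr i) z (t1 * f1 (Sum.inl m) + t2 * f2 (Sum.inl m)) := by
    intro m i z hz
    rw [hf m]
    refine (AH.span (X := Set.range fun l : Fin (n + 1) → Fin (n + 1 + 1) => (Matrix.of fun k b => cc k (l b)).det)
      ?_ (hdet m)).smul g0
    rintro _ ⟨l, rfl⟩
    have h1 := ah_minors (t1 := t1) (t2 := t2) (S.gr i) z n (n + 1 + 1) c1 c2 (fun l => by
      have h2 := minors S g hg n p (by omega) hgr (fun a => cc a.succ) (fun a => hcc _) l i z hz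
      have h3 : (Matrix.of fun a b => t1 * c1 (Fin.succ a) (l b) + t2 * c2 (Fin.succ a) (l b)) =
          Matrix.of fun a b => cc (Fin.succ a) (l b) := by
        ext a b
        simp only [Matrix.of_apply, hc12]
      rw [h3]
      exact h2) l
    have h3 : (Matrix.of fun a b => t1 * c1 a (l b) + t2 * c2 a (l b)) =
        Matrix.of fun a b => cc a (l b) := by
      ext a b
      simp only [Matrix.of_apply, hc12]
    rw [h3] at h1
    exact h1
  have hH : HYP S := fun m i _ y hy => AH.fix hR hy (key m i y hy)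
  obtain ⟨v, hv, h1, h2⟩ := AH.fix hR hx (key 0 0 x hx)
  exact deg0 Helper54.FB.gCLIMB hm S g hes hg hH 0 x v hx hv h1 h2

section
variable {A : Type u} {B : Type v} [CommRing A] [CommRing B] [Algebra A B] {p : ℕ}

/-- the same action, with a larger length -/
def HA.up (H : HA.{u, v, w} A B p) : HA.{u, v, w} A B (p + 1) where
  M := H.M
  pr := H.pr
  pr_pr := H.pr_pr
  pr_ne := H.pr_ne
  pr_top i hi := H.pr_top i (by omega)
  pr_sum z := by rw [Finset.sum_range_succ, H.pr_top (p + 1) (by omega), add_zero, ← H.pr_sum]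
  d := H.d
  dd := H.dd
  d_pr := H.d_pr
  d_zero := H.d_zero
  ρ := H.ρ
  ρ_pr := H.ρ_pr
  ρ_d := H.ρ_d
  one := H.one
  add := H.add
  mul := H.mul
  alg := H.alg

end

/-- the strict inequality is impossible, `H` minimal -/
theorem strict_min
    (A : Type u) [CommRing A] [IsLocalRing A] [IsNoetherianRing A] (B : Type v) [CommRing B]
    [IsLocalRing B] [Algebra A B] [Module.Finite A B] (p : ℕ) (H : HA.{u, v, w} A B p) (hmin : H.Min)
    (N : Type x) [AddCommGroup N]
    [Module A N] [Module B N] [IsScalarTower A B N] [Nontrivial N] (πN : H.M →ₗ[A] N) (hN : IsH0 H πN)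
    (s0 : ℕ) (b : Fin s0 → A) (hb : ∀ i, b i ∈ maximalIdeal A)
    (hdim : p + 3 + s0 ≤ Module.finrank (ResidueField A) (CotangentSpace A))
    (R : Type y) [CommRing R] [IsDomain R] [UniqueFactorizationMonoid R] [IsNoetherianRing R] [IsLocalRing R]
    (t1 t2 : R) (hm : maximalIdeal R = Ideal.span {t1, t2}) (hnp : ¬ (maximalIdeal R).IsPrincipal)
    (q : R →+* B ⧸ blk B b) (hq : Function.Surjective q) : False := by
  classical
  have hfN : Module.Finite A N := finN H hN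
  have : Module.Finite B N := Module.Finite.of_restrictScalars_finite A B N
  have hloc : ∀ c ∈ maximalIdeal A, algebraMap A B c ∈ maximalIdeal B := fun c hc => loc_of N c hc
  have hIm : Ideal.map (algebraMap A B) (maximalIdeal A) ≤ maximalIdeal B :=
    Ideal.map_le_iff_le_comap.2 fun c hc => hloc c hc
  have hbm : blk B b ≤ maximalIdeal B := (blk_le hb).trans hIm
  have hql := fun {c : R} {x : B} (h : q c = Ideal.Quotient.mk (blk B b) x) => q_loc hbm q hq h
  obtain ⟨e0, a, emb0, ha, hinj0, hbc0⟩ := Helper5.FB.gGEN A s0 (p + 3) b hb hdim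
  have hfex : ∀ j : Fin (p + 3), ∃ f : R, q f = Ideal.Quotient.mk _ (algebraMap A B (a (emb0 j))) :=
    fun j => hq _
  choose f hf using hfex
  obtain ⟨e, s, σ, g, hsyz, hg⟩ := Helper15.FB.gSEL R (p + 3) f
  have hes : e + s = p + 1 + 2 := by
    have h1 := Fintype.card_congr σ
    simp only [Fintype.card_fin, Fintype.card_sum] at h1
    omega
  have hfm : ∀ j, f j ∈ maximalIdeal R := fun j => (q_loc hbm q hq (hf j)).2 (hloc _ (by
    rw [← ha.1]; exact Ideal.subset_span ⟨_, rfl⟩))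
  have hdec : ∀ j : Fin e ⊕ Fin s, ∃ f1 f2 : R, f (σ.symm j) = t1 * f1 + t2 * f2 := by
    intro j
    have h1 := hfm (σ.symm j)
    rw [hm, Ideal.mem_span_pair] at h1
    obtain ⟨c, d, hcd⟩ := h1
    exact ⟨c, d, by rw [← hcd]; ring⟩
  choose f1 f2 hf12 using hdec
  have hf' : ∀ j, q (t1 * f1 j + t2 * f2 j) =
      Ideal.Quotient.mk _ (algebraMap A B (a ((emb0 ∘ σ.symm) j))) := fun j => by
    rw [← hf12, hf]; rfl
  have hg' : ∀ a, t1 * f1 (Sum.inr a) + t2 * f2 (Sum.inr a) =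
      ∑ j, g a j * (t1 * f1 (Sum.inl j) + t2 * f2 (Sum.inl j)) := by
    intro a
    rw [← hf12, hg]
    exact Finset.sum_congr rfl fun j _ => by rw [← hf12]
  have hsyz' : ∀ c : Fin e → R, ∑ j, c j * (t1 * f1 (Sum.inl j) + t2 * f2 (Sum.inl j)) = 0 →
      ∀ j, c j ∈ maximalIdeal R := by
    intro c hc
    refine hsyz c ?_
    rw [← hc]
    exact Finset.sum_congr rfl fun j _ => by rw [← hf12]
  have hinj : Function.Injective (emb0 ∘ σ.symm) := hinj0.comp σ.symm.injective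
  have hbc : ∀ i, ∃ c : Fin e0 → A, b i = ∑ l, c l * a l ∧ ∀ j, c ((emb0 ∘ σ.symm) j) ∈ maximalIdeal A := by
    intro i
    obtain ⟨c, h1, h2⟩ := hbc0 i
    exact ⟨c, h1, fun j => h2 _⟩
  obtain ⟨r, h, hspan, hind⟩ := mingens (B := B) N
  obtain ⟨S, cls, hcls, -, -⟩ := Helper33.FB.gBUILD1 gHTP A B (p + 1) H.up hmin e0 a ha s0 b hb
    (Fin e ⊕ Fin s) (emb0 ∘ σ.symm) hinj hbc R q t1 t2 f1 f2 hf' PUnit.{v + 1} 0 (fun _ _ => Subsingleton.elim _ _)
  have htop : ∀ w ∈ S.gr (p + 1), w = 0 := by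
    intro w hw
    obtain ⟨z, rfl⟩ := (hcls.gr _ w).1 hw
    have h1 : H.up.pr (p + 1) z = 0 := H.pr_top (p + 1) (by omega) z
    rw [h1, map_zero]
  -- there is a minimal generator
  have hr : 0 < r := by
    by_contra hr0
    obtain rfl : r = 0 := by omega
    have h1 : (⊤ : Submodule B N) = ⊥ := by
      rw [← hspan]
      simp
    obtain ⟨n, hn⟩ := exists_ne (0 : N)
    exact hn (by
      have : n ∈ (⊤ : Submodule B N) := trivial
      rw [h1] at this
      exact (Submodule.mem_bot B).1 this)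
  obtain ⟨z, hz⟩ := hN.2.1 (h ⟨0, hr⟩)
  obtain ⟨a', ha', b', hb', hab⟩ := strict0 hm hnp S g hes hg' hsyz' htop (cls (H.up.pr 0 z))
    ((hcls.gr 0 _).2 ⟨z, rfl⟩)
  obtain ⟨u1, rfl⟩ := (hcls.gr 0 a').1 ha'
  obtain ⟨u2, rfl⟩ := (hcls.gr 0 b').1 hb'
  obtain ⟨T1, hT1⟩ := Ideal.Quotient.mk_surjective (q t1)
  obtain ⟨T2, hT2⟩ := Ideal.Quotient.mk_surjective (q t2)
  have ht1 : t1 ∈ maximalIdeal R := hm ▸ Ideal.subset_span (by simp)
  have ht2 : t2 ∈ maximalIdeal R := hm ▸ Ideal.subset_span (by simp)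
  rw [hcls.smul t1 T1 _ hT1.symm, hcls.smul t2 T2 _ hT2.symm,
    ← sub_eq_zero, ← map_add, ← map_sub, hcls.ker] at hab
  have h2 : πN (H.pr 0 z - (H.ρ T1 (H.pr 0 u1) + H.ρ T2 (H.pr 0 u2))) ∈ maximalIdeal A • (⊤ : Submodule A N) :=
    map_mtop' (maximalIdeal A) πN hab
  rw [map_sub, map_add, hz, hN.1, hN.1] at h2
  have h3 := mA_le_mB hloc h2
  have h4 : h ⟨0, hr⟩ ∈ maximalIdeal B • (⊤ : Submodule B N) := by
    have h5 : h ⟨0, hr⟩ = (h ⟨0, hr⟩ - (T1 • πN (H.pr 0 u1) + T2 • πN (H.pr 0 u2))) +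
      (T1 • πN (H.pr 0 u1) + T2 • πN (H.pr 0 u2)) := by abel
    rw [h5]
    refine Submodule.add_mem _ h3 (Submodule.add_mem _ ?_ ?_)
    · exact Submodule.smul_mem_smul ((hql hT1.symm).1 ht1) trivial
    · exact Submodule.smul_mem_smul ((hql hT2.symm).1 ht2) trivial
  have h6 := hind (Pi.single ⟨0, hr⟩ 1) (by
    rw [Finset.sum_eq_single (⟨0, hr⟩ : Fin r)]
    · rw [Pi.single_eq_same, one_smul]
      exact h4
    · intro b _ hb'; rw [Pi.single_eq_of_ne hb', zero_smul]
    · intro h; exact absurd (Finset.mem_univ _) h) ⟨0, hr⟩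
  rw [Pi.single_eq_same] at h6
  exact (Ideal.ne_top_iff_one _).1 (maximalIdeal.isMaximal B).ne_top h6

/-- the strict inequality is impossible -/
theorem strict_all
    (A : Type u) [CommRing A] [IsLocalRing A] [IsNoetherianRing A] (B : Type v) [CommRing B]
    [IsLocalRing B] [IsNoetherianRing B] [Algebra A B] (p : ℕ) (H : HA.{u, v, w} A B p)
    (N : Type x) [AddCommGroup N]
    [Module A N] [Module B N] [IsScalarTower A B N] [Nontrivial N] (πN : H.M →ₗ[A] N) (hN : IsH0 H πN)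
    (s0 : ℕ) (b : Fin s0 → A) (hb : ∀ i, b i ∈ maximalIdeal A)
    (hdim : p + 3 + s0 ≤ Module.finrank (ResidueField A) (CotangentSpace A))
    (R : Type y) [CommRing R] [IsDomain R] [UniqueFactorizationMonoid R] [IsNoetherianRing R] [IsLocalRing R]
    (t1 t2 : R) (hm : maximalIdeal R = Ideal.span {t1, t2}) (hnp : ¬ (maximalIdeal R).IsPrincipal)
    (q : R →+* B ⧸ blk B b) (hq : Function.Surjective q) : False := by
  have hfree : Module.Free B N := gFREE A B p H N πN hN s0 b hb (by omega) R t1 t2 hm hnp q hq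
  have hfN : Module.Finite A N := finN H hN
  have hfB : Module.Finite A B := by
    obtain ⟨n, hn⟩ := exists_ne (0 : N)
    let bs := Module.Free.chooseBasis B N
    have : ∃ i, bs.repr n i ≠ 0 := by
      by_contra h
      push Not at h
      exact hn (bs.repr.injective (by ext i; simp [h]))
    obtain ⟨i, -⟩ := this
    let f : N →ₗ[A] B := (bs.coord i).restrictScalars A
    refine Module.Finite.of_surjective f fun c => ⟨c • bs i, ?_⟩
    show bs.coord i (c • bs i) = c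
    simp
  obtain ⟨H', ι, ε, h1, h2, h3, h4, h5, h6, h7, h8⟩ := Helper59.FB.gMINRED A B p H
  exact strict_min A B p H' h1 N (πN ∘ₗ ι)
    (isH0_red H H' ι ε h2 h3 h4 h5 h6 h7 h8 hN) s0 b hb hdim R t1 t2 hm hnp q hq

end Pool.Agent.Helper34.FB
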