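import Pool.Agent.Helper34.FB.Final2

/-!
# Project FB: the presentation is only needed for artinian quotients
-/

set_option autoImplicit false

namespace Pool.Agent.Helper34.FB

open IsLocalRing Pool.Agent.Helper26.DA

universe u v w x y

/-- all conclusions from a presentation of `B / (b)`, the parameters `a` and `emb` are given -/
theorem core
    (A : Type u) [CommRing A] [IsLocalRing A] [IsNoetherianRing A] (B : Type v) [CommRing B]
    [IsLocalRing B] [Algebra A B] [Module.Finite A B] (p : ℕ) (H : HA.{u, v, w} A B p) (hmin : H.Min)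
    (N : Type x) [AddCommGroup N]
    [Module A N] [Module B N] [IsScalarTower A B N] [Nontrivial N] (πN : H.M →ₗ[A] N) (hN : IsH0 H πN)
    (s0 : ℕ) (b : Fin s0 → A) (hb : ∀ i, b i ∈ maximalIdeal A)
    (R : Type y) [CommRing R] [IsDomain R] [UniqueFactorizationMonoid R] [IsNoetherianRing R] [IsLocalRing R]
    (t1 t2 : R) (hm : maximalIdeal R = Ideal.span {t1, t2}) (hnp : ¬ (maximalIdeal R).IsPrincipal)
    (q : R →+* B ⧸ blk B b) (hq : Function.Surjective q) (e0 : ℕ) (a : Fin e0 → A) (ha : MinGen a) :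
    (∀ emb0 : Fin (p + 2) → Fin e0, Function.Injective emb0 →
      (∀ i, ∃ c : Fin e0 → A, b i = ∑ l, c l * a l ∧ ∀ j, c (emb0 j) ∈ maximalIdeal A) →
      Module.Free B N) ∧
    (∀ emb0 : Fin (p + 3) → Fin e0, Function.Injective emb0 →
      (∀ i, ∃ c : Fin e0 → A, b i = ∑ l, c l * a l ∧ ∀ j, c (emb0 j) ∈ maximalIdeal A) →
      False) := by
  classical
  have hfN : Module.Finite A N := finN H hN
  have : Module.Finite B N := Module.Finite.of_restrictScalars_finite A B N
  have : IsNoetherianRing B := IsNoetherianRing.of_finite A B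
  have hloc : ∀ c ∈ maximalIdeal A, algebraMap A B c ∈ maximalIdeal B := fun c hc => loc_of N c hc
  have hIm : Ideal.map (algebraMap A B) (maximalIdeal A) ≤ maximalIdeal B :=
    Ideal.map_le_iff_le_comap.2 fun c hc => hloc c hc
  have hbm : blk B b ≤ maximalIdeal B := (blk_le hb).trans hIm
  have hql := fun {c : R} {x : B} (h : q c = Ideal.Quotient.mk (blk B b) x) => q_loc hbm q hq h
  -- the data for a number `P` of good elements
  have data : ∀ (P : ℕ) (emb0 : Fin P → Fin e0), Function.Injective emb0 →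
      (∀ i, ∃ c : Fin e0 → A, b i = ∑ l, c l * a l ∧ ∀ j, c (emb0 j) ∈ maximalIdeal A) →
      ∃ (e s : ℕ) (emb : Fin e ⊕ Fin s → Fin e0) (f1 f2 : Fin e ⊕ Fin s → R) (g : Fin s → Fin e → R),
        e + s = P ∧ Function.Injective emb ∧
        (∀ i, ∃ c : Fin e0 → A, b i = ∑ l, c l * a l ∧ ∀ j, c (emb j) ∈ maximalIdeal A) ∧
        (∀ j, q (t1 * f1 j + t2 * f2 j) = Ideal.Quotient.mk _ (algebraMap A B (a (emb j)))) ∧
        (∀ a, t1 * f1 (Sum.inr a) + t2 * f2 (Sum.inr a) =
          ∑ j, g a j * (t1 * f1 (Sum.inl j) + t2 * f2 (Sum.inl j))) ∧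
        (∀ c : Fin e → R, ∑ j, c j * (t1 * f1 (Sum.inl j) + t2 * f2 (Sum.inl j)) = 0 →
          ∀ j, c j ∈ maximalIdeal R) := by
    intro P emb0 hinj0 hbc0
    have hfex : ∀ j : Fin P, ∃ f : R, q f = Ideal.Quotient.mk _ (algebraMap A B (a (emb0 j))) :=
      fun j => hq _
    choose f hf using hfex
    obtain ⟨e, s, σ, g, hsyz, hg⟩ := Helper15.FB.gSEL R P f
    have hes : e + s = P := by
      have h1 := Fintype.card_congr σ
      simp only [Fintype.card_fin, Fintype.card_sum] at h1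
      omega
    have hfm : ∀ j, f j ∈ maximalIdeal R := fun j => (q_loc hbm q hq (hf j)).2 (hloc _ (by
      rw [← ha.1]; exact Ideal.subset_span ⟨_, rfl⟩))
    have hdec : ∀ j : Fin e ⊕ Fin s, ∃ f1 f2 : R, f (σ.symm j) = t1 * f1 + t2 * f2 := by
      intro j
      have h1 := hfm (σ.symm j)
      rw [hm, Ideal.mem_span_pair] at h1
      obtain ⟨c, d, hcd⟩ := h1
      exact ⟨c, d, by rw [← hcd]; ring⟩
    choose f1 f2 hf12 using hdec
    refine ⟨e, s, emb0 ∘ σ.symm, f1, f2, g, hes, hinj0.comp σ.symm.injective, ?_, ?_, ?_, ?_⟩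
    · intro i
      obtain ⟨c, h1, h2⟩ := hbc0 i
      exact ⟨c, h1, fun j => h2 _⟩
    · intro j
      rw [← hf12, hf]; rfl
    · intro a
      rw [← hf12, hg]
      exact Finset.sum_congr rfl fun j _ => by rw [← hf12]
    · intro c hc
      refine hsyz c ?_
      rw [← hc]
      exact Finset.sum_congr rfl fun j _ => by rw [← hf12]
  obtain ⟨r, h, hspan, hind⟩ := mingens (B := B) N
  constructor
  · intro emb0 hinj0 hbc0
    obtain ⟨e, s, emb, f1, f2, g, hes, hinj, hbc, hf', hg', hsyz'⟩ := data _ emb0 hinj0 hbc0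
    let β : (Fin r → B) →ₗ[B] N := Fintype.linearCombination B h
    have hβ : ∀ x, β x = ∑ i, x i • h i := fun x => rfl
    have hβs : Function.Surjective β := by
      intro n
      have h1 : n ∈ Submodule.span B (Set.range h) := hspan ▸ trivial
      obtain ⟨x', hx'⟩ := (Submodule.mem_span_range_iff_exists_fun B).1 h1
      exact ⟨x', hx'⟩
    obtain ⟨H', ι, π, h1, h2, h3, h4, h5⟩ := Helper32.FB.gADJ A B p H N πN hN r β hβs (fun x hx => by
      rw [hβ] at hx
      exact closed gHTP Helper28.FB.gGV Helper33.FB.gBUILD1 Helper98.FB.gBUILD2 (cf_all gTRIV) hloc H hmin πN hN ha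
        hb hes emb hinj hbc hm hnp q hq f1 f2 hf' g hg' hsyz' h hspan hind x hx)
    have hmin' : H'.Min := min_iso H H' ι h1 hmin
    have hd1 : ∀ z, H'.d (H'.pr 1 z) = H'.pr 0 (H'.d z) := fun z => H'.d_pr 0 z
    have hKer : LinearMap.ker β = ⊥ := by
      refine last gHTP Helper28.FB.gGV Helper33.FB.gBUILD1 Helper98.FB.gBUILD2 Helper54.FB.gCLIMB
        Helper16.FB.gDET Helper19.FB.gU Helper61.FB.gCLAIM Helper26.FB.gREG Helper3.FB.gHB2 hloc H' hmin' ha hb hes
        emb hinj hbc hm hnp q hq f1 f2 hf' g hg' hsyz' (LinearMap.ker β) π h3 ?_ ?_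
      · intro z
        rw [LinearMap.mem_ker, hd1, h5, h2, h1]
        have h6 : H.pr 0 (H.d (ι z)) = H.d (H.pr 1 (ι z)) := (H.d_pr 0 _).symm
        rw [h6]
        exact d_pr1 H hN _
      · intro x hx
        obtain ⟨z, hz⟩ := h4 x
        rw [LinearMap.mem_ker, ← hz, h5] at hx
        obtain ⟨y, hy⟩ := (h0_iso H H' ι h1 h2 hN z).1 hx
        exact ⟨y, by rw [← hz, hy]⟩
    exact Module.Free.of_equiv (LinearEquiv.ofBijective β ⟨LinearMap.ker_eq_bot.1 hKer, hβs⟩)
  · intro emb0 hinj0 hbc0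
    obtain ⟨e, s, emb, f1, f2, g, hes, hinj, hbc, hf', hg', hsyz'⟩ := data _ emb0 hinj0 hbc0
    obtain ⟨S, cls, hcls, -, -⟩ := Helper33.FB.gBUILD1 gHTP A B (p + 1) H.up hmin e0 a ha s0 b hb
      (Fin e ⊕ Fin s) emb hinj hbc R q t1 t2 f1 f2 hf' PUnit.{v + 1} 0 (fun _ _ => Subsingleton.elim _ _)
    have htop : ∀ w ∈ S.gr (p + 1), w = 0 := by
      intro w hw
      obtain ⟨z, rfl⟩ := (hcls.gr _ w).1 hw
      have h1 : H.up.pr (p + 1) z = 0 := H.pr_top (p + 1) (by omega) z
      rw [h1, map_zero]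
    -- there is a minimal generator
    have hr : 0 < r := by
      by_contra hr0
      obtain rfl : r = 0 := by omega
      have h1 : (⊤ : Submodule B N) = ⊥ := by
        rw [← hspan]
        simp
      obtain ⟨n, hn⟩ := exists_ne (0 : N)
      exact hn (by
        have : n ∈ (⊤ : Submodule B N) := trivial
        rw [h1] at this
        exact (Submodule.mem_bot B).1 this)
    obtain ⟨z, hz⟩ := hN.2.1 (h ⟨0, hr⟩)
    obtain ⟨a', ha', b', hb', hab⟩ := strict0 hm hnp S g (by omega) hg' hsyz' htop (cls (H.up.pr 0 z))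
      ((hcls.gr 0 _).2 ⟨z, rfl⟩)
    obtain ⟨u1, rfl⟩ := (hcls.gr 0 a').1 ha'
    obtain ⟨u2, rfl⟩ := (hcls.gr 0 b').1 hb'
    obtain ⟨T1, hT1⟩ := Ideal.Quotient.mk_surjective (q t1)
    obtain ⟨T2, hT2⟩ := Ideal.Quotient.mk_surjective (q t2)
    have ht1 : t1 ∈ maximalIdeal R := hm ▸ Ideal.subset_span (by simp)
    have ht2 : t2 ∈ maximalIdeal R := hm ▸ Ideal.subset_span (by simp)
    rw [hcls.smul t1 T1 _ hT1.symm, hcls.smul t2 T2 _ hT2.symm,
      ← sub_eq_zero, ← map_add, ← map_sub, hcls.ker] at hab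
    have h2 : πN (H.pr 0 z - (H.ρ T1 (H.pr 0 u1) + H.ρ T2 (H.pr 0 u2))) ∈ maximalIdeal A • (⊤ : Submodule A N) :=
      map_mtop' (maximalIdeal A) πN hab
    rw [map_sub, map_add, hz, hN.1, hN.1] at h2
    have h3 := mA_le_mB hloc h2
    have h4 : h ⟨0, hr⟩ ∈ maximalIdeal B • (⊤ : Submodule B N) := by
      have h5 : h ⟨0, hr⟩ = (h ⟨0, hr⟩ - (T1 • πN (H.pr 0 u1) + T2 • πN (H.pr 0 u2))) +
        (T1 • πN (H.pr 0 u1) + T2 • πN (H.pr 0 u2)) := by abel
      rw [h5]
      refine Submodule.add_mem _ h3 (Submodule.add_mem _ ?_ ?_)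
      · exact Submodule.smul_mem_smul ((hql hT1.symm).1 ht1) trivial
      · exact Submodule.smul_mem_smul ((hql hT2.symm).1 ht2) trivial
    have h6 := hind (Pi.single ⟨0, hr⟩ 1) (by
      rw [Finset.sum_eq_single (⟨0, hr⟩ : Fin r)]
      · rw [Pi.single_eq_same, one_smul]
        exact h4
      · intro b _ hb'; rw [Pi.single_eq_of_ne hb', zero_smul]
      · intro h; exact absurd (Finset.mem_univ _) h) ⟨0, hr⟩
    rw [Pi.single_eq_same] at h6
    exact (Ideal.ne_top_iff_one _).1 (maximalIdeal.isMaximal B).ne_top h6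

/-- adding the products of two parameters to the `b i` -/
def bprod {A : Type u} [CommRing A] {s0 e0 : ℕ} (b : Fin s0 → A) (a : Fin e0 → A) :
    Fin (s0 + e0 * e0) → A :=
  Fin.append b fun k => a (finProdFinEquiv.symm k).1 * a (finProdFinEquiv.symm k).2

theorem blk_bprod {A : Type u} [CommRing A] [IsLocalRing A] (B : Type v) [CommRing B]
    [Algebra A B] {s0 e0 : ℕ} (b : Fin s0 → A) (a : Fin e0 → A) (ha : MinGen a) :
    blk B (bprod b a) = blk B b ⊔ Ideal.map (algebraMap A B) (maximalIdeal A ^ 2) := by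
  apply le_antisymm
  · rw [blk, Ideal.span_le]
    rintro _ ⟨i, rfl⟩
    refine Fin.addCases (fun i => ?_) (fun k => ?_) i
    · show algebraMap A B (bprod b a (Fin.castAdd _ i)) ∈ _
      rw [bprod, Fin.append_left]
      exact Ideal.mem_sup_left (Ideal.subset_span ⟨i, rfl⟩)
    · show algebraMap A B (bprod b a (Fin.natAdd _ k)) ∈ _
      rw [bprod, Fin.append_right]
      refine Ideal.mem_sup_right (Ideal.mem_map_of_mem _ ?_)
      rw [pow_two, ← ha.1]
      exact Ideal.mul_mem_mul (Ideal.subset_span ⟨_, rfl⟩) (Ideal.subset_span ⟨_, rfl⟩)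
  · refine sup_le ?_ ?_
    · rw [blk, Ideal.span_le]
      rintro _ ⟨i, rfl⟩
      refine Ideal.subset_span ⟨Fin.castAdd _ i, ?_⟩
      show algebraMap A B (bprod b a (Fin.castAdd _ i)) = _
      rw [bprod, Fin.append_left]
    · rw [Ideal.map_le_iff_le_comap, pow_two, ← ha.1, Ideal.span_mul_span', Ideal.span_le]
      rintro _ ⟨_, ⟨i, rfl⟩, _, ⟨j, rfl⟩, rfl⟩
      show algebraMap A B (a i * a j) ∈ blk B (bprod b a)
      refine Ideal.subset_span ⟨Fin.natAdd _ (finProdFinEquiv (i, j)), ?_⟩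
      show algebraMap A B (bprod b a (Fin.natAdd _ _)) = _
      rw [bprod, Fin.append_right, Equiv.symm_apply_apply]

theorem bprod_mem {A : Type u} [CommRing A] [IsLocalRing A] {s0 e0 : ℕ} (b : Fin s0 → A) (a : Fin e0 → A)
    (ha : MinGen a) (hb : ∀ i, b i ∈ maximalIdeal A) (i : Fin (s0 + e0 * e0)) : bprod b a i ∈ maximalIdeal A := by
  refine Fin.addCases (fun i => ?_) (fun k => ?_) i
  · rw [bprod, Fin.append_left]; exact hb i
  · rw [bprod, Fin.append_right]
    refine Ideal.mul_mem_left _ _ ?_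
    rw [← ha.1]; exact Ideal.subset_span ⟨_, rfl⟩

theorem bprod_exp {A : Type u} [CommRing A] [IsLocalRing A] {s0 e0 : ℕ} (b : Fin s0 → A) (a : Fin e0 → A)
    (ha : MinGen a) {P : ℕ} (emb0 : Fin P → Fin e0)
    (hbc0 : ∀ i, ∃ c : Fin e0 → A, b i = ∑ l, c l * a l ∧ ∀ j, c (emb0 j) ∈ maximalIdeal A)
    (i : Fin (s0 + e0 * e0)) :
    ∃ c : Fin e0 → A, bprod b a i = ∑ l, c l * a l ∧ ∀ j, c (emb0 j) ∈ maximalIdeal A := by
  classical
  refine Fin.addCases (fun i => ?_) (fun k => ?_) i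
  · rw [bprod, Fin.append_left]; exact hbc0 i
  · rw [bprod, Fin.append_right]
    set u := (finProdFinEquiv.symm k).1
    set v := (finProdFinEquiv.symm k).2
    refine ⟨fun l => if l = v then a u else 0, ?_, ?_⟩
    · simp
    · intro j
      show (if emb0 j = v then a u else 0) ∈ _
      split_ifs
      · rw [← ha.1]; exact Ideal.subset_span ⟨_, rfl⟩
      · exact Ideal.zero_mem _

/-- `B` finite over `A`: a presentation of `B / ((b) + m_A²)` suffices -/
theorem fin2
    (A : Type u) [CommRing A] [IsLocalRing A] [IsNoetherianRing A] (B : Type v) [CommRing B]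
    [IsLocalRing B] [Algebra A B] [Module.Finite A B] (p : ℕ) (H : HA.{u, v, w} A B p)
    (N : Type x) [AddCommGroup N]
    [Module A N] [Module B N] [IsScalarTower A B N] [Nontrivial N] (πN : H.M →ₗ[A] N) (hN : IsH0 H πN)
    (s0 : ℕ) (b : Fin s0 → A) (hb : ∀ i, b i ∈ maximalIdeal A)
    (R : Type y) [CommRing R] [IsDomain R] [UniqueFactorizationMonoid R] [IsNoetherianRing R] [IsLocalRing R]
    (t1 t2 : R) (hm : maximalIdeal R = Ideal.span {t1, t2}) (hnp : ¬ (maximalIdeal R).IsPrincipal)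
    (q : R →+* B ⧸ (blk B b ⊔ Ideal.map (algebraMap A B) (maximalIdeal A ^ 2))) (hq : Function.Surjective q) :
    (p + 2 + s0 ≤ Module.finrank (ResidueField A) (CotangentSpace A) → Module.Free B N) ∧
    ¬ (p + 3 + s0 ≤ Module.finrank (ResidueField A) (CotangentSpace A)) := by
  obtain ⟨H', ι, ε, h1, h2, h3, h4, h5, h6, h7, h8⟩ := Helper59.FB.gMINRED A B p H
  have hN' := isH0_red H H' ι ε h2 h3 h4 h5 h6 h7 h8 hN
  constructor
  · intro hdim
    obtain ⟨e0, a, emb0, ha, hinj0, hbc0⟩ := Helper5.FB.gGEN A s0 (p + 2) b hb hdim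
    have hI := blk_bprod B b a ha
    let q' : R →+* B ⧸ blk B (bprod b a) := (Ideal.quotEquivOfEq hI.symm : _ ≃+* _).toRingHom.comp q
    have hq' : Function.Surjective q' := (Ideal.quotEquivOfEq hI.symm).surjective.comp hq
    exact (core A B p H' h1 N _ hN' _ (bprod b a) (bprod_mem b a ha hb) R t1 t2 hm hnp q' hq' e0 a ha).1 emb0
      hinj0 (bprod_exp b a ha emb0 hbc0)
  · intro hdim
    obtain ⟨e0, a, emb0, ha, hinj0, hbc0⟩ := Helper5.FB.gGEN A s0 (p + 3) b hb hdim
    have hI := blk_bprod B b a ha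
    let q' : R →+* B ⧸ blk B (bprod b a) := (Ideal.quotEquivOfEq hI.symm : _ ≃+* _).toRingHom.comp q
    have hq' : Function.Surjective q' := (Ideal.quotEquivOfEq hI.symm).surjective.comp hq
    exact (core A B p H' h1 N _ hN' _ (bprod b a) (bprod_mem b a ha hb) R t1 t2 hm hnp q' hq' e0 a ha).2 emb0
      hinj0 (bprod_exp b a ha emb0 hbc0)

/-- powers of `m_C` are in `m_A² C`, if `C` is finite over `A` -/
theorem nilp (A : Type u) [CommRing A] [IsLocalRing A] (C : Type v) [CommRing C] [IsLocalRing C] [Algebra A C]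
    [Module.Finite A C] (hloc : ∀ c ∈ maximalIdeal A, algebraMap A C c ∈ maximalIdeal C) :
    ∃ n, ∀ m, n ≤ m → maximalIdeal C ^ m ≤ Ideal.map (algebraMap A C) (maximalIdeal A ^ 2) := by
  set J := Ideal.map (algebraMap A C) (maximalIdeal A) with hJ
  have hJm : J ≤ maximalIdeal C := Ideal.map_le_iff_le_comap.2 fun c hc => hloc c hc
  have : Nontrivial (C ⧸ J) := Ideal.Quotient.nontrivial_iff.2 fun h =>
    (maximalIdeal.isMaximal C).ne_top (top_le_iff.1 (h ▸ hJm))
  have : IsLocalRing (C ⧸ J) := IsLocalRing.of_surjective' _ Ideal.Quotient.mk_surjective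
  have : IsArtinianRing (A ⧸ maximalIdeal A) := inferInstanceAs (IsArtinianRing (ResidueField A))
  have : Module.Finite A (C ⧸ J) := Module.Finite.of_surjective (Ideal.Quotient.mkₐ A J).toLinearMap
    Ideal.Quotient.mk_surjective
  have : Module.Finite (A ⧸ maximalIdeal A) (C ⧸ J) := Module.Finite.of_restrictScalars_finite A _ _
  have : IsArtinianRing (C ⧸ J) := IsArtinianRing.of_finite (A ⧸ maximalIdeal A) (C ⧸ J)
  obtain ⟨n, hn⟩ := IsArtinianRing.isNilpotent_jacobson_bot (R := C ⧸ J)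
  rw [IsLocalRing.jacobson_eq_maximalIdeal _ bot_ne_top] at hn
  have h1 : Ideal.map (Ideal.Quotient.mk J) (maximalIdeal C) ≤ maximalIdeal (C ⧸ J) := by
    rw [Ideal.map_le_iff_le_comap]
    intro x hx
    rw [Ideal.mem_comap, mem_maximalIdeal, mem_nonunits_iff]
    rintro ⟨u, hu⟩
    obtain ⟨y, hy⟩ := Ideal.Quotient.mk_surjective ((u⁻¹ : (C ⧸ J)ˣ) : C ⧸ J)
    have h2 : x * y - 1 ∈ J := by
      rw [← Ideal.Quotient.eq_zero_iff_mem, map_sub, map_mul, ← hu, hy, Units.mul_inv, map_one, sub_self]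
    have h3 := Ideal.sub_mem _ (Ideal.mul_mem_right y _ hx) (hJm h2)
    rw [sub_sub_cancel] at h3
    exact (Ideal.ne_top_iff_one _).1 (maximalIdeal.isMaximal C).ne_top h3
  have h2 : maximalIdeal C ^ n ≤ J := by
    have h3 : Ideal.map (Ideal.Quotient.mk J) (maximalIdeal C ^ n) ≤ ⊥ := by
      rw [Ideal.map_pow]
      refine (Ideal.pow_right_mono h1 n).trans ?_
      rw [hn]
      exact le_rfl
    intro x hx
    have h4 := h3 (Ideal.mem_map_of_mem _ hx)
    exact Ideal.Quotient.eq_zero_iff_mem.1 ((Submodule.mem_bot _).1 h4)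
  refine ⟨n * 2, fun m hm => (Ideal.pow_le_pow_right hm).trans ?_⟩
  rw [pow_mul, Ideal.map_pow]
  exact Ideal.pow_right_mono h2 2

end Pool.Agent.Helper34.FB
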