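import Pool.Agent.Helper34.FB.Asm6

/-!
# Project FB: reduction to `B` finite over `A`, with presentations of artinian quotients
-/

set_option autoImplicit false

namespace Pool.Agent.Helper34.FB

open IsLocalRing Pool.Agent.Helper26.DA Pool.Agent.Helper2.FB

universe u v w x y

/-- `C` is a quotient of a regular local ring of dimension two -/
def QN (C : Type v) [CommRing C] : Prop :=
  ∃ (R : Type w) (_ : CommRing R) (_ : IsDomain R) (_ : UniqueFactorizationMonoid R) (_ : IsNoetherianRing R)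
    (_ : IsLocalRing R) (t1 t2 : R) (q : R →+* C), maximalIdeal R = Ideal.span {t1, t2} ∧
      ¬ (maximalIdeal R).IsPrincipal ∧ Function.Surjective q

theorem QN.of_surj {C : Type v} [CommRing C] {C' : Type x} [CommRing C'] (h : QN.{v, w} C) (f : C →+* C')
    (hf : Function.Surjective f) : QN.{x, w} C' := by
  obtain ⟨R, i1, i2, i3, i4, i5, t1, t2, q, h1, h2, h3⟩ := h
  exact ⟨R, i1, i2, i3, i4, i5, t1, t2, f.comp q, h1, h2, hf.comp h3⟩

theorem free2 (A : Type u) [CommRing A] [IsLocalRing A] [IsNoetherianRing A] (B : Type v) [CommRing B]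
    [IsLocalRing B] [IsNoetherianRing B] [Algebra A B] (p : ℕ) (H : HA.{u, v, w} A B p) (N : Type x) [AddCommGroup N]
    [Module A N] [Module B N] [IsScalarTower A B N] [Nontrivial N] (πN : H.M →ₗ[A] N) (hπ : IsH0 H πN)
    (s0 : ℕ) (b : Fin s0 → A) (hb : ∀ i, b i ∈ maximalIdeal A)
    (hdim : p + 2 + s0 ≤ Module.finrank (ResidueField A) (CotangentSpace A))
    (hR : ∀ n, ∃ m, n ≤ m ∧ QN.{v, y} (B ⧸ (blk B b ⊔ maximalIdeal B ^ m))) : Module.Free B N := by
  have hne : bb H ≠ ⊤ := by
    intro h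
    obtain ⟨n, hn⟩ := exists_ne (0 : N)
    have := kills H hπ (c := 1) (by rw [h]; trivial) n
    rw [one_smul] at this
    exact hn this
  have hle : bb H ≤ maximalIdeal B := IsLocalRing.le_maximalIdeal hne
  set I : Ideal B := maximalIdeal B * bb H with hI
  have hIb : I ≤ bb H := Ideal.mul_le_right
  have hfin : Module.Finite A (B ⧸ I) := finite_quot H hle
  have hInt : I ≠ ⊤ := fun h => hne (top_le_iff.1 (h ▸ hIb))
  haveI : Nontrivial (B ⧸ I) := Ideal.Quotient.nontrivial_iff.2 hInt
  haveI : IsLocalRing (B ⧸ I) := IsLocalRing.of_surjective' _ Ideal.Quotient.mk_surjective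
  -- the lift
  let l : B ⧸ I → B := Function.surjInv Ideal.Quotient.mk_surjective
  have hl : ∀ t, Ideal.Quotient.mk I (l t) = t := Function.surjInv_eq Ideal.Quotient.mk_surjective
  have hcong : ∀ (t : B ⧸ I) (c : B), Ideal.Quotient.mk I c = t →
      NullH H (H.ρ (l t) - H.ρ c) := by
    intro t c hc
    refine ho_congr H (hIb ?_)
    rw [← Ideal.Quotient.eq, hl, hc]
  let H1 : HA.{u, v, w} A (B ⧸ I) p :=
    { M := H.M
      pr := H.pr
      pr_pr := H.pr_pr
      pr_ne := H.pr_ne
      pr_top := H.pr_top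
      pr_sum := H.pr_sum
      d := H.d
      dd := H.dd
      d_pr := H.d_pr
      d_zero := H.d_zero
      ρ := fun t => H.ρ (l t)
      ρ_pr := fun t i z => H.ρ_pr _ i z
      ρ_d := fun t z => H.ρ_d _ z
      one := by
        obtain ⟨η, e1, e2⟩ : NullH H (H.ρ (l 1) - LinearMap.id) := by
          refine null_of_eq H ?_ (null_add H (hcong 1 1 (map_one _)) (ho_one H))
          abel
        exact ⟨η, e1, fun z => by rw [← e2]; rfl⟩
      add := by
        intro s t
        obtain ⟨η, e1, e2⟩ : NullH H (H.ρ (l (s + t)) - (H.ρ (l s) + H.ρ (l t))) := by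
          refine null_of_eq H ?_ (null_add H (hcong (s + t) (l s + l t)
            (by rw [map_add, hl, hl])) (ho_add H (l s) (l t)))
          abel
        exact ⟨η, e1, fun z => by rw [← e2]; rfl⟩
      mul := by
        intro s t
        obtain ⟨η, e1, e2⟩ : NullH H (H.ρ (l (s * t)) - H.ρ (l s) ∘ₗ H.ρ (l t)) := by
          refine null_of_eq H ?_ (null_add H (hcong (s * t) (l s * l t)
            (by rw [map_mul, hl, hl])) (ho_mul H (l s) (l t)))
          abel
        exact ⟨η, e1, fun z => by rw [← e2]; rfl⟩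
      alg := by
        intro a
        obtain ⟨η, e1, e2⟩ : NullH H (H.ρ (l (algebraMap A (B ⧸ I) a)) - a • LinearMap.id) := by
          refine null_of_eq H ?_ (null_add H (hcong (algebraMap A (B ⧸ I) a) (algebraMap A B a)
            rfl) (ho_alg H a))
          abel
        exact ⟨η, e1, fun z => by rw [← e2]; rfl⟩ }
  -- `N` as a module over the quotient
  have htors : Module.IsTorsionBySet B N (I : Set B) := fun n c => kills H hπ (hIb c.2) n
  letI : Module (B ⧸ I) N := htors.module
  have hsm : ∀ (c : B) (n : N), (Ideal.Quotient.mk I c) • n = c • n := fun c n =>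
    Module.IsTorsionBySet.mk_smul htors c n
  haveI : IsScalarTower A (B ⧸ I) N := by
    constructor
    intro a t n
    obtain ⟨c, rfl⟩ := Ideal.Quotient.mk_surjective t
    have : a • (Ideal.Quotient.mk I c) = Ideal.Quotient.mk I (a • c) := rfl
    rw [this, hsm, hsm, smul_assoc]
  have hπ1 : IsH0 H1 (N := N) (show H1.M →ₗ[A] N from πN) := by
    obtain ⟨e1, e2, e3, e4⟩ := hπ
    refine ⟨fun t z => ?_, e2, e3, e4⟩
    change πN (H.ρ (l t) (H.pr 0 z)) = t • πN (H.pr 0 z)
    rw [e1, ← hsm, hl]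
  -- the surjection
  have hfN : Module.Finite A N := finN H hπ
  obtain ⟨n, hn⟩ := nilp A (B ⧸ I) (fun c hc => loc_of N c hc)
  obtain ⟨m, hm, hQ⟩ := hR n
  have hblk : blk B b ⊔ maximalIdeal B ^ m ≤
      (blk (B ⧸ I) b ⊔ Ideal.map (algebraMap A (B ⧸ I)) (maximalIdeal A ^ 2)).comap (Ideal.Quotient.mk I) := by
    refine sup_le ?_ ?_
    · unfold blk
      rw [Ideal.span_le]
      rintro _ ⟨i, rfl⟩
      exact Ideal.mem_sup_left (Ideal.subset_span ⟨i, rfl⟩)
    · rw [← Ideal.map_le_iff_le_comap, Ideal.map_pow]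
      refine ((Ideal.pow_right_mono ?_ m).trans (hn m hm)).trans le_sup_right
      rw [Ideal.map_le_iff_le_comap]
      intro x hx
      exact (q_loc (le_refl (maximalIdeal B)) (Ideal.Quotient.mk (maximalIdeal B)) Ideal.Quotient.mk_surjective
        (c := x) (x := x) rfl).1 hx |> fun hx' => by
          rw [Ideal.mem_comap, mem_maximalIdeal, mem_nonunits_iff]
          rintro ⟨u, hu⟩
          obtain ⟨y, hy⟩ := Ideal.Quotient.mk_surjective ((u⁻¹ : (B ⧸ I)ˣ) : B ⧸ I)
          have h2 : x * y - 1 ∈ I := by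
            rw [← Ideal.Quotient.eq_zero_iff_mem, map_sub, map_mul, ← hu, hy, Units.mul_inv, map_one, sub_self]
          have h3 := Ideal.sub_mem _ (Ideal.mul_mem_right y _ hx') (hle (hIb h2))
          rw [sub_sub_cancel] at h3
          exact (Ideal.ne_top_iff_one _).1 (maximalIdeal.isMaximal B).ne_top h3
  have hQ1 := hQ.of_surj (Ideal.quotientMap _ (Ideal.Quotient.mk I) hblk)
    (Ideal.quotientMap_surjective (H := hblk) Ideal.Quotient.mk_surjective)
  obtain ⟨R, _, _, _, _, _, t1, t2, q1, ht, hnp, hq1⟩ := hQ1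
  have hfree : Module.Free (B ⧸ I) N :=
    (fin2 A (B ⧸ I) p H1 N πN hπ1 s0 b hb R t1 t2 ht hnp q1 hq1).1 hdim
  -- `bb H` kills `N`, hence `bb H ≤ I`
  have hbI : bb H ≤ I := by
    intro c hc
    rw [← Ideal.Quotient.eq_zero_iff_mem]
    by_contra hne'
    have bs := Module.Free.chooseBasis (B ⧸ I) N
    have hidx : Nonempty (Module.Free.ChooseBasisIndex (B ⧸ I) N) := by
      by_contra hemp
      rw [not_nonempty_iff] at hemp
      have : Subsingleton N := bs.repr.toEquiv.subsingleton
      exact not_subsingleton N this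
    obtain ⟨i⟩ := hidx
    have h1 : (Ideal.Quotient.mk I c) • bs i = 0 := by rw [hsm]; exact kills H hπ hc _
    have h2 : bs.repr ((Ideal.Quotient.mk I c) • bs i) i = 0 := by rw [h1, map_zero]; rfl
    rw [map_smul, Finsupp.smul_apply, Module.Basis.repr_self, Finsupp.single_eq_same, smul_eq_mul,
      mul_one] at h2
    exact hne' h2
  have hbot : bb H = ⊥ := by
    refine Submodule.eq_bot_of_le_smul_of_le_jacobson_bot (maximalIdeal B) (bb H)
      (IsNoetherian.noetherian _) ?_ ?_
    · rw [smul_eq_mul]; exact hbI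
    · exact (IsLocalRing.jacobson_eq_maximalIdeal ⊥ bot_ne_top).ge
  have hIbot : I = ⊥ := by rw [hI, hbot, Ideal.mul_bot]
  have hbij : Function.Bijective (Ideal.Quotient.mk I) := by
    refine ⟨?_, Ideal.Quotient.mk_surjective⟩
    rw [RingHom.injective_iff_ker_eq_bot, Ideal.mk_ker, hIbot]
  let f : B ≃+* (B ⧸ I) := RingEquiv.ofBijective _ hbij
  have bs := Module.Free.chooseBasis (B ⧸ I) N
  refine Module.Free.of_basis (bs.mapCoeffs f.symm ?_)
  intro t n
  obtain ⟨c, rfl⟩ := f.surjective t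
  rw [RingEquiv.symm_apply_apply]
  exact (hsm c n).symm



/-- no strict inequality -/
theorem strict2 (A : Type u) [CommRing A] [IsLocalRing A] [IsNoetherianRing A] (B : Type v) [CommRing B]
    [IsLocalRing B] [IsNoetherianRing B] [Algebra A B] (p : ℕ) (H : HA.{u, v, w} A B p) (N : Type x) [AddCommGroup N]
    [Module A N] [Module B N] [IsScalarTower A B N] [Nontrivial N] (πN : H.M →ₗ[A] N) (hπ : IsH0 H πN)
    (s0 : ℕ) (b : Fin s0 → A) (hb : ∀ i, b i ∈ maximalIdeal A)
    (hdim : p + 3 + s0 ≤ Module.finrank (ResidueField A) (CotangentSpace A))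
    (hR : ∀ n, ∃ m, n ≤ m ∧ QN.{v, y} (B ⧸ (blk B b ⊔ maximalIdeal B ^ m))) : False := by
  have hfree : Module.Free B N := free2 A B p H N πN hπ s0 b hb (by omega) hR
  have hfN : Module.Finite A N := finN H hπ
  have hfB : Module.Finite A B := by
    obtain ⟨n, hn⟩ := exists_ne (0 : N)
    let bs := Module.Free.chooseBasis B N
    have : ∃ i, bs.repr n i ≠ 0 := by
      by_contra h
      push Not at h
      exact hn (bs.repr.injective (by ext i; simp [h]))
    obtain ⟨i, -⟩ := this
    let f : N →ₗ[A] B := (bs.coord i).restrictScalars A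
    refine Module.Finite.of_surjective f fun c => ⟨c • bs i, ?_⟩
    show bs.coord i (c • bs i) = c
    simp
  obtain ⟨n, hn⟩ := nilp A B (fun c hc => loc_of N c hc)
  obtain ⟨m, hm, hQ⟩ := hR n
  have hle : blk B b ⊔ maximalIdeal B ^ m ≤ blk B b ⊔ Ideal.map (algebraMap A B) (maximalIdeal A ^ 2) :=
    sup_le_sup_left (hn m hm) _
  obtain ⟨R, _, _, _, _, _, t1, t2, q1, ht, hnp, hq1⟩ :=
    hQ.of_surj (Ideal.Quotient.factor hle) (Ideal.Quotient.factor_surjective hle)
  exact (fin2 A B p H N πN hπ s0 b hb R t1 t2 ht hnp q1 hq1).2 hdim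

end Pool.Agent.Helper34.FB
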