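import Pool.Agent.Helper26.DA.Defs

/-!
# Project FB (MP_05c055_al): freeness when the closed fibre has embedding dimension at most two
Definitions.  See PROOF.md in this folder for the mathematics.
-/

set_option autoImplicit false

namespace Pool.Agent.Helper34.FB

open IsLocalRing Pool.Agent.Helper26.DA

universe u v w x

/-- `g ⊗ x = 0` in `m ⊗ U` -/
def AH {R : Type u} {W : Type v} [CommRing R] [AddCommGroup W] [Module R W] (t1 t2 : R)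
    (U : Submodule R W) (x : W) (g : R) : Prop :=
  ∃ g1 g2 : R, ∃ v ∈ U, g = t1 * g1 + t2 * g2 ∧ g1 • x = -(t2 • v) ∧ g2 • x = t1 • v

/-- `t1, t2` is a regular sequence (Koszul exactness) -/
def REG {R : Type u} [CommRing R] (t1 t2 : R) : Prop :=
  ∀ a b : R, t1 * a + t2 * b = 0 → ∃ c : R, a = -(t2 * c) ∧ b = t1 * c

/-- the product `h 0 ∘ h 1 ∘ ⋯ ∘ h (n-1)` -/
def hp {W : Type v} [AddCommGroup W] : (n : ℕ) → (Fin n → W →+ W) → W →+ W
  | 0, _ => AddMonoidHom.id W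
  | (n + 1), h => (h 0).comp (hp n fun i => h i.succ)

/-- elements of `N` whose image under `d` is in `m N` -/
def Zg {A : Type u} [CommRing A] [IsLocalRing A] {N : Type v} [AddCommGroup N] [Module A N]
    (d : N →ₗ[A] N) : Submodule A N :=
  (maximalIdeal A • (⊤ : Submodule A N)).comap d

/-- `d N + m N` -/
def Bg {A : Type u} [CommRing A] [IsLocalRing A] {N : Type v} [AddCommGroup N] [Module A N]
    (d : N →ₗ[A] N) : Submodule A N :=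
  LinearMap.range d ⊔ maximalIdeal A • (⊤ : Submodule A N)

/-- the homology of `N ⊗ k` (if `d d = 0`) -/
abbrev Vg {A : Type u} [CommRing A] [IsLocalRing A] {N : Type v} [AddCommGroup N] [Module A N]
    (d : N →ₗ[A] N) : Type v :=
  ↥(Zg d) ⧸ (Bg d).comap (Zg d).subtype

/-- The linear algebra of a minimal complex with a derived action: the part `W = F ⊗ k`.
`f l = t1 * f1 l + t2 * f2 l`. -/
structure Sys1 (R : Type u) [CommRing R] (t1 t2 : R) (J : Type) [Fintype J] (f1 f2 : J → R)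
    (p : ℕ) where
  /-- the total space -/
  W : Type v
  [grpW : AddCommGroup W]
  [modW : Module R W]
  /-- the homogeneous components -/
  gr : ℕ → Submodule R W
  /-- a subgroup which contains the values of `s`, `h`, and the operators `K` -/
  T : AddSubgroup W
  /-- projection to degree zero -/
  pr : W →ₗ[R] W
  D : J → W →ₗ[R] W
  s : W →+ W
  h : J → W →+ W
  D_gr : ∀ j i, ∀ w ∈ gr (i + 1), D j w ∈ gr i
  D_zero : ∀ j, ∀ w ∈ gr 0, D j w = 0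
  gr_top : ∀ i, p < i → ∀ w ∈ gr i, w = 0
  pr_mem : ∀ w, pr w ∈ gr 0
  pr_id : ∀ w ∈ gr 0, pr w = w
  pr_T : ∀ w ∈ T, pr w = 0
  s_gr : ∀ i, ∀ w ∈ gr i, s w ∈ gr (i + 1)
  h_gr : ∀ l i, ∀ w ∈ gr i, h l w ∈ gr (i + 1)
  s_T : ∀ w, s w ∈ T
  h_T : ∀ l w, h l w ∈ T
  kap : ∀ (i : ℕ) (y : J → W) (v : W), (∀ l, y l ∈ gr i) → v ∈ gr i →
    ∑ l, f1 l • y l = -(t2 • v) → ∑ l, f2 l • y l = t1 • v → ∀ j, ∃ a b : W,
      D j (∑ l, h l (y l) - s v) = y j - (∑ l, h l (D j (y l)) - s (D j v)) + (t1 • a + t2 • b)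
  kop : ∀ c : J → R, ∑ l, c l * (t1 * f1 l + t2 * f2 l) = 0 → ∃ K : W →+ W,
    (∀ i, ∀ w ∈ gr i, K w ∈ gr (i + 1)) ∧ (∀ w, K w ∈ T) ∧
    ∀ j w, D j (K w) + K (D j w) = c j • w

attribute [instance] Sys1.grpW Sys1.modW

/-- The full linear algebra: also the part `W' = H(F' ⊗ k)`, `F' = m ⊗ F`. -/
structure Sys (R : Type u) [CommRing R] (t1 t2 : R) (J : Type) [Fintype J] (f1 f2 : J → R)
    (p : ℕ) extends Sys1.{u, v} R t1 t2 J f1 f2 p where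
  W' : Type v
  [grpW' : AddCommGroup W']
  gr' : ℕ → AddSubgroup W'
  D' : J → W' →+ W'
  ι : W × W →+ W'
  θ : W' →+ W
  ι_D : ∀ j u v, D' j (ι (u, v)) = ι (D j u, D j v)
  ι_ker : ∀ i, ∀ u ∈ gr i, ∀ v ∈ gr i, ι (u, v) = 0 → ∃ y ∈ gr i, u = -(t2 • y) ∧ v = t1 • y
  θ_ker : ∀ i, ∀ y ∈ gr' i, θ y = 0 → ∃ u ∈ gr i, ∃ v ∈ gr i, y = ι (u, v)
  hop : ∀ (c1 c2 : J → R) (ψ : R), ∑ l, c1 l * (t1 * f1 l + t2 * f2 l) = -(t2 * ψ) →
    ∑ l, c2 l * (t1 * f1 l + t2 * f2 l) = t1 * ψ → ∃ (Hh : W →+ W') (H : W →+ W),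
      (∀ i, ∀ y ∈ gr i, Hh y ∈ gr' (i + 1)) ∧ (∀ i, ∀ y ∈ gr i, H y ∈ gr (i + 1)) ∧
      (∀ j y, D' j (Hh y) + Hh (D j y) = ι (c1 j • y, c2 j • y)) ∧
      (∀ j y, D j (H y) + H (D j y) = (t1 * c1 j + t2 * c2 j) • y) ∧
      (∀ y, θ (Hh y) = ψ • y) ∧
      (∀ i, ∀ a ∈ gr i, ∀ b ∈ gr i, ∃ a' ∈ gr (i + 1), ∃ b' ∈ gr (i + 1),
        H (t1 • a + t2 • b) = t1 • a' + t2 • b') ∧
      ∀ a ∈ gr p, ∀ b ∈ gr p, Hh (t1 • a + t2 • b) = 0

attribute [instance] Sys.grpW'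

/-- words in the operators `D`; the last letter acts first -/
def Dw {R : Type u} [CommRing R] {t1 t2 : R} {J : Type} [Fintype J] {f1 f2 : J → R} {p : ℕ}
    (S : Sys1.{u, v} R t1 t2 J f1 f2 p) : List J → S.W →ₗ[R] S.W
  | [] => LinearMap.id
  | (j :: L) => S.D j ∘ₗ Dw S L

/-- elements of positive degree with value in the ideal, see `G_CLIMB` -/
def HYP {R : Type u} [CommRing R] {t1 t2 : R} {e s : ℕ} {f1 f2 : Fin e ⊕ Fin s → R} {p : ℕ}
    (S : Sys1.{u, v} R t1 t2 (Fin e ⊕ Fin s) f1 f2 p) : Prop :=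
  ∀ (m : Fin e) (i : ℕ), s + 1 ≤ i → ∀ y ∈ S.gr i, ∃ v ∈ S.gr i,
    f1 (Sum.inl m) • y = -(t2 • v) ∧ f2 (Sum.inl m) • y = t1 • v

/-- Homotopy action on a finite free graded complex (total space version). -/
structure HA (A : Type u) (B : Type v) [CommRing A] [CommRing B] [Algebra A B] (p : ℕ) where
  M : Type w
  [grpM : AddCommGroup M]
  [modM : Module A M]
  [finM : Module.Finite A M]
  [freeM : Module.Free A M]
  /-- projections to the homogeneous components -/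
  pr : ℕ → M →ₗ[A] M
  pr_pr : ∀ i z, pr i (pr i z) = pr i z
  pr_ne : ∀ i j, i ≠ j → ∀ z, pr i (pr j z) = 0
  pr_top : ∀ i, p < i → ∀ z, pr i z = 0
  pr_sum : ∀ z, z = ∑ i ∈ Finset.range (p + 1), pr i z
  d : M →ₗ[A] M
  dd : ∀ z, d (d z) = 0
  d_pr : ∀ i z, d (pr (i + 1) z) = pr i (d z)
  d_zero : ∀ z, d (pr 0 z) = 0
  ρ : B → M →ₗ[A] M
  ρ_pr : ∀ b i z, ρ b (pr i z) = pr i (ρ b z)
  ρ_d : ∀ b z, d (ρ b z) = ρ b (d z)
  one : ∃ η : M →ₗ[A] M, (∀ i z, η (pr i z) = pr (i + 1) (η z)) ∧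
    ∀ z, ρ 1 z - z = d (η z) + η (d z)
  add : ∀ b c, ∃ η : M →ₗ[A] M, (∀ i z, η (pr i z) = pr (i + 1) (η z)) ∧
    ∀ z, ρ (b + c) z - (ρ b z + ρ c z) = d (η z) + η (d z)
  mul : ∀ b c, ∃ η : M →ₗ[A] M, (∀ i z, η (pr i z) = pr (i + 1) (η z)) ∧
    ∀ z, ρ (b * c) z - ρ b (ρ c z) = d (η z) + η (d z)
  alg : ∀ a : A, ∃ η : M →ₗ[A] M, (∀ i z, η (pr i z) = pr (i + 1) (η z)) ∧
    ∀ z, ρ (algebraMap A B a) z - a • z = d (η z) + η (d z)

attribute [instance] HA.grpM HA.modM HA.finM HA.freeM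

section
variable {A : Type u} {B : Type v} [CommRing A] [CommRing B] [Algebra A B] {p : ℕ}

/-- null homotopic -/
def NullH (H : HA.{u, v, w} A B p) (f : H.M →ₗ[A] H.M) : Prop :=
  ∃ η : H.M →ₗ[A] H.M, (∀ i z, η (H.pr i z) = H.pr (i + 1) (η z)) ∧
    ∀ z, f z = H.d (η z) + η (H.d z)

/-- `N` is the `B`-module `H_0`, with projection `π` -/
def IsH0 (H : HA.{u, v, w} A B p) {N : Type x} [AddCommGroup N] [Module A N] [Module B N]
    (π : H.M →ₗ[A] N) : Prop :=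
  (∀ b z, π (H.ρ b (H.pr 0 z)) = b • π (H.pr 0 z)) ∧ (∀ n, ∃ z, π (H.pr 0 z) = n) ∧
  (∀ z, π (H.pr 0 z) = 0 ↔ ∃ y, H.pr 0 z = H.d (H.pr 1 y)) ∧ ∀ i z, π (H.pr (i + 1) z) = 0

/-- the data of `W = M / m M` with the `R`-module structure and the operators `D` given by `H` -/
structure Cls [IsLocalRing A] (H : HA.{u, v, w} A B p) {e0 : ℕ} (a : Fin e0 → A) {J : Type} [Fintype J]
    (emb : J → Fin e0) {R : Type x} [CommRing R] {aa : Ideal B} (q : R →+* B ⧸ aa) {t1 t2 : R}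
    {f1 f2 : J → R} (S : Sys1.{x, w} R t1 t2 J f1 f2 p) (cls : H.M →+ S.W) : Prop where
  surj : Function.Surjective cls
  ker : ∀ z, cls z = 0 ↔ z ∈ maximalIdeal A • (⊤ : Submodule A H.M)
  smul : ∀ (g : R) (b : B) (z : H.M), q g = Ideal.Quotient.mk aa b → g • cls z = cls (H.ρ b z)
  gr : ∀ i w, w ∈ S.gr i ↔ ∃ z, w = cls (H.pr i z)
  D : ∀ (z : H.M) (y : Fin e0 → H.M), H.d z = ∑ l, a l • y l → ∀ j, S.D j (cls z) = cls (y (emb j))

/-- minimality -/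
def HA.Min [IsLocalRing A] (H : HA.{u, v, w} A B p) : Prop :=
  ∀ z, H.d z ∈ maximalIdeal A • (⊤ : Submodule A H.M)

/-- the ideal of `B` generated by the images of the `b i` -/
def blk (B : Type v) [CommRing B] [Algebra A B] {s0 : ℕ} (b : Fin s0 → A) : Ideal B :=
  Ideal.span (Set.range fun i => algebraMap A B (b i))

end

end Pool.Agent.Helper34.FB
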