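import Pool.Agent.Helper34.FB.All0

/-!
# Project FB: the final statement, from `G_MAIN`
-/

set_option autoImplicit false

namespace Pool.Agent.Helper34.FB

open IsLocalRing Pool.Agent.Helper26.DA

universe u v w x y

/-- the structure map is local, if `H_0(F)` is not zero -/
theorem loc_act {A : Type u} [CommRing A] [IsLocalRing A] {B : Type v} [CommRing B]
    [IsLocalRing B] [Algebra A B] (F : FC A) (act : DAct A B F) (hH : LinearMap.range (F.d 0) ≠ ⊤)
    (a : A) (ha : a ∈ maximalIdeal A) : algebraMap A B a ∈ maximalIdeal B := by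
  rw [mem_maximalIdeal, mem_nonunits_iff]
  rintro ⟨u, hu⟩
  apply hH
  have h1 : (⊤ : Submodule A (Fin (F.r 0) → A)) ≤ LinearMap.range (F.d 0) ⊔ maximalIdeal A • (⊤ : Submodule A _) := by
    intro z _
    obtain ⟨s1, h1, -⟩ := act.one
    obtain ⟨s2, h2, -⟩ := act.mul (algebraMap A B a) ((u⁻¹ : Bˣ) : B)
    obtain ⟨s3, h3, -⟩ := act.alg a
    have e1 : algebraMap A B a * ((u⁻¹ : Bˣ) : B) = 1 := by rw [← hu, Units.mul_inv]
    have h1' := h1 z
    have h2' := h2 z
    have h3' := h3 (act.ρ ((u⁻¹ : Bˣ) : B) 0 z)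
    rw [e1] at h2'
    have e2 : z = F.d 0 (s2 0 z) + F.d 0 (s3 0 (act.ρ ((u⁻¹ : Bˣ) : B) 0 z)) - F.d 0 (s1 0 z) +
        a • (act.ρ ((u⁻¹ : Bˣ) : B) 0 z) := by
      rw [← h1', ← h2', ← h3']
      simp only [Pi.mul_apply, Module.End.mul_apply, Pi.smul_apply, Pi.one_apply, LinearMap.smul_apply,
        Module.End.one_apply]
      abel
    rw [e2]
    refine Submodule.add_mem _ (Submodule.mem_sup_left ?_) (Submodule.mem_sup_right ?_)
    · exact Submodule.sub_mem _ (Submodule.add_mem _ ⟨_, rfl⟩ ⟨_, rfl⟩) ⟨_, rfl⟩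
    · exact Submodule.smul_mem_smul ha trivial
  rw [eq_top_iff]
  refine Submodule.le_of_le_smul_of_le_jacobson_bot (Module.Finite.fg_top) ?_ h1
  rw [IsLocalRing.jacobson_eq_maximalIdeal _ bot_ne_top]

/-- if `m_R` is principal then `edim B ≤ s + 1` -/
theorem edim_le {A : Type u} [CommRing A] [IsLocalRing A] {B : Type v} [CommRing B]
    [IsLocalRing B] [IsNoetherianRing B] [Algebra A B] (s : ℕ) (b : Fin s → A)
    (hb : ∀ i, algebraMap A B (b i) ∈ maximalIdeal B)
    {R : Type w} [CommRing R] [IsLocalRing R] (hR : (maximalIdeal R).IsPrincipal)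
    (q : R →+* B ⧸ blk B b) (hq : Function.Surjective q) :
    Module.finrank (ResidueField B) (CotangentSpace B) ≤ s + 1 := by
  classical
  obtain ⟨t, ht⟩ := hR
  have hbm : blk B b ≤ maximalIdeal B := by
    rw [blk, Ideal.span_le]
    rintro _ ⟨i, rfl⟩
    exact hb i
  obtain ⟨T, hT⟩ := Ideal.Quotient.mk_surjective (q t)
  have h1 : maximalIdeal B = Submodule.span B (insert T (Set.range fun i => algebraMap A B (b i))) := by
    apply le_antisymm
    · intro x hx
      obtain ⟨c, hc⟩ := hq (Ideal.Quotient.mk _ x)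
      have hcm : c ∈ maximalIdeal R := (q_loc hbm q hq hc).2 hx
      rw [ht, Submodule.mem_span_singleton] at hcm
      obtain ⟨c', rfl⟩ := hcm
      obtain ⟨d, hd⟩ := Ideal.Quotient.mk_surjective (q c')
      have h2 : x - d * T ∈ blk B b := by
        rw [← Ideal.Quotient.eq_zero_iff_mem, map_sub, map_mul, hT, hd, ← map_mul, ← hc, smul_eq_mul, sub_self]
      have h3 : x = (x - d * T) + d • T := by rw [smul_eq_mul]; ring
      rw [h3]
      refine Submodule.add_mem _ ?_ ?_
      · exact Submodule.span_mono (Set.subset_insert _ _) h2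
      · exact Submodule.smul_mem _ _ (Submodule.subset_span (Set.mem_insert _ _))
    · rw [Submodule.span_le]
      rintro y (rfl | ⟨i, rfl⟩)
      · refine (q_loc hbm q hq hT.symm).1 ?_
        rw [ht]
        exact Submodule.mem_span_singleton_self t
      · exact hb i
  rw [← IsLocalRing.spanFinrank_maximalIdeal_eq_finrank_cotangentSpace, h1]
  refine (Submodule.spanFinrank_span_le_ncard_of_finite ?_).trans ?_
  · exact (Set.finite_range _).insert _
  · refine (Set.ncard_insert_le _ _).trans ?_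
    have h2 : (Set.range fun i => algebraMap A B (b i)).ncard ≤ s := by
      have := Set.ncard_image_le (f := fun i => algebraMap A B (b i)) (Set.finite_univ (α := Fin s))
      rw [Set.image_univ, Set.ncard_univ, Nat.card_fin] at this
      exact this
    omega

theorem final (hM : G_MAIN.{u, v, w}) {A : Type u} [CommRing A] [IsLocalRing A] [IsNoetherianRing A]
    {B : Type v} [CommRing B] [IsLocalRing B] [IsNoetherianRing B] [Algebra A B] (F : FC A) (act : DAct A B F)
    (p : ℕ) (hF : ∀ i, p < i → F.r i = 0) (hH : LinearMap.range (F.d 0) ≠ ⊤)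
    (hpe : p + Module.finrank (ResidueField B) (CotangentSpace B) ≤
      Module.finrank (ResidueField A) (CotangentSpace A))
    (s : ℕ) (b : Fin s → A) (hb : ∀ i, b i ∈ maximalIdeal A)
    (hs : s + 2 ≤ Module.finrank (ResidueField B) (CotangentSpace B))
    {R : Type w} [CommRing R] [IsDomain R] [UniqueFactorizationMonoid R] [IsNoetherianRing R] [IsLocalRing R]
    (x y : R) (hxy : maximalIdeal R = Ideal.span {x, y})
    (q : R →+* B ⧸ Ideal.span (Set.range fun i => algebraMap A B (b i))) (hq : Function.Surjective q) :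
    ∃ (n : ℕ) (e : (Fin n → B) ≃+ ((Fin (F.r 0) → A) ⧸ LinearMap.range (F.d 0))),
      ∀ (c : B) (x : Fin n → B) (z : Fin (F.r 0) → A), e x = (LinearMap.range (F.d 0)).mkQ z →
        e (c • x) = (LinearMap.range (F.d 0)).mkQ (act.ρ c 0 z) := by
  refine hM A B F act p hF hH s b hb (by omega) R x y hxy ?_ q hq
  intro hp
  have := edim_le (B := B) s b (fun i => loc_act F act hH _ (hb i)) hp q hq
  omega

end Pool.Agent.Helper34.FB
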