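import Pool.Agent.Helper34.FB.Asm5

/-!
# Project FB: the final statement, with the equality `edim A = p + edim B`
-/

set_option autoImplicit false

namespace Pool.Agent.Helper34.FB

open IsLocalRing Pool.Agent.Helper26.DA Helper4.FB

universe u v w x y

theorem strict_main (A : Type u) [CommRing A] [IsLocalRing A] [IsNoetherianRing A] (B : Type v) [CommRing B]
    [IsLocalRing B] [IsNoetherianRing B] [Algebra A B] (F : FC A) (act : DAct A B F) (p : ℕ)
    (hp : ∀ i, p < i → F.r i = 0) (hne : LinearMap.range (F.d 0) ≠ ⊤)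
    (s0 : ℕ) (b : Fin s0 → A) (hb : ∀ i, b i ∈ maximalIdeal A)
    (hdim : p + 3 + s0 ≤ Module.finrank (ResidueField A) (CotangentSpace A))
    (R : Type w) [CommRing R] [IsDomain R] [UniqueFactorizationMonoid R] [IsNoetherianRing R] [IsLocalRing R]
    (t1 t2 : R) (hm : maximalIdeal R = Ideal.span {t1, t2}) (hnp : ¬ (maximalIdeal R).IsPrincipal)
    (q : R →+* B ⧸ blk B b) (hq : Function.Surjective q) : False := by
  let _ : Module B (Cok F) := cMod act
  have : IsScalarTower A B (Cok F) := by
    refine ⟨fun a b n => ?_⟩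
    change cAct act (a • b) n = a • cAct act b n
    rw [← cMod_alg act a, Algebra.smul_def]
    exact mul_smul (algebraMap A B a) b n
  have : Nontrivial (Cok F) := Submodule.Quotient.nontrivial_iff.2 hne
  have hH0 : IsH0 (tHA act hp) (N := Cok F)
      ((LinearMap.range (F.d 0)).mkQ ∘ₗ LinearMap.proj 0) := by
    refine ⟨fun b z => ?_, fun n => ?_, fun z => ?_, fun i z => ?_⟩
    · change (LinearMap.range (F.d 0)).mkQ (tF F (act.ρ b) (tPr F 0 z) 0) =
        cAct act b ((LinearMap.range (F.d 0)).mkQ (tPr F 0 z 0))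
      rw [tF_apply, cAct_mk]
    · obtain ⟨z, rfl⟩ := Submodule.mkQ_surjective _ n
      refine ⟨LinearMap.single A (fun i : ℕ => Fin (F.r i) → A) 0 z, ?_⟩
      change (LinearMap.range (F.d 0)).mkQ
        (tPr F 0 (LinearMap.single A (fun i : ℕ => Fin (F.r i) → A) 0 z) 0) = _
      rw [tPr_same]
      simp
    · change (LinearMap.range (F.d 0)).mkQ (tPr F 0 z 0) = 0 ↔
        ∃ y : Tot F, tPr F 0 z = tD F (tPr F 1 y)
      rw [tPr_same]
      constructor
      · intro h
        obtain ⟨y, hy⟩ := (Submodule.Quotient.mk_eq_zero _).1 h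
        refine ⟨LinearMap.single A (fun i : ℕ => Fin (F.r i) → A) 1 y, ?_⟩
        funext j
        rw [tD_apply]
        cases j with
        | zero =>
          rw [tPr_same, tPr_same, ← hy]
          simp
        | succ j => rw [tPr_ne (by omega), tPr_ne (by omega), map_zero]
      · rintro ⟨y, hy⟩
        have h := congrFun hy 0
        rw [tPr_same, tD_apply, tPr_same] at h
        rw [h]
        exact (Submodule.Quotient.mk_eq_zero _).2 ⟨_, rfl⟩
    · change (LinearMap.range (F.d 0)).mkQ (tPr F (i + 1) z 0) = 0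
      rw [tPr_ne (by omega), map_zero]
  exact strict_all A B p (tHA act hp) (Cok F) _ hH0 s0 b hb hdim R t1 t2 hm hnp q hq

/-- the final theorem -/
theorem final2 {A : Type u} [CommRing A] [IsLocalRing A] [IsNoetherianRing A]
    {B : Type v} [CommRing B] [IsLocalRing B] [IsNoetherianRing B] [Algebra A B] (F : FC A) (act : DAct A B F)
    (p : ℕ) (hF : ∀ i, p < i → F.r i = 0) (hH : LinearMap.range (F.d 0) ≠ ⊤)
    (hpe : p + Module.finrank (ResidueField B) (CotangentSpace B) ≤
      Module.finrank (ResidueField A) (CotangentSpace A))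
    (s : ℕ) (b : Fin s → A) (hb : ∀ i, b i ∈ maximalIdeal A)
    (hs : s + 2 ≤ Module.finrank (ResidueField B) (CotangentSpace B))
    {R : Type w} [CommRing R] [IsDomain R] [UniqueFactorizationMonoid R] [IsNoetherianRing R] [IsLocalRing R]
    (x y : R) (hxy : maximalIdeal R = Ideal.span {x, y})
    (q : R →+* B ⧸ Ideal.span (Set.range fun i => algebraMap A B (b i))) (hq : Function.Surjective q) :
    (∃ (n : ℕ) (e : (Fin n → B) ≃+ ((Fin (F.r 0) → A) ⧸ LinearMap.range (F.d 0))),
      ∀ (c : B) (v : Fin n → B) (z : Fin (F.r 0) → A), e v = (LinearMap.range (F.d 0)).mkQ z →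
        e (c • v) = (LinearMap.range (F.d 0)).mkQ (act.ρ c 0 z)) ∧
    Module.finrank (ResidueField A) (CotangentSpace A) =
      p + Module.finrank (ResidueField B) (CotangentSpace B) := by
  have hnp : ¬ (maximalIdeal R).IsPrincipal := by
    intro hp
    have := edim_le (B := B) s b (fun i => loc_act F act hH _ (hb i)) hp q hq
    omega
  refine ⟨final gMAIN F act p hF hH hpe s b hb hs x y hxy q hq, ?_⟩
  by_contra hne
  exact strict_main A B F act p hF hH s b hb (by omega) R x y hxy hnp q hq

end Pool.Agent.Helper34.FB
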