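import Pool.Agent.Helper26.DA.Defs

/-!
# Project FB: definitions for the final statements
-/

set_option autoImplicit false

namespace Pool.Agent.Helper34.FB

open IsLocalRing Pool.Agent.Helper26.DA

universe u v w

/-- the embedding dimension of a local ring -/
noncomputable def edim (A : Type u) [CommRing A] [IsLocalRing A] : ℕ :=
  Module.finrank (ResidueField A) (CotangentSpace A)

/-- the homology `H_0(F)`, the cokernel of `d_0 : F_1 → F_0` -/
def H0 {A : Type u} [CommRing A] (F : FC A) : Type u :=
  (Fin (F.r 0) → A) ⧸ LinearMap.range (F.d 0)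

/-- `H_0(F)` is an additive group -/
instance {A : Type u} [CommRing A] (F : FC A) : AddCommGroup (H0 F) :=
  inferInstanceAs (AddCommGroup ((Fin (F.r 0) → A) ⧸ LinearMap.range (F.d 0)))

/-- the class in `H_0(F)` of an element of `F_0` -/
def H0.cl {A : Type u} [CommRing A] (F : FC A) (z : Fin (F.r 0) → A) : H0 F :=
  (LinearMap.range (F.d 0)).mkQ z

/-- `H_0(F)` is a free `B`-module (of finite rank) for the action `b [z] = [ρ_b z]`: there is an
additive bijection `e` of `B^n` with `H_0(F)` such that `e (b v) = b e (v)`. -/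
def FreeH0 {A : Type u} {B : Type v} [CommRing A] [CommRing B] [Algebra A B] {F : FC A}
    (act : DAct A B F) : Prop :=
  ∃ (n : ℕ) (e : (Fin n → B) ≃+ H0 F),
    ∀ (b : B) (v : Fin n → B) (z : Fin (F.r 0) → A), e v = H0.cl F z → e (b • v) = H0.cl F (act.ρ b 0 z)

/-- `C` is a quotient of a regular local ring of dimension at most two: of a noetherian local
factorial domain whose maximal ideal is generated by two elements -/
def QReg2 (C : Type v) [CommRing C] : Prop :=
  ∃ (R : Type w) (_ : CommRing R) (_ : IsDomain R) (_ : UniqueFactorizationMonoid R)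
    (_ : IsNoetherianRing R) (_ : IsLocalRing R) (x y : R) (q : R →+* C),
    maximalIdeal R = Ideal.span {x, y} ∧ Function.Surjective q

/-- the ring `B / (b B + m_B ^ n)` -/
abbrev Quo {A : Type u} (B : Type v) [CommRing A] [CommRing B] [IsLocalRing B] [Algebra A B] {s : ℕ}
    (b : Fin s → A) (n : ℕ) : Type v :=
  B ⧸ (Ideal.span (Set.range fun i => algebraMap A B (b i)) ⊔ maximalIdeal B ^ n)

end Pool.Agent.Helper34.FB
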