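import Pool.Agent.Helper34.FB.Asm7
import Pool.Agent.Helper34.FB.H0

/-!
# Project FB: the final statement, in the strongest form
-/

set_option autoImplicit false

namespace Pool.Agent.Helper34.FB

open IsLocalRing Pool.Agent.Helper26.DA Helper4.FB

universe u v w x y

theorem edim_le2 {A : Type u} [CommRing A] [IsLocalRing A] {B : Type v} [CommRing B]
    [IsLocalRing B] [IsNoetherianRing B] [Algebra A B] (s : ℕ) (b : Fin s → A)
    (hb : ∀ i, algebraMap A B (b i) ∈ maximalIdeal B) (m : ℕ) (hm2 : 2 ≤ m)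
    {R : Type w} [CommRing R] [IsLocalRing R] (hR : (maximalIdeal R).IsPrincipal)
    (q : R →+* B ⧸ (blk B b ⊔ maximalIdeal B ^ m)) (hq : Function.Surjective q) : edim B ≤ s + 1 := by
  classical
  obtain ⟨t, ht⟩ := hR
  have hb0 : blk B b ≤ maximalIdeal B := by
    rw [blk, Ideal.span_le]
    rintro _ ⟨i, rfl⟩
    exact hb i
  have hbm : blk B b ⊔ maximalIdeal B ^ m ≤ maximalIdeal B :=
    sup_le hb0 (Ideal.pow_le_self (by omega))
  obtain ⟨T, hT⟩ := Ideal.Quotient.mk_surjective (q t)
  set P : Submodule B B := Submodule.span B (insert T (Set.range fun i => algebraMap A B (b i))) with hP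
  have h0 : maximalIdeal B ≤ P ⊔ maximalIdeal B • maximalIdeal B := by
    intro x hx
    obtain ⟨c, hc⟩ := hq (Ideal.Quotient.mk _ x)
    have hcm : c ∈ maximalIdeal R := (q_loc hbm q hq hc).2 hx
    rw [ht, Submodule.mem_span_singleton] at hcm
    obtain ⟨c', rfl⟩ := hcm
    obtain ⟨d, hd⟩ := Ideal.Quotient.mk_surjective (q c')
    have h2 : x - d * T ∈ blk B b ⊔ maximalIdeal B ^ m := by
      rw [← Ideal.Quotient.eq_zero_iff_mem, map_sub, map_mul, hT, hd, ← map_mul, ← hc, smul_eq_mul, sub_self]
    have h3 : x = (x - d * T) + d • T := by rw [smul_eq_mul]; ring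
    rw [h3]
    refine Submodule.add_mem _ ?_ (Submodule.mem_sup_left ?_)
    · refine (sup_le_sup ?_ ?_ : blk B b ⊔ maximalIdeal B ^ m ≤ P ⊔ maximalIdeal B • maximalIdeal B) h2
      · exact Submodule.span_mono (Set.subset_insert _ _)
      · rw [smul_eq_mul, ← pow_two]
        exact Ideal.pow_le_pow_right hm2
    · exact Submodule.smul_mem _ _ (Submodule.subset_span (Set.mem_insert _ _))
  have h1 : maximalIdeal B = P := by
    apply le_antisymm
    · refine Submodule.le_of_le_smul_of_le_jacobson_bot (IsNoetherian.noetherian _) ?_ h0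
      rw [IsLocalRing.jacobson_eq_maximalIdeal _ bot_ne_top]
    · rw [hP, Submodule.span_le]
      rintro y (rfl | ⟨i, rfl⟩)
      · refine (q_loc hbm q hq hT.symm).1 ?_
        rw [ht]
        exact Submodule.mem_span_singleton_self t
      · exact hb i
  rw [edim, ← IsLocalRing.spanFinrank_maximalIdeal_eq_finrank_cotangentSpace, h1, hP]
  refine (Submodule.spanFinrank_span_le_ncard_of_finite ?_).trans ?_
  · exact (Set.finite_range _).insert _
  · refine (Set.ncard_insert_le _ _).trans ?_
    have h2 : (Set.range fun i => algebraMap A B (b i)).ncard ≤ s := by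
      have := Set.ncard_image_le (f := fun i => algebraMap A B (b i)) (Set.finite_univ (α := Fin s))
      rw [Set.image_univ, Set.ncard_univ, Nat.card_fin] at this
      exact this
    omega

/-- the final theorem -/
theorem final3 {A : Type u} [CommRing A] [IsLocalRing A] [IsNoetherianRing A]
    {B : Type v} [CommRing B] [IsLocalRing B] [IsNoetherianRing B] [Algebra A B] (F : FC A) (act : DAct A B F)
    (p : ℕ) (hp : ∀ i, p < i → F.r i = 0) (hne : LinearMap.range (F.d 0) ≠ ⊤)
    (hpe : p + edim B ≤ edim A)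
    (s : ℕ) (b : Fin s → A) (hb : ∀ i, b i ∈ maximalIdeal A) (hs : s + 2 ≤ edim B)
    (hQ : ∀ n, QReg2.{v, w} (Quo B b n)) :
    FreeH0 act ∧ edim A = p + edim B := by
  have hR : ∀ n, ∃ m, n ≤ m ∧ QN.{v, w} (B ⧸ (blk B b ⊔ maximalIdeal B ^ m)) := by
    intro n
    refine ⟨n + 2, by omega, ?_⟩
    obtain ⟨R, i1, i2, i3, i4, i5, x, y, q, h1, h2⟩ := hQ (n + 2)
    refine ⟨R, i1, i2, i3, i4, i5, x, y, q, h1, ?_, h2⟩
    intro hpr
    have := edim_le2 (B := B) s b (fun i => loc_act F act hne _ (hb i)) (n + 2) (by omega) hpr q h2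
    omega
  let _ : Module B (Cok F) := cMod act
  have : IsScalarTower A B (Cok F) := by
    refine ⟨fun a b n => ?_⟩
    change cAct act (a • b) n = a • cAct act b n
    rw [← cMod_alg act a, Algebra.smul_def]
    exact mul_smul (algebraMap A B a) b n
  have : Nontrivial (Cok F) := Submodule.Quotient.nontrivial_iff.2 hne
  have hH0 : IsH0 (tHA act hp) (N := Cok F)
      ((LinearMap.range (F.d 0)).mkQ ∘ₗ LinearMap.proj 0) := by
    refine ⟨fun b z => ?_, fun n => ?_, fun z => ?_, fun i z => ?_⟩
    · change (LinearMap.range (F.d 0)).mkQ (tF F (act.ρ b) (tPr F 0 z) 0) =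
        cAct act b ((LinearMap.range (F.d 0)).mkQ (tPr F 0 z 0))
      rw [tF_apply, cAct_mk]
    · obtain ⟨z, rfl⟩ := Submodule.mkQ_surjective _ n
      refine ⟨LinearMap.single A (fun i : ℕ => Fin (F.r i) → A) 0 z, ?_⟩
      change (LinearMap.range (F.d 0)).mkQ
        (tPr F 0 (LinearMap.single A (fun i : ℕ => Fin (F.r i) → A) 0 z) 0) = _
      rw [tPr_same]
      simp
    · change (LinearMap.range (F.d 0)).mkQ (tPr F 0 z 0) = 0 ↔
        ∃ y : Tot F, tPr F 0 z = tD F (tPr F 1 y)
      rw [tPr_same]
      constructor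
      · intro h
        obtain ⟨y, hy⟩ := (Submodule.Quotient.mk_eq_zero _).1 h
        refine ⟨LinearMap.single A (fun i : ℕ => Fin (F.r i) → A) 1 y, ?_⟩
        funext j
        rw [tD_apply]
        cases j with
        | zero =>
          rw [tPr_same, tPr_same, ← hy]
          simp
        | succ j => rw [tPr_ne (by omega), tPr_ne (by omega), map_zero]
      · rintro ⟨y, hy⟩
        have h := congrFun hy 0
        rw [tPr_same, tD_apply, tPr_same] at h
        rw [h]
        exact (Submodule.Quotient.mk_eq_zero _).2 ⟨_, rfl⟩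
    · change (LinearMap.range (F.d 0)).mkQ (tPr F (i + 1) z 0) = 0
      rw [tPr_ne (by omega), map_zero]
  constructor
  · have hfree : Module.Free B (Cok F) :=
      free2 A B p (tHA act hp) (Cok F) _ hH0 s b hb (show p + 2 + s ≤ edim A by omega) hR
    have : Module.Finite B (Cok F) := Module.Finite.of_restrictScalars_finite A B (Cok F)
    refine ⟨Module.finrank B (Cok F), (Module.finBasis B (Cok F)).equivFun.symm.toAddEquiv, ?_⟩
    intro c x z hz
    change (Module.finBasis B (Cok F)).equivFun.symm (c • x) = _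
    rw [map_smul]
    change (Module.finBasis B (Cok F)).equivFun.symm x = _ at hz
    rw [hz]
    rfl
  · by_contra hne'
    exact strict2 A B p (tHA act hp) (Cok F) _ hH0 s b hb (show p + 3 + s ≤ edim A by omega) hR

end Pool.Agent.Helper34.FB
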