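import Pool.Agent.Helper34.FB.Defs

/-!
# Project FB (MP_05c055_al): goals (packets), with proofs.  Mathematics: PROOF.md in this folder.

Conventions: `f l = t1 * f1 l + t2 * f2 l`.  All goals are universe polymorphic.  `T1`, `FRE`, ... of the DA library
(`Pool.Agent.Helper26.DA`, all proved, see its `All.lean`) may be used.
-/

set_option autoImplicit false

namespace Pool.Agent.Helper34.FB

open IsLocalRing Pool.Agent.Helper26.DA

universe u v w x y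

/-! ## A. core linear algebra -/

/-- (CLIMB).  `E_a = D (inr a)`, `K_a` from `kop` for the syzygy `c (inr b) = δ_ab`, `c (inl j) = - g a j`, so
`D_(inr b) K_a + K_a D_(inr b) = δ_ab`, `D_(inl j) K_a + K_a D_(inl j) = - g a j`.
(0) `ker τ` is an `R`-submodule which contains `T`.
(1) if `z ∈ gr i` has (P): `τ (Dw L z) = 0` for all words `L` with a letter `inr _`, then `z₁ = z - K_a (E_a z) = E_a (K_a z)` (for `i ≥ 0`:
`E_a K_a + K_a E_a = 1`) has `τ (Dw L z₁) = τ (Dw L z)` for ALL `L`: by induction on `L`,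
`Dw L (K_a y) = ± K_a (Dw L y) + ∑_r (± coefficient) • Dw (L without its letter r) y`, take `y = E_a z`: the first term is in `T`, the others are
`Dw L' z` with `inr a ∈ L'`.  So iterate over all `a`: `z' = E_s K_s ⋯ E_1 K_1 z = ± E_s ⋯ E_1 K_s ⋯ K_1 z`.
(2) `K_s ⋯ K_1 z ∈ gr (i + s)`, `i + s ≥ s + 1`: by HYP there is `v₀ ∈ gr (i+s)` with `f1 m • y₀ = -(t2 • v₀)`, ...; apply `± E_s ⋯ E_1`
(`R`-linear): `f1 m • z' = -(t2 • v)`, `f2 m • z' = t1 • v`, `v ∈ gr i`.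
(3) if `i + s ≥ p + 1` then `K_s ⋯ K_1 z = 0` (`gr_top`), `z' = 0`, so `τ (Dw L z) = 0` for all `L`.
(4) if `i + s ≤ p` (`i < e - 1`): downward induction on `i`.  Words longer than `i` kill `z` (`D_gr`, `D_zero`), words with a letter `inr` are given.
Let `L` have only letters `inl`, length `≤ i < e`; choose `m : Fin e` with `inl m ∉ L`.  `kap` with `y l = if l = inl m then z' else 0` and `v`:
`w = h_m z' - s v ∈ gr (i+1)`, `D_j w = δ_{j,m} z' - (h_m (D_j z') - s (D_j v)) + t1 a + t2 b`; `(D_j z', D_j v)` satisfies the same two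
relations.  By induction on a word `L'`: `τ (Dw L' w) = ∑ (± ) τ (Dw (L' without one letter inl m) z')` (the last term is in `T`).  So `w` has (P),
and for `L' = inl m :: L`: `τ (Dw L' w) = ± τ (Dw L z') = ± τ (Dw L z)`, which is `0` by the induction hypothesis for `w`, `i + 1`. -/
def G_CLIMB : Prop := ∀ (R : Type u) [CommRing R] (t1 t2 : R) (e s p : ℕ) (f1 f2 : Fin e ⊕ Fin s → R)
  (S : Sys1.{u, v} R t1 t2 (Fin e ⊕ Fin s) f1 f2 p) (X : Type w) [AddCommGroup X] [Module R X]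
  (τ : S.W →ₗ[R] X) (g : Fin s → Fin e → R), e + s = p + 2 →
  (∀ a, t1 * f1 (Sum.inr a) + t2 * f2 (Sum.inr a) =
    ∑ j, g a j * (t1 * f1 (Sum.inl j) + t2 * f2 (Sum.inl j))) →
  HYP S → (∀ y, τ (t1 • y) = 0) → (∀ y, τ (t2 • y) = 0) → (∀ y ∈ S.T, τ y = 0) →
  ∀ i, 1 ≤ i → ∀ z ∈ S.gr i,
    (∀ (L : List (Fin e ⊕ Fin s)) (a : Fin s), Sum.inr a ∈ L → τ (Dw S L z) = 0) →
    ∀ L : List (Fin e ⊕ Fin s), τ (Dw S L z) = 0

/-- (TRIV).  `E_a = D (inr a)`, `K_a` as in CLIMB.  For `x ∈ gr 0`: `E_a x = 0`, and `x = E_1 (K_1 x) = E_1 E_2 K_2 K_1 x = ⋯ = E_1 ⋯ E_s K_s ⋯ K_1 x`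
(`E_b K_b y = y - K_b E_b y`, and `E_b` anticommutes with the other `K`'s and kills `x`), and `K_s ⋯ K_1 x ∈ gr s = 0` as `s ≥ p + 1`. -/
def G_TRIV : Prop := ∀ (R : Type u) [CommRing R] (t1 t2 : R) (e s p : ℕ) (f1 f2 : Fin e ⊕ Fin s → R)
  (S : Sys1.{u, v} R t1 t2 (Fin e ⊕ Fin s) f1 f2 p) (g : Fin s → Fin e → R), p + 1 ≤ s →
  (∀ a, t1 * f1 (Sum.inr a) + t2 * f2 (Sum.inr a) =
    ∑ j, g a j * (t1 * f1 (Sum.inl j) + t2 * f2 (Sum.inl j))) →
  ∀ x ∈ S.gr 0, x = 0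

/-- (DET), a determinant of (anti)commutators.  For `X : W →+ W'` with a sign `ε = ±1` put `δ_j X = D'_j X - ε X D_j` (`ε = (-1)^(number of letters
Hh, h in X)`); for `X : W →+ W` the same with `D_j`.  Leibniz: `δ_j (h X) = c_j X - h δ_j X`, `δ_j (Hh X) = ι (c1_j X ·, c2_j X ·) - Hh δ_j X`,
and `δ_j` commutes with multiplication by scalars and with `ι (a ·, b ·)`.  As in DA `G_RNG` (proof in `Pool.Agent.Helper35.DA.RNG`; you may embed
`W →+ W` in the ring `AddMonoid.End W` and use it for the `h`'s): the `n`-fold `δ` of `hp n h` is multiplication by `det (c i (l j))`, the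
`(n+1)`-fold `δ` of `hp n h` is `0`, so the `(n+1)`-fold `δ` of `Hh ∘ hp n h` is `y ↦ ∑_b (±) ι (c1 (l b) det_b y, c2 (l b) det_b y)`, `det_b` the minor
without the column `b`: the two Laplace expansions.  The property `∀ L, X (D-word L z) = 0` passes from `X` to `δ_j X`. -/
def G_DET : Prop := ∀ (R : Type u) [CommRing R] (W W' : Type v) [AddCommGroup W] [AddCommGroup W'] [Module R W]
  (J : Type) (D : J → W →ₗ[R] W) (D' : J → W' →+ W') (ι : W × W →+ W')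
  (Hh : W →+ W') (c1 c2 : J → R) (n : ℕ) (h : Fin n → W →+ W) (c : Fin n → J → R),
  (∀ j u v, D' j (ι (u, v)) = ι (D j u, D j v)) →
  (∀ j y, D' j (Hh y) + Hh (D j y) = ι (c1 j • y, c2 j • y)) →
  (∀ i j y, D j (h i y) + h i (D j y) = c i j • y) →
  ∀ z : W, (∀ L : List J, Hh (hp n h (L.foldr (fun j y => D j y) z)) = 0) → ∀ l : Fin (n + 1) → J,
    ι ((Matrix.of fun (k b : Fin (n + 1)) => (Fin.cons c1 c : Fin (n + 1) → J → R) k (l b)).det • z,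
      (Matrix.of fun (k b : Fin (n + 1)) => (Fin.cons c2 c : Fin (n + 1) → J → R) k (l b)).det • z) = 0

/-- (ROW).  With `c i` for the rows and `D_(l b) η` as last row: if `h 0 (h 1 (⋯ η)) = 0` then `∑_b (-1)^b det (c i (l b'))_{b' ≠ b} • D_(l b) η = 0`.
Apply `D_(l 0) ⋯ D_(l n)` to `hp n h η`.  By induction on `m` (number of letters `h`, for all words): a word of `m + 2` letters `D` kills
`hp m h η` (`m = 0`: hypothesis), and a word `D_(l 0) ⋯ D_(l m)` of `m + 1` letters gives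
`± ∑_b (-1)^b det (minor without column b) • D_(l b) η` (Leibniz `D_j (h y) = c_j y - h (D_j y)` and the Laplace expansion along the first row). -/
def G_ROW : Prop := ∀ (R : Type u) [CommRing R] (W : Type v) [AddCommGroup W] [Module R W] (J : Type)
  (D : J → W →ₗ[R] W) (n : ℕ) (h : Fin n → W →+ W) (c : Fin n → J → R),
  (∀ i j y, D j (h i y) + h i (D j y) = c i j • y) → ∀ η : W, (∀ j j', D j (D j' η) = 0) → hp n h η = 0 →
  ∀ l : Fin (n + 1) → J, ∑ b : Fin (n + 1),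
    ((-1) ^ (b : ℕ) * (Matrix.of fun (i : Fin n) (b' : Fin n) => c i (l (b.succAbove b'))).det) • D (l b) η = 0

/-- (U), `1 + n` letters `Hh, h` and `s` letters `K`.  `|L| > i`: the word kills `z` (`D_gr`, `D_zero`).  `|L| < i`: the `n + s = p` letters `h, K` map
`gr (i - |L|)` to `gr (> p) = 0`.  `|L| = i`: put `G = hp n h`.
(q) for `y ∈ gr (s+1)`: `G y ∈ gr (p+1) = 0`, and `G (D_j y) = ± D_j (G y) + (t1 a + t2 b)`, `a, b ∈ gr p`, by induction on the number of letters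
(`D_j h = c_j - h D_j`, `c_j = t1 c1_j + t2 c2_j`, and `h` preserves elements of the form `t1 a + t2 b`), so `Hh (G (D_j y)) = 0`.
Let `𝒦_0` be the multiplications by elements of `R` and `𝒦_(m+1)` the additive span of `g • K_a κ`, `κ ∈ 𝒦_m`; `κ ∈ 𝒦_m` maps `gr i` to `gr (i+m)`;
`hp s K ∈ 𝒦_s`.  For `κ ∈ 𝒦_(m+1)`: `κ D_j = ± D_j κ + κ'` with `κ' ∈ 𝒦_m` (induction on `m`); for `κ ∈ 𝒦_0`: `κ D_j = D_j κ`.
By induction on `m`: `Hh (G (κ (word L z))) = 0` if `κ ∈ 𝒦_m`, `z ∈ gr i`, `|L| + s = i + m`, `|L| > m` (that is `i > s`): write `L = j :: L'`,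
`y = word L' z`, `κ y ∈ gr (s+1)`; use (q) for `D_j (κ y)` and the induction hypothesis for `κ'`, `L'`. -/
def G_U : Prop := ∀ (R : Type u) [CommRing R] (t1 t2 : R) (J : Type) [Fintype J] (f1 f2 : J → R) (p : ℕ)
  (S : Sys1.{u, v} R t1 t2 J f1 f2 p) (W' : Type v) [AddCommGroup W'] (n s : ℕ), n + s = p →
  ∀ (Hh : S.W →+ W') (h : Fin n → S.W →+ S.W) (K : Fin s → S.W →+ S.W) (c1 c2 : Fin n → J → R)
  (cK : Fin s → J → R), (∀ k i, ∀ y ∈ S.gr i, h k y ∈ S.gr (i + 1)) →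
  (∀ k i, ∀ y ∈ S.gr i, K k y ∈ S.gr (i + 1)) →
  (∀ k j y, S.D j (h k y) + h k (S.D j y) = (t1 * c1 k j + t2 * c2 k j) • y) →
  (∀ k j y, S.D j (K k y) + K k (S.D j y) = cK k j • y) →
  (∀ k i, ∀ a ∈ S.gr i, ∀ b ∈ S.gr i, ∃ a' ∈ S.gr (i + 1), ∃ b' ∈ S.gr (i + 1),
    h k (t1 • a + t2 • b) = t1 • a' + t2 • b') →
  (∀ a ∈ S.gr p, ∀ b ∈ S.gr p, Hh (t1 • a + t2 • b) = 0) →
  ∀ i, s + 1 ≤ i → ∀ z ∈ S.gr i, ∀ L : List J, Hh (hp n h (hp s K (L.foldr (fun j y => S.D j y) z))) = 0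

/-- (CLAIM), from `G_DET` and `G_U`, `e = n + 1`.  H-operators (`hop`) for the rows `c_k` (extended by `0` to `inr`, `ψ_k` from `REG`), K-operators as in
CLIMB (`c_a (inr b) = δ_ab`, `c_a (inl j) = - g a j`).  Letters `Hh_0; H_1, …, H_(n-1); K_1, …, K_s`, together `n + s = p + 1`; `G_U` gives the
hypothesis of `G_DET` (one list of letters: `Fin.append`, and a lemma on `hp` of an append), the letters `D_(inl (l b))`, `D_(inr a)`.  The block matrix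
`[[c_k (l b), 0], [- g a (l b), 1]]` has determinant `det (c_k (l b))` (`Matrix.det_fromBlocks_zero₁₂`); `d1, d2` = the same determinants with
first row `c1_0`, `c2_0`, so `t1 d1 + t2 d2 = det`; `ι (d1 z, d2 z) = 0`: `ι_ker`.
Second statement: `z ∈ gr 0`: `G_DET` with `W' = W`, `ι (u, v) = t1 u + t2 v`, `H_0` instead of `Hh_0`: `H_0 ⋯ K_s z ∈ gr (p+1) = 0` and `D_j z = 0`. -/
def G_CLAIM : Prop := G_DET.{u, v} → G_U.{u, v} → ∀ (R : Type u) [CommRing R] (t1 t2 : R) (n s p : ℕ)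
  (f1 f2 : Fin (n + 1) ⊕ Fin s → R) (S : Sys.{u, v} R t1 t2 (Fin (n + 1) ⊕ Fin s) f1 f2 p)
  (g : Fin s → Fin (n + 1) → R), REG t1 t2 → 1 ≤ n → n + 1 + s = p + 2 →
  (∀ a, t1 * f1 (Sum.inr a) + t2 * f2 (Sum.inr a) =
    ∑ j, g a j * (t1 * f1 (Sum.inl j) + t2 * f2 (Sum.inl j))) →
  ∀ (c1 c2 : Fin n → Fin (n + 1) → R),
  (∀ k, ∑ j, (t1 * c1 k j + t2 * c2 k j) * (t1 * f1 (Sum.inl j) + t2 * f2 (Sum.inl j)) = 0) →
  ∀ l : Fin n → Fin (n + 1),
    (∀ i, s + 1 ≤ i → ∀ z ∈ S.gr i,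
      AH t1 t2 (S.gr i) z (Matrix.of fun k b => t1 * c1 k (l b) + t2 * c2 k (l b)).det) ∧
    ∀ z ∈ S.gr 0, (Matrix.of fun k b => t1 * c1 k (l b) + t2 * c2 k (l b)).det • z = 0

/-- (CLOSE), from `G_ROW`, `e = n + 1`.  `Hh_k, H_k` for the rows `c_k` and the given `ψ_k`; `K_a`, `E_a` as in CLIMB.  `y = ∑ Hh_k α_k ∈ gr' 1`, `θ y = ∑ ψ_k α_k = 0`,
so `y = ι (y₁, y₂)`, `y_i ∈ gr 1`.  As `D_j α_k = 0`: `ι (∑_k c1_kj α_k - D_j y₁, ∑_k c2_kj α_k - D_j y₂) = 0`, so (`ι_ker`) there is `v_j ∈ gr 0` with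
`∑_k c1_kj α_k - D_j y₁ = -(t2 • v_j)`, `∑_k c2_kj α_k - D_j y₂ = t1 • v_j`, for all `j` (`c_k (inr a) = 0`).
Replace `y_i` by `∏ (1 - K_a E_a) y_i` (in `gr 1`): `E_a y_i` becomes `0` (words of length 2 kill `gr 1`), `D_j y_i` becomes `D_j y_i + ∑_a g a j • E_a y_i`,
and the two relations are kept for `j = inl _` (with `v_j + ∑ g a j v_a`).  The new `y_i` is `± E_s ⋯ E_1 K_s ⋯ K_1` of the old one.
(ii) for `η = y_i` (new) and fixed `k0`: `∑_b (±) det (c_k (l b'))_{k ≠ k0, b' ≠ b} • D_(l b) η = 0`, by `G_ROW` (`n = n' + 1`, the letters `H_k`, `k = k0.succAbove i`),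
because `∏_{k≠k0} H_k η = 0`: `E` and `H` anticommute,
`(∏_{k≠k0} H_k) E_s ⋯ E_1 (K_s ⋯ K_1 y) = ± E_s ⋯ E_1 (∏ H_k) (K_s ⋯ K_1 y)` and `(∏ H_k) K_s ⋯ K_1 y ∈ gr (p+1) = 0`.
Multiply the relations for `j = inl (l b)` by the signed minors `m_b` and add: the terms of `y_i` vanish; for `k ≠ k0`:
`∑_b m_b c_k (l b) = 0` (two equal rows), so `∑ m_b c1_k(l b) = -(t2 * ω_k)`, `∑ m_b c2_k (l b) = t1 * ω_k` by `REG`; for `k0` we get `± det`.
So `AH (α k0) det` with `v = ± (∑ m_b v_b - ∑_{k≠k0} ω_k α_k)`. -/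
def G_CLOSE : Prop := G_ROW.{u, v} → ∀ (R : Type u) [CommRing R] (t1 t2 : R) (n s p : ℕ)
  (f1 f2 : Fin (n + 1) ⊕ Fin s → R) (S : Sys.{u, v} R t1 t2 (Fin (n + 1) ⊕ Fin s) f1 f2 p)
  (g : Fin s → Fin (n + 1) → R), REG t1 t2 → 1 ≤ n → n + 1 + s = p + 2 →
  (∀ a, t1 * f1 (Sum.inr a) + t2 * f2 (Sum.inr a) =
    ∑ j, g a j * (t1 * f1 (Sum.inl j) + t2 * f2 (Sum.inl j))) →
  ∀ (c1 c2 : Fin n → Fin (n + 1) → R) (ψ : Fin n → R),
  (∀ k, ∑ j, c1 k j * (t1 * f1 (Sum.inl j) + t2 * f2 (Sum.inl j)) = -(t2 * ψ k)) →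
  (∀ k, ∑ j, c2 k j * (t1 * f1 (Sum.inl j) + t2 * f2 (Sum.inl j)) = t1 * ψ k) →
  ∀ α : Fin n → S.W, (∀ k, α k ∈ S.gr 0) → ∑ k, ψ k • α k = 0 →
  ∀ (k0 : Fin n) (l : Fin n → Fin (n + 1)),
    AH t1 t2 (S.gr 0) (α k0) (Matrix.of fun k b => t1 * c1 k (l b) + t2 * c2 k (l b)).det

/-- (CF), the closed fibre.  From the other goals, see `Asm.lean` (helper34). -/
def G_CF : Prop := ∀ (R : Type u) [CommRing R] [IsDomain R] [UniqueFactorizationMonoid R] [IsNoetherianRing R]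
  [IsLocalRing R] (t1 t2 : R), maximalIdeal R = Ideal.span {t1, t2} → ¬ (maximalIdeal R).IsPrincipal →
  ∀ (e s p : ℕ) (f1 f2 : Fin e ⊕ Fin s → R) (S : Sys.{u, v} R t1 t2 (Fin e ⊕ Fin s) f1 f2 p)
  (g : Fin s → Fin e → R), e + s = p + 2 →
  (∀ a, t1 * f1 (Sum.inr a) + t2 * f2 (Sum.inr a) =
    ∑ j, g a j * (t1 * f1 (Sum.inl j) + t2 * f2 (Sum.inl j))) →
  (∀ c : Fin e → R, ∑ j, c j * (t1 * f1 (Sum.inl j) + t2 * f2 (Sum.inl j)) = 0 →
    ∀ j, c j ∈ maximalIdeal R) →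
  ∀ (r : ℕ) (z : Fin r → S.W), (∀ i, z i ∈ S.gr 0) → (∀ y ∈ S.gr 0, ∃ c : Fin r → R, y = ∑ i, c i • z i) →
  (∀ c : Fin r → R, (∃ a ∈ S.gr 0, ∃ b ∈ S.gr 0, ∑ i, c i • z i = t1 • a + t2 • b) →
    ∀ i, c i ∈ maximalIdeal R) →
  ∀ c : Fin r → R, ∑ i, c i • z i = 0 →
    ∀ i, c i ∈ Ideal.span (Set.range fun j => t1 * f1 j + t2 * f2 j)

/-! ## B. two-dimensional regular local rings -/

/-- (REG).  `t1 ∉ m²` (otherwise `m = (t2) + m²`, so `m = (t2)` by Nakayama), so `t1` is irreducible (`t1 = a b` with `a, b ∈ m` gives `t1 ∈ m²`;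
`t1 ≠ 0` as `m` is not principal), hence prime.  `t1 ∣ t2 * b`; `t1 ∣ t2` would give `m = (t1)`. -/
def G_REG : Prop := ∀ (R : Type u) [CommRing R] [IsDomain R] [UniqueFactorizationMonoid R] [IsNoetherianRing R]
  [IsLocalRing R] (t1 t2 : R), maximalIdeal R = Ideal.span {t1, t2} → ¬ (maximalIdeal R).IsPrincipal →
  REG t1 t2

/-- (SEL), selection of a minimal system of generators.  Take a subset `S` of `Fin N` of minimal cardinality such that all `f j` are in the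
span of `f '' S`; `e = card S`, `s = N - e`, `σ` any equivalence which sends `S` to `inl`.  A syzygy of `(f j)_{j ∈ S}` with a unit coordinate
would allow to remove this `j`. -/
def G_SEL : Prop := ∀ (R : Type u) [CommRing R] [IsLocalRing R] (N : ℕ) (f : Fin N → R),
  ∃ (e s : ℕ) (σ : Fin N ≃ Fin e ⊕ Fin s) (g : Fin s → Fin e → R),
    (∀ c : Fin e → R, ∑ j, c j * f (σ.symm (Sum.inl j)) = 0 → ∀ j, c j ∈ maximalIdeal R) ∧
    ∀ a, f (σ.symm (Sum.inr a)) = ∑ j, g a j * f (σ.symm (Sum.inl j))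

/-- (HB2).  `f ≠ 0`.  `f = g0 f0` with `f0` coprime (no prime divides all `f0 j`; unique factorisation, see the proof of DA `G_HB`,
`Pool.Agent.Helper93.DA.HB`).  The syzygies of `f0` are those of `f`; DA `G_FRE` gives a basis `c`, DA `G_MIN` gives `f0 k ∈ MI n f0`.  A family
of `n` syzygies is `T * c`, so its minors are `det T * det (c k (l b))`.  If `g0` is a unit then `f` is coprime: every prime ideal `P ≥ (f)` is
`m`: otherwise `P < m`, `P ≠ 0`, `P` contains a prime element `π` (UFD), `(π) ≤ P < m`, and `m = (t1, t2)` has height at most `2`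
(Krull, `Ideal.height_le_spanRank_toENat` or similar), so `P = (π)` and `π` divides all `f j`.  So the radical of `(f)` is `m`, and `m ^ N ≤ (f)`
(noetherian). -/
def G_HB2 : Prop := ∀ (R : Type u) [CommRing R] [IsDomain R] [UniqueFactorizationMonoid R] [IsNoetherianRing R]
  [IsLocalRing R] (t1 t2 : R), maximalIdeal R = Ideal.span {t1, t2} → ∀ (n : ℕ) (f : Fin (n + 1) → R), 1 ≤ n →
  (∀ c : Fin (n + 1) → R, ∑ j, c j * f j = 0 → ∀ j, c j ∈ maximalIdeal R) →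
  ∃ (g0 : R) (f0 : Fin (n + 1) → R) (c : Fin n → Fin (n + 1) → R), (∀ j, f j = g0 * f0 j) ∧
    (∀ k, ∑ j, c k j * f j = 0) ∧
    (∀ z : Fin (n + 1) → R, ∑ j, z j * f j = 0 → ∃ α : Fin n → R, ∀ j, z j = ∑ k, α k * c k j) ∧
    (∀ j, f0 j ∈ Ideal.span (Set.range fun l : Fin n → Fin (n + 1) =>
      (Matrix.of fun k b => c k (l b)).det)) ∧
    (g0 ∈ maximalIdeal R ∨ ∃ N, maximalIdeal R ^ N ≤ Ideal.span (Set.range f))

/-- (SOC).  `t1 b = ∑ f_j a_j`, `t2 b = ∑ f_j b_j`; `(t2 a_j - t1 b_j)_j` is a syzygy, so `= ∑_k α_k (t1 c1_kj + t2 c2_kj)`;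
`t2 (a_j - ∑ α_k c2_kj) - t1 (b_j + ∑ α_k c1_kj) = 0`, by `REG` `a_j - ∑ α_k c2_kj = t1 ε_j`, so
`t1 b = ∑_k α_k t1 ψ_k + t1 ∑ f_j ε_j`; cancel `t1`. -/
def G_SOC : Prop := ∀ (R : Type u) [CommRing R] [IsDomain R] (t1 t2 : R), REG t1 t2 → t1 ≠ 0 →
  ∀ (e n : ℕ) (f : Fin e → R) (c1 c2 : Fin n → Fin e → R) (ψ : Fin n → R),
  (∀ k, ∑ j, c1 k j * f j = -(t2 * ψ k)) → (∀ k, ∑ j, c2 k j * f j = t1 * ψ k) →
  (∀ z : Fin e → R, ∑ j, z j * f j = 0 → ∃ α : Fin n → R, ∀ j, z j = ∑ k, α k * (t1 * c1 k j + t2 * c2 k j)) →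
  ∀ b : R, t1 * b ∈ Ideal.span (Set.range f) → t2 * b ∈ Ideal.span (Set.range f) →
    ∃ α : Fin n → R, b - ∑ k, α k * ψ k ∈ Ideal.span (Set.range f)

/-! ## C. complexes -/

/-- (HTP).  Null homotopic maps are closed under sums, scalars `a •`, composition with chain maps which commute with `pr`
(`f = d η + η d`, `ρ f = d (ρ η) + (ρ η) d`).  So modulo null homotopic maps `ρ` is a ring homomorphism and
`a • 1 ≡ ρ (algebraMap a)`: the map is `≡ ρ (∑ algebraMap (a k) * (u k * v k) + ∑ algebraMap (b l) * w l + algebraMap a0) = ρ 0 ≡ 0`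
(`ρ 0 ≡ 0` from `add 0 0`).  Induction over finsets for the sums. -/
def G_HTP : Prop := ∀ (A : Type u) (B : Type v) [CommRing A] [CommRing B] [Algebra A B] (p : ℕ)
  (H : HA.{u, v, w} A B p) (κ lam : Type) [Fintype κ] [Fintype lam] (a : κ → A) (c1 c2 : κ → B) (b : lam → A)
  (c : lam → B) (a0 : A),
  ∑ k, algebraMap A B (a k) * (c1 k * c2 k) + ∑ l, algebraMap A B (b l) * c l + algebraMap A B a0 = 0 →
  NullH H (∑ k, a k • (H.ρ (c1 k) ∘ₗ H.ρ (c2 k)) + ∑ l, b l • H.ρ (c l) + a0 • LinearMap.id)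

/-- (BUILD1).  `W = M / m M`.  Chain maps act on `W`, homotopic ones equally (`H.Min`: `d η z + η d z ∈ m M`).  `R`-module structure:
`g • [z] = [ρ b z]` for any lift `b` of `q g` (elements of `blk` act as zero: `ρ (algebraMap a) ≡ a`, `a (emb ..)`, `b i ∈ m` because of the
expansion of `b i`... all `b i ∈ m`).  `D_j [z] = [y (emb j)]` if `d z = ∑ a_l y_l` (such `y` exist as `d z ∈ m M`, `m = (a_l)`; unique modulo `m M`
because `M` is free and `MinGen a`).  `gr i` = image of `pr i`, `pr` = image of `pr 0`, `T = {[z] | pr 0 z = 0, π (d (pr 1 z)) = 0}`.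
For `c : J → R` choose lifts `ĉ : J → B`.  `s`: from HTP for `t̂1 t̂2 - t̂2 t̂1 = 0`: `X1 X2 - X2 X1 = d s + s d` (`X_i = ρ (t̂_i)`).
`h_m`: `a_m - t̂1 f̂1 - t̂2 f̂2 - ∑ b_i r_i = 0` in `B` gives `a_m - X1 ρ(f̂1) - X2 ρ(f̂2) - ∑ b_i ρ(r_i) = d h + h d`.  `K`: `∑ c_l f_l = 0` in `R` gives
`∑_l a_(emb l) ĉ_l - ∑ b_i r_i = 0` in `B`.  All these maps have degree one, so they preserve what is needed (`pr 0 (η z) = 0`,
`pr 1 (η z) = η (pr 0 z)`, `d (pr 0 z) = 0`, `π (d (η (pr 0 z))) = π ((d η + η d) (pr 0 z)) = 0` by the identity in `B`).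
`D_j K + K D_j = c_j`: `d (K z) = ∑ a_(emb l) ρ(ĉ_l) z - ∑ b_i ρ(r_i) z - K (d z)`, `b_i = ∑ c_l a_l` with `c_(emb j) ∈ m`.
`kap`: lifts `x_l = pr i _`, `v = pr i _` in `M`; `∑ ρ(f̂1_l) x_l + X2 v = ∑ a_j u_j`, `∑ ρ(f̂2_l) x_l - X1 v = ∑ a_j u'_j`; then
`d (∑ h_l x_l - s v) = ∑ a_(emb l) x_l - ∑ a_j (X1 u_j + X2 u'_j) - ∑ b_i (..) - ∑ h_l (d x_l) + s (d v)`. -/
def G_BUILD1 : Prop := G_HTP.{u, v, w} → ∀ (A : Type u) [CommRing A] [IsLocalRing A] (B : Type v) [CommRing B]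
  [Algebra A B] (p : ℕ) (H : HA.{u, v, w} A B p), H.Min → ∀ (e0 : ℕ) (a : Fin e0 → A), MinGen a →
  ∀ (s0 : ℕ) (b : Fin s0 → A), (∀ i, b i ∈ maximalIdeal A) → ∀ (J : Type) [Fintype J] (emb : J → Fin e0), Function.Injective emb →
  (∀ i, ∃ c : Fin e0 → A, b i = ∑ l, c l * a l ∧ ∀ j, c (emb j) ∈ maximalIdeal A) →
  ∀ (R : Type x) [CommRing R] (q : R →+* B ⧸ blk B b) (t1 t2 : R) (f1 f2 : J → R),
  (∀ j, q (t1 * f1 j + t2 * f2 j) = Ideal.Quotient.mk _ (algebraMap A B (a (emb j)))) →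
  ∀ (N : Type y) [AddCommGroup N] [Module A N] [Module B N] [IsScalarTower A B N] (π : H.M →ₗ[A] N),
  (∀ b z, π (H.ρ b (H.pr 0 z)) = b • π (H.pr 0 z)) →
  ∃ (S : Sys1.{x, w} R t1 t2 J f1 f2 p) (cls : H.M →+ S.W), Cls H a emb q S cls ∧
    (∀ z, S.pr (cls z) = cls (H.pr 0 z)) ∧
    ∀ y ∈ S.T, ∃ z, y = cls z ∧ H.pr 0 z = 0 ∧ π (H.d (H.pr 1 z)) = 0

/-- (GV).  `V = Z / B'`.  For `z ∈ Zg d`: `d z ∈ m N`, `m = (a_l)`, so `d z = ∑ a_l y_l`; `∑ a_l d y_l = 0` and `N` is free, so `d y_l ∈ m N` (coordinates,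
`MinGen`), `y_l ∈ Zg d`.  `D_l [z] = [y_l]`: independent of the choice of `y`; `z = d w + ∑ a_l w_l` gives `y_l = d w_l` (mod `m N`), in `Bg d`.
See `Pool.Agent.Helper27.DA.MDL` for the same argument. -/
def G_GV : Prop := ∀ (A : Type u) [CommRing A] [IsLocalRing A] (e0 : ℕ) (a : Fin e0 → A), MinGen a →
  ∀ (N : Type v) [AddCommGroup N] [Module A N] [Module.Free A N] (d : N →ₗ[A] N), (∀ z, d (d z) = 0) →
  ∃ D : Fin e0 → (Vg d →ₗ[A] Vg d), ∀ (z : Zg d) (y : Fin e0 → N), d z = ∑ l, a l • y l →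
    ∀ l, ∃ hy : y l ∈ Zg d, D l (Submodule.Quotient.mk z) = Submodule.Quotient.mk ⟨y l, hy⟩

/-- (BUILD2).  `M' = M × M × M`, `d' (u1, u2, v) = (d u1 - X2 v, d u2 + X1 v, - d v)`, `X_i = ρ (t̂_i)`; `d' d' = 0`.
`W' = Vg d'`, `D'_j` from `G_GV` (index `emb j`); `Zg d' = {X1 v, X2 v ∈ m M}` by `H.Min`.
`ι ([u1], [u2]) = [(u1, u2, 0)]`; it is zero iff `(u1, u2) ∈ (-X2 w, X1 w) + m`; replace `w` by `pr i w`.  `θ [(u1, u2, v)] = [v]`.
`gr' i` = classes of `(pr i u1, pr i u2, pr (i-1) v)` (`v = 0` for `i = 0`) in `Z'`.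
`θ_ker`: `v ∈ m M`, so `[(u1, u2, v)] = [(u1, u2, 0)]`.
`hop`: `ψ̂, ĉ1, ĉ2` lifts; by HTP degree one maps `al1, al2` with `d al1 + al1 d = ∑ a_(emb l) ρ(ĉ1_l) + X2 ρ(ψ̂) - ∑ b_i ρ(r_i)`,
`d al2 + al2 d = ∑ a_(emb l) ρ(ĉ2_l) - X1 ρ(ψ̂) - ∑ b_i ρ(r'_i)`.  `Hh [z] = [(al1 z, al2 z, ρ(ψ̂) z)]` (in `Z'`: `t_i ψ` is a combination of the
`f_l`, which act as zero on `W`), `H [z] = [X1 (al1 z) + X2 (al2 z) - s (ρ(ψ̂) z)]`, `X1 X2 - X2 X1 = d s + s d`.  The chain map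
`M' → M`, `(u1, u2, v) ↦ X1 u1 + X2 u2 - s v` shows `d H + H d = ∑ a_(emb l) (X1 ρ(ĉ1_l) + X2 ρ(ĉ2_l)) - ..`.
`H (t1 a + t2 b)`: `ψ t_i` acts as zero on `W`, so `s (ψ (t1 a + t2 b)) = 0`.  `Hh (t1 a + t2 b)` for `a, b ∈ gr p`: `al1 z = al2 z = 0` as
`pr (p+1) = 0`, and `ψ (t1 a + t2 b) = 0`. -/
def G_BUILD2 : Prop := G_HTP.{u, v, w} → G_GV.{u, w} → ∀ (A : Type u) [CommRing A] [IsLocalRing A] (B : Type v) [CommRing B]
  [Algebra A B] (p : ℕ) (H : HA.{u, v, w} A B p), H.Min → ∀ (e0 : ℕ) (a : Fin e0 → A), MinGen a →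
  ∀ (s0 : ℕ) (b : Fin s0 → A), (∀ i, b i ∈ maximalIdeal A) → ∀ (J : Type) [Fintype J] (emb : J → Fin e0), Function.Injective emb →
  (∀ i, ∃ c : Fin e0 → A, b i = ∑ l, c l * a l ∧ ∀ j, c (emb j) ∈ maximalIdeal A) →
  ∀ (R : Type x) [CommRing R] (q : R →+* B ⧸ blk B b) (t1 t2 : R) (f1 f2 : J → R),
  (∀ j, q (t1 * f1 j + t2 * f2 j) = Ideal.Quotient.mk _ (algebraMap A B (a (emb j)))) →
  ∀ (S : Sys1.{x, w} R t1 t2 J f1 f2 p) (cls : H.M →+ S.W), Cls H a emb q S cls →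
  ∃ S' : Sys.{x, w} R t1 t2 J f1 f2 p, S'.toSys1 = S

/-- (MINRED), the minimal model.  If `d z ∉ m M` for some `z` there are `i`, `x = pr (i+1) x`, `y = d x ∉ m M` and (basis of `M`) a functional `λ : M → A` with
`λ (pr i ·) = λ`, `λ y = 1`.  `ε₀ z = z - λ (d z) x - λ (z) y` is an idempotent chain map, commutes with the `pr`, and `1 - ε₀ = d η + η d`, `η z = λ (z) x`.
Range of `ε₀`: direct summand, so finite projective, so free (local ring; `Module.free_of_flat_of_isLocalRing` or similar); `ρ' b = ε₀ ρ b`.  Its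
rank is `rank M - 2`: induction on the rank (`M = range ε₀ ⊕ A x ⊕ A y`).  Compose. -/
def G_MINRED : Prop := ∀ (A : Type u) [CommRing A] [IsLocalRing A] (B : Type v) [CommRing B] [Algebra A B]
  (p : ℕ) (H : HA.{u, v, w} A B p), ∃ (H' : HA.{u, v, w} A B p) (ι : H'.M →ₗ[A] H.M) (ε : H.M →ₗ[A] H'.M),
    H'.Min ∧ (∀ z, ε (ι z) = z) ∧ (∀ z, ι (H'.d z) = H.d (ι z)) ∧ (∀ z, ε (H.d z) = H'.d (ε z)) ∧
    (∀ i z, ι (H'.pr i z) = H.pr i (ι z)) ∧ (∀ i z, ε (H.pr i z) = H'.pr i (ε z)) ∧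
    (∀ b z, H'.ρ b z = ε (H.ρ b (ι z))) ∧ NullH H (LinearMap.id - ι ∘ₗ ε)

/-- (GEN).  Linear algebra in `V = m / m²` (`CotangentSpace A`, `dim V ≥ N0 + s0`): the classes of the `b i` span a subspace `U` of dimension `≤ s0`; take a
basis of `V` which extends a basis of `U`; at least `N0` of its elements are not in the part of `U`; `emb` chooses `N0` of them; `a` lifts.
`MinGen` as in DA `G_MG` (`Pool.Agent.Helper94.DA.MG`).  `b i = ∑ c_l a_l` with `c_l ∈ m` for `l` outside the part of `U`. -/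
def G_GEN : Prop := ∀ (A : Type u) [CommRing A] [IsLocalRing A] [IsNoetherianRing A] (s0 N0 : ℕ) (b : Fin s0 → A),
  (∀ i, b i ∈ maximalIdeal A) → N0 + s0 ≤ Module.finrank (ResidueField A) (CotangentSpace A) →
  ∃ (e0 : ℕ) (a : Fin e0 → A) (emb : Fin N0 → Fin e0), MinGen a ∧ Function.Injective emb ∧
    ∀ i, ∃ c : Fin e0 → A, b i = ∑ l, c l * a l ∧ ∀ j, c (emb j) ∈ maximalIdeal A

/-- (ADJ), lifting `M → H_0` to `B^r` and correcting `ρ`.  `M` is free: there is `π₀ : M → B^r` (`A`-linear) with `β π₀ = πN`; `π = π₀ ∘ pr 0`.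
Surjective: for `x : Fin r → B`, `β x = πN (pr 0 z)`, so `x - π z ∈ ker β`, in particular `β (x - π z) = 0 ∈ m_A N`, by hypothesis all its
coordinates are in `m_A B`: `range π + m_A • B^r = ⊤`, Nakayama (`B^r` is finite over `A`).  `λ = π d pr 1 : M → ker β` is onto: `β x = 0`, `x = π (pr 0 z)`,
`πN (pr 0 z) = 0`, so `pr 0 z = d (pr 1 y)`.  `π ρ(b) pr 0 - b π` has values in `ker β`; `M` is free, so it is `λ σ` for some `σ : M → M`; `η_b = pr 1 σ pr 0`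
(degree one: `η (pr i z) = pr (i+1) (η z)`), `ρ' b = ρ b - d η_b - η_b d`.  All properties of `HA` for `ρ'` follow (null homotopic corrections). -/
def G_ADJ : Prop := ∀ (A : Type u) [CommRing A] [IsLocalRing A] [IsNoetherianRing A] (B : Type v) [CommRing B]
  [Algebra A B] [Module.Finite A B] (p : ℕ) (H : HA.{u, v, w} A B p) (N : Type x) [AddCommGroup N] [Module A N]
  [Module B N] [IsScalarTower A B N] (πN : H.M →ₗ[A] N), IsH0 H πN → ∀ (r : ℕ) (β : (Fin r → B) →ₗ[B] N),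
  Function.Surjective β →
  (∀ x : Fin r → B, β x ∈ maximalIdeal A • (⊤ : Submodule A N) →
    ∀ i, x i ∈ Ideal.map (algebraMap A B) (maximalIdeal A)) →
  ∃ (H' : HA.{u, v, w} A B p) (ι : H'.M ≃ₗ[A] H.M) (π : H'.M →ₗ[A] (Fin r → B)),
    (∀ z, ι (H'.d z) = H.d (ι z)) ∧ (∀ i z, ι (H'.pr i z) = H.pr i (ι z)) ∧
    (∀ b z, π (H'.ρ b (H'.pr 0 z)) = b • π (H'.pr 0 z)) ∧ (∀ x, ∃ z, π (H'.pr 0 z) = x) ∧
    (∀ z, β (π (H'.pr 0 z)) = πN (ι (H'.pr 0 z)))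

/-- the main theorem for homotopy actions, `B` finite over `A` -/
def G_FREEFIN : Prop := ∀ (A : Type u) [CommRing A] [IsLocalRing A] [IsNoetherianRing A] (B : Type v) [CommRing B]
  [IsLocalRing B] [Algebra A B] [Module.Finite A B] (p : ℕ) (H : HA.{u, v, w} A B p) (N : Type x) [AddCommGroup N]
  [Module A N] [Module B N] [IsScalarTower A B N] [Nontrivial N] (πN : H.M →ₗ[A] N), IsH0 H πN →
  ∀ (s0 : ℕ) (b : Fin s0 → A), (∀ i, b i ∈ maximalIdeal A) →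
  p + 2 + s0 ≤ Module.finrank (ResidueField A) (CotangentSpace A) →
  ∀ (R : Type y) [CommRing R] [IsDomain R] [UniqueFactorizationMonoid R] [IsNoetherianRing R] [IsLocalRing R]
  (t1 t2 : R), maximalIdeal R = Ideal.span {t1, t2} → ¬ (maximalIdeal R).IsPrincipal →
  ∀ q : R →+* B ⧸ blk B b, Function.Surjective q → Module.Free B N

/-- the main theorem for homotopy actions, `B` noetherian -/
def G_FREE : Prop := ∀ (A : Type u) [CommRing A] [IsLocalRing A] [IsNoetherianRing A] (B : Type v) [CommRing B]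
  [IsLocalRing B] [IsNoetherianRing B] [Algebra A B] (p : ℕ) (H : HA.{u, v, w} A B p) (N : Type x) [AddCommGroup N]
  [Module A N] [Module B N] [IsScalarTower A B N] [Nontrivial N] (πN : H.M →ₗ[A] N), IsH0 H πN →
  ∀ (s0 : ℕ) (b : Fin s0 → A), (∀ i, b i ∈ maximalIdeal A) →
  p + 2 + s0 ≤ Module.finrank (ResidueField A) (CotangentSpace A) →
  ∀ (R : Type y) [CommRing R] [IsDomain R] [UniqueFactorizationMonoid R] [IsNoetherianRing R] [IsLocalRing R]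
  (t1 t2 : R), maximalIdeal R = Ideal.span {t1, t2} → ¬ (maximalIdeal R).IsPrincipal →
  ∀ q : R →+* B ⧸ blk B b, Function.Surjective q → Module.Free B N

/-- (FINB), reduction to `B` finite over `A`.  `𝔟 = {c | NullH (ρ c)}` is an ideal of `B`.  `B / 𝔟` is finite over `A`: it embeds `A`-linearly into
(linear maps `M → M`) modulo null homotopic ones (`c ↦ ρ c`), and `M → M` is a noetherian `A`-module.  `B₁ = B / (m_B 𝔟)`: `𝔟 / m_B 𝔟` is a finite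
module over `B / m_B`, a quotient of `B / 𝔟` (if `𝔟 ≠ ⊤`; `𝔟 = ⊤` would give `NullH (ρ 1)`, `N = 0`), so `B₁` is finite over `A`.  `B₁` acts: choose a lift
`B₁ → B` and use `ρ` (elements of `m_B 𝔟 ≤ 𝔟` are null homotopic).  `N` is a `B₁`-module (`m_B 𝔟` kills `N`, `IsH0`), `R → B / blk → B₁ / blk` is
surjective.  So `N` is free over `B₁` and nonzero; `𝔟` kills `N`, so `𝔟 ≤ m_B 𝔟`, `𝔟 = 0` (Nakayama, `B` noetherian), `B₁ = B`. -/
def G_FINB : Prop := G_FREEFIN.{u, v, w, x, y} → G_FREE.{u, v, w, x, y}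

/-- the final theorem.  `e` is a `B`-linear bijection of `B^n` with `H_0(F) = coker d_0`. -/
def G_MAIN : Prop := ∀ (A : Type u) [CommRing A] [IsLocalRing A] [IsNoetherianRing A] (B : Type v) [CommRing B]
  [IsLocalRing B] [IsNoetherianRing B] [Algebra A B] (F : FC A) (act : DAct A B F) (p : ℕ),
  (∀ i, p < i → F.r i = 0) → LinearMap.range (F.d 0) ≠ ⊤ →
  ∀ (s0 : ℕ) (b : Fin s0 → A), (∀ i, b i ∈ maximalIdeal A) →
  p + 2 + s0 ≤ Module.finrank (ResidueField A) (CotangentSpace A) →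
  ∀ (R : Type w) [CommRing R] [IsDomain R] [UniqueFactorizationMonoid R] [IsNoetherianRing R] [IsLocalRing R]
  (t1 t2 : R), maximalIdeal R = Ideal.span {t1, t2} → ¬ (maximalIdeal R).IsPrincipal →
  ∀ q : R →+* B ⧸ blk B b, Function.Surjective q →
  ∃ (n : ℕ) (e : (Fin n → B) ≃+ ((Fin (F.r 0) → A) ⧸ LinearMap.range (F.d 0))),
    ∀ (c : B) (x : Fin n → B) (z : Fin (F.r 0) → A), e x = (LinearMap.range (F.d 0)).mkQ z →
      e (c • x) = (LinearMap.range (F.d 0)).mkQ (act.ρ c 0 z)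

/-- (TOHA), from `FC`, `DAct` to `HA`.  `M = ∀ i : ℕ, Fin (F.r i) → A` (finite free: equivalent to the product over `i : Fin (p+1)`),
`(d z) i = F.d i (z (i+1))`, `pr i z = Pi.single i (z i)`, `(ρ b z) i = act.ρ b i (z i)`, homotopy `(η z) 0 = 0`, `(η z) (i+1) = s i (z i)`.
`N = coker d_0` with `b • [z] = [ρ b 0 z]`, `πN z = [z 0]`.  Then `G_FREE` and a basis of `N` (finite: `N` is a finite `A`-module). -/
def G_TOHA : Prop := G_FREE.{u, v, u, u, w} → G_MAIN.{u, v, w}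

end Pool.Agent.Helper34.FB
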